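import Pool.Agent.UHJ.Stmts

/-!
# CNT: counting integer polynomials by their values
-/

namespace Pool.Agent.UHJ

open Polynomial

/-- CNT -/
theorem m_CNT : Stmt_CNT := by
  intro D M F t ht hM hdeg hval
  classical
  set m : ℤ := ⌊M⌋ with hm
  have hm0 : 0 ≤ m := Int.floor_nonneg.mpr hM
  have hmM : (m : ℝ) ≤ M := Int.floor_le M
  have hmaps : ∀ c ∈ F, (fun i => c.eval (t i)) ∈
      Fintype.piFinset (fun _ : Fin (D + 1) => Finset.Icc (-m) m) := by
    intro c hc
    rw [Fintype.mem_piFinset]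
    intro i
    rw [Finset.mem_Icc]
    have h := abs_le.mp (hval c hc i)
    constructor
    · have h1 : ((-(c.eval (t i)) : ℤ) : ℝ) ≤ M := by
        push_cast
        linarith [h.1]
      have h2 : -(c.eval (t i)) ≤ m := Int.le_floor.mpr h1
      linarith
    · exact Int.le_floor.mpr h.2
  have hinj : Set.InjOn (fun (c : ℤ[X]) => (fun i => c.eval (t i))) (F : Set ℤ[X]) := by
    intro c hc c' hc' h
    have hc := Finset.mem_coe.mp hc
    have hc' := Finset.mem_coe.mp hc'
    have h0 : c - c' = 0 := by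
      refine Polynomial.eq_zero_of_natDegree_lt_card_of_eval_eq_zero (c - c') ht ?_ ?_
      · intro i
        have hi := congrFun h i
        simp only at hi
        rw [Polynomial.eval_sub, hi, sub_self]
      · rw [Fintype.card_fin]
        exact lt_of_le_of_lt (Polynomial.natDegree_sub_le c c')
          (Nat.lt_succ_of_le (max_le (hdeg c hc) (hdeg c' hc')))
    exact sub_eq_zero.mp h0
  have hcard := Finset.card_le_card_of_injOn _ hmaps hinj
  rw [Fintype.card_piFinset_const, Int.card_Icc] at hcard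
  have h1 : ((F.card : ℕ) : ℝ) ≤ (((m + 1 - -m).toNat ^ (D + 1) : ℕ) : ℝ) :=
    Nat.cast_le.mpr hcard
  rw [Nat.cast_pow] at h1
  have h2 : (((m + 1 - -m).toNat : ℕ) : ℝ) = 2 * (m : ℝ) + 1 := by
    have h3 : (((m + 1 - -m).toNat : ℕ) : ℤ) = m + 1 - -m := Int.toNat_of_nonneg (by linarith)
    have h4 : (((m + 1 - -m).toNat : ℕ) : ℝ) = (((m + 1 - -m).toNat : ℤ) : ℝ) := by norm_cast
    rw [h4, h3]
    push_cast
    ring
  rw [h2] at h1
  have hm0' : (0 : ℝ) ≤ (m : ℝ) := by exact_mod_cast hm0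
  calc (F.card : ℝ) ≤ (2 * (m : ℝ) + 1) ^ (D + 1) := h1
    _ ≤ (2 * M + 1) ^ (D + 1) := by
      apply pow_le_pow_left₀ (by linarith)
      linarith

end Pool.Agent.UHJ
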