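import Pool.Agent.UHJ.Stmts
import Pool.Agent.UHI.Spr
import Pool.Agent.UHI.Lag

namespace Pool.Agent.UHJ

open Polynomial Pool.Agent.UHI

theorem m_COEF : Stmt_COEF := by
  intro n H B A T hn hT hA hB k
  obtain ⟨a, haT, hstep⟩ := m_SPR n 1 T (by simpa using hT)
  have hdeg : (H.map (Int.castRingHom ℝ)).natDegree ≤ n := natDegree_map_le.trans hn
  have h := m_LAGA n (H.map (Int.castRingHom ℝ)) B A a hdeg
    (fun i hi => by simpa using hstep i hi)
    (fun i hi => by
      have h1 := hB (a i) (haT i hi)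
      have h2 : (H.map (Int.castRingHom ℝ)).eval ((a i : ℤ) : ℝ) = ((H.eval (a i) : ℤ) : ℝ) := by
        have := Polynomial.eval_intCast_map (Int.castRingHom ℝ) H (a i)
        exact this.trans (by simp)
      rw [h2]
      exact h1)
    (fun i hi => hA (a i) (haT i hi)) k
  have h3 : (H.map (Int.castRingHom ℝ)).coeff k = ((H.coeff k : ℤ) : ℝ) := by
    simp [Polynomial.coeff_map]
  rw [h3] at h
  exact h

end Pool.Agent.UHJ
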