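import Pool.Agent.UHJ.Stmts

/-!
# CORE: the theorem for data without homogeneous pairs
-/

set_option autoImplicit false

namespace Pool.Agent.UHJ

open Polynomial Pool.Agent.UHI

namespace COREaux

/-- the numerical facts about `M = ceil (A^s)` -/
theorem numer {A s : ℝ} (hs : 0 < s) (hs1 : s ≤ 1 / 10000) (hA1 : 1 ≤ A)
    (hA : (2 : ℝ) ^ (1 / s) ≤ A) :
    2 ≤ ⌈A ^ s⌉₊ ∧ ((⌈A ^ s⌉₊ : ℕ) : ℝ) ≤ A ^ (2 * s) ∧ A ^ (5 * s) ≤ A / 2 := by
  have hA0 : 0 < A := by linarith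
  have h2 : 2 ≤ A ^ s := by
    calc (2 : ℝ) = ((2 : ℝ) ^ (1 / s)) ^ s := by
          rw [← Real.rpow_mul (by norm_num), one_div, inv_mul_cancel₀ hs.ne', Real.rpow_one]
      _ ≤ A ^ s := Real.rpow_le_rpow (by positivity) hA hs.le
  have h3 : A ^ (2 * s) = A ^ s * A ^ s := by
    rw [← Real.rpow_add hA0]
    congr 1
    ring
  refine ⟨?_, ?_, ?_⟩
  · have h4 : A ^ s ≤ (⌈A ^ s⌉₊ : ℝ) := Nat.le_ceil _
    have h5 : ((2 : ℕ) : ℝ) ≤ (⌈A ^ s⌉₊ : ℝ) := by
      push_cast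
      linarith
    exact_mod_cast h5
  · have h4 : (⌈A ^ s⌉₊ : ℝ) < A ^ s + 1 := Nat.ceil_lt_add_one (by linarith)
    rw [h3]
    nlinarith
  · have h4 : A = A ^ (1 - s) * A ^ s := by
      rw [← Real.rpow_add hA0]
      ring_nf
      rw [Real.rpow_one]
    have h5 : A ^ (5 * s) ≤ A ^ (1 - s) :=
      Real.rpow_le_rpow_of_exponent_le hA1 (by linarith)
    have h6 : 0 < A ^ (1 - s) := Real.rpow_pos_of_pos hA0 _
    have h7 : A ^ (1 - s) * 2 ≤ A := by
      conv_rhs => rw [h4]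
      exact mul_le_mul_of_nonneg_left h2 h6.le
    linarith

end COREaux

open COREaux

/-- **CORE.** -/
theorem m_CORE : UHI.Stmt_NEST → Stmt_INITA → Stmt_INITB → Stmt_STEP2 → Stmt_FIN2 → Stmt_CORE := by
  intro hNest hInitA hInitB hStep hFin D C s hD hC hs hs1
  obtain ⟨A1, hA1, hIA⟩ := hInitA D C s hD hC hs hs1
  obtain ⟨A2, hA2, hIB⟩ := hInitB D C s hD hC hs hs1
  obtain ⟨A3, hA3, hSt⟩ := hStep D C s hD hC hs hs1
  obtain ⟨A4, hA4, hF⟩ := hFin D C s hD hC hs hs1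
  refine ⟨max (max (max A1 A2) (max A3 A4)) ((2 : ℝ) ^ (1 / s)),
    le_max_of_le_left (le_max_of_le_left (le_max_of_le_left hA1)), ?_⟩
  intro A θ ρ τ X ε S j p hA hDat hcard
  have hAA : max (max A1 A2) (max A3 A4) ≤ A := (le_max_left _ _).trans hA
  have hAA1 : A1 ≤ A := ((le_max_left _ _).trans (le_max_left _ _)).trans hAA
  have hAA2 : A2 ≤ A := ((le_max_right _ _).trans (le_max_left _ _)).trans hAA
  have hAA3 : A3 ≤ A := ((le_max_left _ _).trans (le_max_right _ _)).trans hAA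
  have hAA4 : A4 ≤ A := ((le_max_right _ _).trans (le_max_right _ _)).trans hAA
  have hAA5 : (2 : ℝ) ^ (1 / s) ≤ A := (le_max_right _ _).trans hA
  have h1A : 1 ≤ A := hA1.trans hAA1
  have hA0 : 0 < A := by linarith
  obtain ⟨hM2, hMle, hl0⟩ := numer hs hs1 h1A hAA5
  set M : ℕ := ⌈A ^ s⌉₊ with hM
  have hM2' : (2 : ℝ) ≤ (M : ℝ) := by exact_mod_cast hM2
  have hM1' : (1 : ℝ) ≤ (M : ℝ) := by linarith
  have hM0 : (0 : ℝ) < (M : ℝ) := by linarith
  have hr0 : 0 ≤ A ^ (-(2 * s)) := (Real.rpow_pos_of_pos hA0 _).le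
  have hrA : A ^ (-(2 * s)) * A = A ^ (1 - 2 * s) := by
    have : A ^ (1 - 2 * s) = A ^ (-(2 * s)) * A ^ (1 : ℝ) := by
      rw [← Real.rpow_add hA0]
      congr 1
      ring
    rw [this, Real.rpow_one]
  obtain ⟨v, hv0, hv⟩ := hNest S (A / 2) (A / 2) (A ^ (-(2 * s))) M (by omega) (by linarith)
    (fun a ha => ⟨(hDat.hS a ha).1, by linarith [(hDat.hS a ha).2]⟩)
    (by
      refine le_trans ?_ hcard
      rw [← hrA]
      exact mul_le_mul_of_nonneg_left (by linarith) hr0)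
  -- the last interval which is not too short
  have hlim : ∃ k : ℕ, (A / 2) / (M : ℝ) ^ k < A ^ (5 * s) := by
    have h5 : 0 < A ^ (5 * s) := Real.rpow_pos_of_pos hA0 _
    obtain ⟨k, hk⟩ := pow_unbounded_of_one_lt ((A / 2) / A ^ (5 * s)) (by linarith : (1 : ℝ) < M)
    refine ⟨k, ?_⟩
    have hMk : 0 < (M : ℝ) ^ k := by positivity
    rw [div_lt_iff₀ h5] at hk
    rw [div_lt_iff₀ hMk]
    linarith
  classical
  have hfind := Nat.find_spec hlim
  have hmin := fun m => Nat.find_min hlim (m := m)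
  set k1 : ℕ := Nat.find hlim with hk1
  have hk1pos : k1 ≠ 0 := by
    intro h0
    rw [h0, pow_zero, div_one] at hfind
    linarith
  obtain ⟨k0, hk0⟩ := Nat.exists_eq_succ_of_ne_zero hk1pos
  have hk0a : A ^ (5 * s) ≤ (A / 2) / (M : ℝ) ^ k0 := by
    have := hmin k0 (by omega)
    exact not_lt.1 this
  have hratio : ∀ k : ℕ, (A / 2) / (M : ℝ) ^ k = (M : ℝ) * ((A / 2) / (M : ℝ) ^ (k + 1)) := by
    intro k
    rw [pow_succ]
    field_simp
  have hk0b : (A / 2) / (M : ℝ) ^ k0 ≤ A ^ (7 * s) := by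
    rw [hk0, Nat.succ_eq_add_one] at hfind
    rw [hratio k0]
    have e : A ^ (7 * s) = A ^ (2 * s) * A ^ (5 * s) := by
      rw [← Real.rpow_add hA0]
      congr 1
      ring
    rw [e]
    exact mul_le_mul hMle hfind.le (by positivity) (Real.rpow_pos_of_pos hA0 _).le
  -- the relations on the short interval
  obtain ⟨U, V, W, U', V', W', hd1, hd2, hne, hv1, hv2⟩ := hIA A θ ρ τ X ε S j p hAA1 hDat
    (v k0) ((A / 2) / (M : ℝ) ^ k0) hk0a hk0b (hv k0).2.2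
  obtain ⟨d, J, P, T, hd0, hdle, hJd, hPd, hTs, hTc, hTe⟩ := hIB A S j p hAA2 hDat.hS
    (v k0) ((A / 2) / (M : ℝ) ^ k0) hk0a hk0b (hv k0).2.2 U V W U' V' W' hd1 hd2 hne hv1 hv2
  have hone : 1 ≤ A ^ (2 * s) := Real.one_le_rpow h1A (by linarith)
  have hstart : ∀ a ∈ cut S (v k0) ((A / 2) / (M : ℝ) ^ k0),
      d * j a = J.eval a ∧ d * p a = P.eval a := by
    refine hSt A θ ρ τ X ε S j p hAA3 hDat d J P T (v k0) ((A / 2) / (M : ℝ) ^ k0) (v k0)
      ((A / 2) / (M : ℝ) ^ k0) hd0 hdle hJd hPd hk0a hTs hTc hTe le_rfl le_rfl ?_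
    have : 0 ≤ (A / 2) / (M : ℝ) ^ k0 := by positivity
    nlinarith
  have hdown : ∀ i : ℕ, i ≤ k0 → ∀ a ∈ cut S (v (k0 - i)) ((A / 2) / (M : ℝ) ^ (k0 - i)),
      d * j a = J.eval a ∧ d * p a = P.eval a := by
    intro i
    induction i with
    | zero =>
      intro _
      exact hstart
    | succ i ih =>
      intro hi
      have ih' := ih (by omega)
      obtain ⟨k, hk⟩ : ∃ k, k0 - (i + 1) = k := ⟨_, rfl⟩
      have hk1 : k0 - i = k + 1 := by omega
      rw [hk1] at ih'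
      rw [hk]
      have hMk1 : 0 < (M : ℝ) ^ (k + 1) := by positivity
      have hlnn : 0 ≤ (A / 2) / (M : ℝ) ^ (k + 1) := by positivity
      refine hSt A θ ρ τ X ε S j p hAA3 hDat d J P
        (cut S (v (k + 1)) ((A / 2) / (M : ℝ) ^ (k + 1))) (v (k + 1))
        ((A / 2) / (M : ℝ) ^ (k + 1)) (v k) ((A / 2) / (M : ℝ) ^ k) hd0 hdle hJd hPd ?_
        (Finset.Subset.refl _) ?_ ih' (hv k).1 (hv k).2.1 ?_
      · refine le_trans hk0a ?_
        refine div_le_div_of_nonneg_left (by linarith) hMk1 ?_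
        exact pow_le_pow_right₀ hM1' (by omega)
      · refine le_trans ?_ (hv (k + 1)).2.2
        have := mul_nonneg hr0 hlnn
        linarith
      · rw [hratio k]
        exact mul_le_mul_of_nonneg_right hMle hlnn
  have h0 := hdown k0 le_rfl
  rw [Nat.sub_self, pow_zero, div_one, hv0] at h0
  refine hF A θ ρ τ X ε S j p hAA4 hDat hcard d J P hd0 hdle hJd hPd ?_
  intro a ha
  apply h0
  unfold cut
  rw [Finset.mem_filter]
  exact ⟨ha, (hDat.hS a ha).1, by linarith [(hDat.hS a ha).2]⟩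

end Pool.Agent.UHJ
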