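import Pool.Agent.UHJ.Stmts

/-!
# D0B: size of a constant denominator
-/

namespace Pool.Agent.UHJ

open Polynomial Pool.Agent.UHI

namespace D0Baux

/-- a double product of numbers of absolute value at most `l` -/
theorem prod_le (n : ℕ) (a : Fin (n + 1) → ℤ) (l : ℝ) (hl : 1 ≤ l)
    (h : ∀ i j, |((a j : ℝ)) - a i| ≤ l) :
    |((∏ i : Fin (n + 1), ∏ j ∈ Finset.Ioi i, (a j - a i) : ℤ) : ℝ)| ≤ l ^ ((n + 1) ^ 2) := by
  push_cast
  rw [Finset.abs_prod]
  have h0 : (0 : ℝ) ≤ l := by linarith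
  have h1 : ∀ i : Fin (n + 1), |∏ j ∈ Finset.Ioi i, ((a j : ℝ) - a i)| ≤ l ^ (n + 1) := by
    intro i
    rw [Finset.abs_prod]
    calc ∏ j ∈ Finset.Ioi i, |(a j : ℝ) - a i| ≤ ∏ _j ∈ Finset.Ioi i, l :=
          Finset.prod_le_prod (fun _ _ => abs_nonneg _) (fun j _ => h i j)
      _ = l ^ (Finset.Ioi i).card := by rw [Finset.prod_const]
      _ ≤ l ^ (n + 1) := by
          refine pow_le_pow_right₀ hl ?_
          calc (Finset.Ioi i).card ≤ (Finset.univ : Finset (Fin (n + 1))).card :=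
                Finset.card_le_card (Finset.subset_univ _)
            _ = n + 1 := by simp
  calc ∏ i : Fin (n + 1), |∏ j ∈ Finset.Ioi i, ((a j : ℝ) - a i)|
      ≤ ∏ _i : Fin (n + 1), l ^ (n + 1) :=
        Finset.prod_le_prod (fun _ _ => abs_nonneg _) (fun i _ => h1 i)
    _ = l ^ ((n + 1) ^ 2) := by
        rw [Finset.prod_const, Finset.card_univ, Fintype.card_fin, ← pow_mul, sq]

end D0Baux

theorem m_D0B : Stmt_VDMN → Stmt_D0B := by
  intro hV n d V W T v l hd hVd hWd hcont hl hT hcard hdvd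
  have hcard' : n + 1 ≤ T.card := hcard
  let e : Fin (n + 1) ↪o ℤ := T.orderEmbOfCardLe hcard'
  let a : Fin (n + 1) → ℤ := fun i => e i
  have haT : ∀ i, a i ∈ T := fun i => Finset.orderEmbOfCardLe_mem T hcard' i
  have h1 : ∀ k, d ∣ (∏ i : Fin (n + 1), ∏ j ∈ Finset.Ioi i, (a j - a i)) * V.coeff k :=
    hV n V d a hVd (fun i => (hdvd _ (haT i)).1)
  have h2 : ∀ k, d ∣ (∏ i : Fin (n + 1), ∏ j ∈ Finset.Ioi i, (a j - a i)) * W.coeff k :=
    hV n W d a hWd (fun i => (hdvd _ (haT i)).2)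
  have h3 : d ∣ ∏ i : Fin (n + 1), ∏ j ∈ Finset.Ioi i, (a j - a i) :=
    hcont d _ (Dvd.intro_left _ rfl) h1 h2
  have hw : (∏ i : Fin (n + 1), ∏ j ∈ Finset.Ioi i, (a j - a i)) ≠ 0 := by
    refine Finset.prod_ne_zero_iff.2 (fun i _ => Finset.prod_ne_zero_iff.2 (fun j hj => ?_))
    have hij : i < j := Finset.mem_Ioi.1 hj
    have : a i < a j := e.strictMono hij
    exact sub_ne_zero.2 (ne_of_gt this)
  have h4 : |d| ≤ |∏ i : Fin (n + 1), ∏ j ∈ Finset.Ioi i, (a j - a i)| := by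
    have := Int.natAbs_le_of_dvd_ne_zero h3 hw
    rw [Int.abs_eq_natAbs, Int.abs_eq_natAbs]
    exact_mod_cast this
  have h5 : |(d : ℝ)| ≤ |((∏ i : Fin (n + 1), ∏ j ∈ Finset.Ioi i, (a j - a i) : ℤ) : ℝ)| := by
    have := h4
    rw [← Int.cast_abs, ← Int.cast_abs]
    exact_mod_cast this
  refine h5.trans (D0Baux.prod_le n a l hl (fun i j => ?_))
  have hi := hT _ (haT i)
  have hj := hT _ (haT j)
  rw [abs_le]
  constructor <;> linarith [hi.1, hi.2, hj.1, hj.2]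

end Pool.Agent.UHJ
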