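import Pool.Agent.UHJ.Stmts

/-! Module UHJ_DCON: a denominator with divisible values is a constant. -/

namespace Pool.Agent.UHJ

open Polynomial Pool.Agent.UHI

namespace DCONaux

/-- the fibres of a nonconstant polynomial have at most `natDegree` elements -/
theorem fibre (U : ℤ[X]) (n : ℕ) (h1 : 1 ≤ U.natDegree) (hn : U.natDegree ≤ n) (T : Finset ℤ) (c : ℤ) :
    (T.filter (fun a => U.eval a = c)).card ≤ n := by
  classical
  have hne : U - C c ≠ 0 := by
    intro h
    have h2 : U = C c := sub_eq_zero.mp h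
    rw [h2, natDegree_C] at h1
    omega
  have hsub : T.filter (fun a => U.eval a = c) ⊆ (U - C c).roots.toFinset := by
    intro a ha
    rw [Finset.mem_filter] at ha
    rw [Multiset.mem_toFinset, mem_roots hne, IsRoot.def, eval_sub, eval_C, ha.2, sub_self]
  calc (T.filter (fun a => U.eval a = c)).card ≤ (U - C c).roots.toFinset.card :=
        Finset.card_le_card hsub
    _ ≤ Multiset.card (U - C c).roots := Multiset.toFinset_card_le _
    _ ≤ (U - C c).natDegree := card_roots' _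
    _ = U.natDegree := natDegree_sub_C
    _ ≤ n := hn

/-- few possible values -/
theorem count (U : ℤ[X]) (n R : ℕ) (hR : 1 ≤ R) (h1 : 1 ≤ U.natDegree) (hn : U.natDegree ≤ n)
    (T : Finset ℤ) (hT : ∀ a ∈ T, U.eval a ∣ (R : ℤ)) :
    T.card ≤ n * (2 * (Nat.divisors R).card) := by
  classical
  have hc := Finset.card_le_mul_card_image (f := fun a : ℤ => U.eval a) T n
    (fun c _ => fibre U n h1 hn T c)
  have hsub : T.image (fun a : ℤ => U.eval a) ⊆
      (Nat.divisors R).image (fun d : ℕ => (d : ℤ)) ∪ (Nat.divisors R).image (fun d : ℕ => -(d : ℤ)) := by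
    intro c hc
    rw [Finset.mem_image] at hc
    obtain ⟨a, ha, rfl⟩ := hc
    have hd := hT a ha
    have hd' : (U.eval a).natAbs ∣ R := by
      have := Int.natAbs_dvd_natAbs.mpr hd
      simpa using this
    have hm : (U.eval a).natAbs ∈ Nat.divisors R := by
      rw [Nat.mem_divisors]
      exact ⟨hd', by omega⟩
    rw [Finset.mem_union, Finset.mem_image, Finset.mem_image]
    rcases Int.natAbs_eq (U.eval a) with h | h
    · exact Or.inl ⟨_, hm, h.symm⟩
    · exact Or.inr ⟨_, hm, h.symm⟩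
  have h2 : (T.image (fun a : ℤ => U.eval a)).card ≤ 2 * (Nat.divisors R).card := by
    refine (Finset.card_le_card hsub).trans ((Finset.card_union_le _ _).trans ?_)
    have e1 := Finset.card_image_le (s := Nat.divisors R) (f := fun d : ℕ => (d : ℤ))
    have e2 := Finset.card_image_le (s := Nat.divisors R) (f := fun d : ℕ => -(d : ℤ))
    omega
  exact hc.trans (Nat.mul_le_mul_left n h2)

end DCONaux

theorem m_DCON : Stmt_LAM → Stmt_RESN → UHI.Stmt_DIV → Stmt_DCON := by
  classical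
  intro hLAM hRESN hDIV n C s hC hs
  obtain ⟨A1, hA1, hdiv⟩ := hDIV (C * (2 * n + 1 : ℕ) + 1) (s / 2) (by positivity) (by positivity)
  set K : ℝ := ((2 * n).factorial : ℝ) * ((n : ℝ) + 1) ^ (2 * n + 1) with hK
  refine ⟨max (max 1 A1) (max K ((2 * (n : ℝ) + 1) ^ (2 / s))), le_max_of_le_left (le_max_left _ _), ?_⟩
  intro A hA U V W hU0 hU hV hW hP hcU hcV hcW T hT hdvd
  have hA_one : 1 ≤ A := (le_max_of_le_left (le_max_left _ _)).trans hA
  have hA_A1 : A1 ≤ A := (le_max_of_le_left (le_max_right _ _)).trans hA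
  have hA_K : K ≤ A := (le_max_of_le_right (le_max_left _ _)).trans hA
  have hA_p : (2 * (n : ℝ) + 1) ^ (2 / s) ≤ A := (le_max_of_le_right (le_max_right _ _)).trans hA
  have hA0 : 0 < A := by linarith
  by_contra hdeg
  have h1 : 1 ≤ U.natDegree := Nat.one_le_iff_ne_zero.mpr hdeg
  obtain ⟨l, hl, hco⟩ := hLAM n U V W hU0 hU hP.ratl
  have hAC : 1 ≤ A ^ C := Real.one_le_rpow hA_one hC.le
  have hB1 : 1 ≤ ((n : ℝ) + 1) * A ^ C := by
    have hn0 : (0 : ℝ) ≤ n := Nat.cast_nonneg n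
    nlinarith
  have hG : (V + Polynomial.C (l : ℤ) * W).natDegree ≤ n := by
    refine (natDegree_add_le _ _).trans (max_le hV ?_)
    exact (natDegree_C_mul_le _ _).trans hW
  have hcU' : ∀ k, |(U.coeff k : ℝ)| ≤ ((n : ℝ) + 1) * A ^ C := by
    intro k
    refine (hcU k).trans ?_
    have hn0 : (0 : ℝ) ≤ n := Nat.cast_nonneg n
    nlinarith
  have hcG : ∀ k, |((V + Polynomial.C (l : ℤ) * W).coeff k : ℝ)| ≤ ((n : ℝ) + 1) * A ^ C := by
    intro k
    rw [coeff_add, coeff_C_mul]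
    push_cast
    have e1 : |(V.coeff k : ℝ) + (l : ℝ) * (W.coeff k : ℝ)| ≤ |(V.coeff k : ℝ)| + (l : ℝ) * |(W.coeff k : ℝ)| := by
      refine (abs_add_le _ _).trans ?_
      rw [abs_mul, Nat.abs_cast]
    refine e1.trans ?_
    have hl' : (l : ℝ) ≤ n := by exact_mod_cast hl
    have e2 : (l : ℝ) * |(W.coeff k : ℝ)| ≤ n * A ^ C :=
      mul_le_mul hl' (hcW k) (abs_nonneg _) (Nat.cast_nonneg n)
    have e3 := hcV k
    linarith
  obtain ⟨R, hR1, hRle, hRd⟩ := hRESN n U (V + Polynomial.C (l : ℤ) * W) (((n : ℝ) + 1) * A ^ C) hU hG hco hB1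
    hcU' hcG
  have hRA : (R : ℝ) ≤ A ^ (C * (2 * n + 1 : ℕ) + 1) := by
    refine hRle.trans ?_
    rw [mul_pow, ← mul_assoc, Real.rpow_add hA0, Real.rpow_one, Real.rpow_mul hA0.le, Real.rpow_natCast,
      mul_comm ((A ^ C) ^ (2 * n + 1)) A]
    exact mul_le_mul_of_nonneg_right hA_K (by positivity)
  have hcard := hdiv A hA_A1 R hR1 hRA
  have hTR : ∀ a ∈ T, U.eval a ∣ (R : ℤ) := by
    intro a ha
    obtain ⟨d1, d2⟩ := hdvd a ha
    refine hRd a (U.eval a) (dvd_refl _) ?_
    rw [eval_add, eval_mul, eval_C]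
    exact dvd_add d1 (Dvd.dvd.mul_left d2 _)
  have hcount := DCONaux.count U n R hR1 h1 hU T hTR
  have hcount' : (T.card : ℝ) ≤ n * (2 * ((Nat.divisors R).card : ℝ)) := by exact_mod_cast hcount
  have hn0 : (0 : ℝ) ≤ n := Nat.cast_nonneg n
  have hz : 2 * (n : ℝ) + 1 ≤ A ^ (s / 2) := by
    have h2 : ((2 * (n : ℝ) + 1) ^ (2 / s)) ^ (s / 2) ≤ A ^ (s / 2) :=
      Real.rpow_le_rpow (by positivity) hA_p (by positivity)
    rw [← Real.rpow_mul (by positivity)] at h2
    have h3 : 2 / s * (s / 2) = 1 := by field_simp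
    rwa [h3, Real.rpow_one] at h2
  have hss : A ^ s = A ^ (s / 2) * A ^ (s / 2) := by
    rw [← Real.rpow_add hA0]; congr 1; ring
  have hpos : 0 < A ^ (s / 2) := Real.rpow_pos_of_pos hA0 _
  rw [hss] at hT
  have h5 : (n : ℝ) * (2 * ((Nat.divisors R).card : ℝ)) ≤ n * (2 * A ^ (s / 2)) := by
    apply mul_le_mul_of_nonneg_left _ hn0
    linarith
  nlinarith

end Pool.Agent.UHJ
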