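import Pool.Agent.UHJ.Stmts

/-!
# FIN2: leading coefficients (inhomogeneous inverse theorem)
-/

set_option autoImplicit false

namespace Pool.Agent.UHJ

open Polynomial Pool.Agent.UHI

namespace FIN2aux

/-- the loss in the interpolation bound -/
theorem loss {A s m B : ℝ} {D e : ℕ} (hA : 1 ≤ A) (he : e ≤ 2 * D + 2)
    (hm : A ^ (1 - 2 * s) / (2 * ((2 * D + 2 : ℕ) : ℝ)) ≤ m)
    (hbig : (((2 * D + 2 : ℕ) : ℝ) + 1) * (4 * ((2 * D + 2 : ℕ) : ℝ)) ^ (2 * D + 2) ≤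
      A ^ (((D : ℝ) + 1) * s)) (hB : 0 ≤ B) :
    (((2 * D + 2 : ℕ) : ℝ) + 1) * B * 2 ^ (2 * D + 2) * A ^ (2 * D + 2 - e) / m ^ (2 * D + 2) ≤
      B * A ^ (-(e : ℝ) + 5 * ((D : ℝ) + 1) * s) := by
  have hA0 : 0 < A := by linarith
  obtain ⟨n, hn⟩ : ∃ n, n = 2 * D + 2 := ⟨_, rfl⟩
  have hnD : (n : ℝ) = 2 * (D : ℝ) + 2 := by
    rw [hn]
    push_cast
    ring
  rw [← hn] at he hm hbig ⊢
  have hn0 : (0 : ℝ) < n := by
    rw [hnD]
    positivity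
  have h1 : (A ^ (1 - 2 * s) / (2 * (n : ℝ))) ^ n ≤ m ^ n :=
    pow_le_pow_left₀ (by positivity) hm n
  have h1' : (A ^ (1 - 2 * s) / (2 * (n : ℝ))) ^ n = A ^ ((1 - 2 * s) * n) / (2 * (n : ℝ)) ^ n := by
    rw [div_pow, ← Real.rpow_natCast (A ^ (1 - 2 * s)) n, ← Real.rpow_mul hA0.le]
  have hm0 : 0 < m ^ n := lt_of_lt_of_le (by positivity) h1
  rw [div_le_iff₀ hm0]
  have h2 : A ^ (n - e) = A ^ ((n : ℝ) - e) := by
    rw [← Nat.cast_sub he, Real.rpow_natCast]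
  have h3 : ((n : ℝ) + 1) * (4 * (n : ℝ)) ^ n * A ^ ((n : ℝ) - e) ≤
      A ^ (-(e : ℝ) + 5 * ((D : ℝ) + 1) * s) * A ^ ((1 - 2 * s) * n) := by
    calc ((n : ℝ) + 1) * (4 * (n : ℝ)) ^ n * A ^ ((n : ℝ) - e)
        ≤ A ^ (((D : ℝ) + 1) * s) * A ^ ((n : ℝ) - e) :=
          mul_le_mul_of_nonneg_right hbig (Real.rpow_nonneg hA0.le _)
      _ = A ^ (-(e : ℝ) + 5 * ((D : ℝ) + 1) * s) * A ^ ((1 - 2 * s) * n) := by
          rw [← Real.rpow_add hA0, ← Real.rpow_add hA0]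
          congr 1
          rw [hnD]
          ring
  have h4 : (4 * (n : ℝ)) ^ n = 2 ^ n * (2 * (n : ℝ)) ^ n := by
    rw [← mul_pow]
    congr 1
    ring
  have h5 : (0 : ℝ) < (2 * (n : ℝ)) ^ n := by positivity
  rw [h1'] at h1
  calc ((n : ℝ) + 1) * B * 2 ^ n * A ^ (n - e)
      = B * (((n : ℝ) + 1) * (4 * (n : ℝ)) ^ n * A ^ ((n : ℝ) - e)) / (2 * (n : ℝ)) ^ n := by
        rw [h4, h2]
        field_simp
    _ ≤ B * (A ^ (-(e : ℝ) + 5 * ((D : ℝ) + 1) * s) * A ^ ((1 - 2 * s) * n)) /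
          (2 * (n : ℝ)) ^ n := by
        gcongr
    _ = B * A ^ (-(e : ℝ) + 5 * ((D : ℝ) + 1) * s) *
          (A ^ ((1 - 2 * s) * n) / (2 * (n : ℝ)) ^ n) := by ring
    _ ≤ B * A ^ (-(e : ℝ) + 5 * ((D : ℝ) + 1) * s) * m ^ n := by
        gcongr

end FIN2aux

open FIN2aux in
theorem m_FIN2 : UHI.Stmt_SPR → Stmt_LAGE → Stmt_FIN2 := by
  intro hSPR hLAGE D C0 s hD2 hC hs hs1
  obtain ⟨n, hn⟩ : ∃ n, n = 2 * D + 2 := ⟨_, rfl⟩
  have hnD : (n : ℝ) = 2 * (D : ℝ) + 2 := by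
    rw [hn]
    push_cast
    ring
  have hn6 : (6 : ℝ) ≤ n := by
    have : (2 : ℝ) ≤ D := by exact_mod_cast hD2
    rw [hnD]
    linarith
  obtain ⟨N0, hN0⟩ : ∃ N0 : ℝ, N0 = ((n : ℝ) + 1) * (4 * (n : ℝ)) ^ n := ⟨_, rfl⟩
  have hN0pos : 0 < N0 := by
    rw [hN0]
    positivity
  refine ⟨max ((2 * (n : ℝ)) ^ 2) (max 1 (N0 ^ (1 / (((D : ℝ) + 1) * s)))),
    le_max_of_le_right (le_max_left _ _), ?_⟩
  intro A θ ρ τ X ε S j p hA hD hcard d J P hd hdA hJ hP hSJP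
  have hA1 : (2 * (n : ℝ)) ^ 2 ≤ A := (le_max_left _ _).trans hA
  have hA1' : 1 ≤ A := ((le_max_left _ _).trans (le_max_right _ _)).trans hA
  have hA2 : N0 ^ (1 / (((D : ℝ) + 1) * s)) ≤ A :=
    ((le_max_right _ _).trans (le_max_right _ _)).trans hA
  have hA0 : 0 < A := by linarith
  have hbig : N0 ≤ A ^ (((D : ℝ) + 1) * s) := by
    calc N0 = (N0 ^ (1 / (((D : ℝ) + 1) * s))) ^ (((D : ℝ) + 1) * s) := by
          rw [← Real.rpow_mul hN0pos.le, one_div_mul_cancel (by positivity), Real.rpow_one]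
      _ ≤ A ^ (((D : ℝ) + 1) * s) :=
          Real.rpow_le_rpow (by positivity) hA2 (by positivity)
  have hhalf : 2 * (n : ℝ) ≤ A ^ (1 / 2 : ℝ) := by
    calc 2 * (n : ℝ) = ((2 * (n : ℝ)) ^ 2) ^ (1 / 2 : ℝ) := by
          rw [← Real.sqrt_eq_rpow, Real.sqrt_sq (by positivity)]
      _ ≤ _ := Real.rpow_le_rpow (by positivity) hA1 (by norm_num)
  have h1s : 2 * (n : ℝ) ≤ A ^ (1 - 2 * s) :=
    hhalf.trans (Real.rpow_le_rpow_of_exponent_le hA1' (by linarith))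
  -- the points
  have hSc : 2 * (n : ℝ) ≤ S.card := h1s.trans hcard
  have hSc' : 2 * n ≤ S.card := by exact_mod_cast hSc
  have hn0 : 0 < n := by omega
  obtain ⟨m0, hm0⟩ : ∃ m0, m0 = (S.card - 1) / n := ⟨_, rfl⟩
  have hdm : n * m0 + (S.card - 1) % n = S.card - 1 := by
    rw [hm0]
    exact Nat.div_add_mod _ _
  have hml : (S.card - 1) % n < n := Nat.mod_lt _ hn0
  have hm0a : n * m0 + 1 ≤ S.card := by omega
  have hm0b : S.card ≤ n * m0 + n := by omega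
  obtain ⟨a, ha1, ha2⟩ := hSPR n m0 S hm0a
  have hm : A ^ (1 - 2 * s) / (2 * (n : ℝ)) ≤ (m0 : ℝ) := by
    have h1 : (S.card : ℝ) ≤ n * m0 + n := by exact_mod_cast hm0b
    rw [div_le_iff₀ (by positivity)]
    nlinarith
  have hmpos : (0 : ℝ) < m0 := lt_of_lt_of_le (by positivity) hm
  have hsp : ∀ i < n, (a i : ℝ) + (m0 : ℝ) ≤ (a (i + 1) : ℝ) := by
    intro i hi
    exact_mod_cast ha2 i hi
  have haA : ∀ i ≤ n, |(a i : ℝ)| ≤ A := by
    intro i hi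
    obtain ⟨h1, h2⟩ := hD.hS _ (ha1 i hi)
    rw [abs_of_nonneg (by linarith)]
    exact h2
  -- the degree of `J`
  have hJ0 : J ≠ 0 := by
    rintro rfl
    have h1 := (hSJP _ (ha1 0 (Nat.zero_le _))).1
    have h2 := hD.hj1 _ (ha1 0 (Nat.zero_le _))
    rw [eval_zero] at h1
    rcases mul_eq_zero.1 h1 with h | h
    · exact hd h
    · omega
  obtain ⟨e, he⟩ : ∃ e, e = J.natDegree := ⟨_, rfl⟩
  have hen : e ≤ 2 * D + 1 := he ▸ hJ
  have hJe : J.coeff e ≠ 0 := by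
    rw [he]
    exact leadingCoeff_ne_zero.2 hJ0
  have hJe1 : J.coeff (e + 1) = 0 := coeff_eq_zero_of_natDegree_lt (by omega)
  set φ := Int.castRingHom ℝ with hφ
  have evJ : ∀ b : ℤ, (J.map φ).eval (b : ℝ) = ((J.eval b : ℤ) : ℝ) := by
    intro b
    rw [eval_map, show (b : ℝ) = φ b from rfl, eval₂_at_apply]
    rfl
  have evP : ∀ b : ℤ, (P.map φ).eval (b : ℝ) = ((P.eval b : ℤ) : ℝ) := by
    intro b
    rw [eval_map, show (b : ℝ) = φ b from rfl, eval₂_at_apply]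
    rfl
  have hX0 : 0 < X := lt_of_lt_of_le one_pos hD.hX1
  have hε0 : 0 < ε := lt_of_lt_of_le (Real.rpow_pos_of_pos hA0 _) hD.hεA
  have hdpos : 0 < |(d : ℝ)| := abs_pos.2 (by exact_mod_cast hd)
  have hbJ : ∀ i ≤ n, |(J.map φ).eval (a i : ℝ)| ≤ |(d : ℝ)| * X := by
    intro i hi
    have haS := ha1 i hi
    rw [evJ, ← (hSJP _ haS).1]
    push_cast
    rw [abs_mul]
    have hj1 : (0 : ℝ) ≤ j (a i) := by
      have := hD.hj1 _ haS
      exact_mod_cast (by omega : (0 : ℤ) ≤ j (a i))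
    rw [abs_of_nonneg hj1]
    exact mul_le_mul_of_nonneg_left (hD.hjX _ haS) hdpos.le
  set H : ℝ[X] := P.map φ + C ((d : ℝ) * τ) - (C θ * Polynomial.X + C ρ) * J.map φ with hH
  have hbH : ∀ i ≤ n, |H.eval (a i : ℝ)| ≤ |(d : ℝ)| * ε := by
    intro i hi
    have haS := ha1 i hi
    have h1 : H.eval (a i : ℝ) = d * ((p (a i) : ℝ) + τ - j (a i) * (θ * a i + ρ)) := by
      rw [hH, eval_sub, eval_mul, eval_add, evP, evJ, ← (hSJP _ haS).1, ← (hSJP _ haS).2]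
      simp only [eval_add, eval_mul, eval_C, eval_X]
      push_cast
      ring
    rw [h1, abs_mul]
    exact mul_le_mul_of_nonneg_left (hD.hap _ haS) hdpos.le
  have hHc : ∀ k, H.coeff (k + 1) = (P.coeff (k + 1) : ℝ) - (θ * J.coeff k + ρ * J.coeff (k + 1)) := by
    intro k
    rw [hH, coeff_sub, coeff_add, add_mul, coeff_add, mul_assoc, coeff_C_mul, coeff_C_mul,
      coeff_X_mul, coeff_map, coeff_map, coeff_map, coeff_C_succ, add_zero]
    rfl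
  have hHn : H.natDegree ≤ n := by
    rw [natDegree_le_iff_coeff_eq_zero]
    intro k hk
    obtain ⟨k', rfl⟩ : ∃ k', k = k' + 1 := ⟨k - 1, by omega⟩
    rw [hHc, coeff_eq_zero_of_natDegree_lt (p := J) (n := k') (by omega),
      coeff_eq_zero_of_natDegree_lt (p := J) (n := k' + 1) (by omega),
      coeff_eq_zero_of_natDegree_lt (p := P) (by omega)]
    simp
  have hexp : 28 * ((D : ℝ) + 1) ^ 2 * s + 5 * ((D : ℝ) + 1) * s ≤ Kd D * s := by
    unfold Kd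
    have h1 : (1 : ℝ) ≤ (D : ℝ) + 1 := by
      have : (0 : ℝ) ≤ D := Nat.cast_nonneg D
      linarith
    have h2 : 28 * ((D : ℝ) + 1) ^ 2 + 5 * ((D : ℝ) + 1) ≤ 50 * ((D : ℝ) + 1) ^ 2 := by nlinarith
    calc _ = (28 * ((D : ℝ) + 1) ^ 2 + 5 * ((D : ℝ) + 1)) * s := by ring
      _ ≤ _ := mul_le_mul_of_nonneg_right h2 hs.le
  -- coefficient bounds
  have hcJ : |(J.coeff e : ℝ)| ≤ X * A ^ (Kd D * s) := by
    have h1 := hLAGE n e (J.map φ) (|(d : ℝ)| * X) m0 A a (natDegree_map_le.trans (by omega))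
      (by omega) hmpos hsp hbJ haA
    rw [coeff_map] at h1
    rw [hn] at h1
    have h2 := loss (D := D) (e := e) (m := (m0 : ℝ)) (B := |(d : ℝ)| * X) hA1' (by omega)
      (by rw [← hn]; exact hm) (by rw [← hn, ← hN0]; exact hbig) (by positivity)
    have h3 : |(J.coeff e : ℝ)| ≤ |(d : ℝ)| * X * A ^ (-(e : ℝ) + 5 * ((D : ℝ) + 1) * s) :=
      h1.trans h2
    have he0 : (0 : ℝ) ≤ e := Nat.cast_nonneg e
    calc |(J.coeff e : ℝ)| ≤ |(d : ℝ)| * X * A ^ (-(e : ℝ) + 5 * ((D : ℝ) + 1) * s) := h3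
      _ ≤ A ^ (28 * ((D : ℝ) + 1) ^ 2 * s) * X * A ^ (-(e : ℝ) + 5 * ((D : ℝ) + 1) * s) := by
          gcongr
      _ = X * (A ^ (28 * ((D : ℝ) + 1) ^ 2 * s) * A ^ (-(e : ℝ) + 5 * ((D : ℝ) + 1) * s)) := by
          ring
      _ ≤ X * A ^ (Kd D * s) := by
          rw [← Real.rpow_add hA0]
          refine mul_le_mul_of_nonneg_left ?_ hX0.le
          exact Real.rpow_le_rpow_of_exponent_le hA1' (by linarith)
  have hcH : |(P.coeff (e + 1) : ℝ) - J.coeff e * θ| ≤ ε * A ^ (-1 + Kd D * s) := by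
    have h1 := hLAGE n (e + 1) H (|(d : ℝ)| * ε) m0 A a hHn (by omega) hmpos hsp hbH haA
    rw [hHc, hJe1] at h1
    rw [hn] at h1
    have h2 := loss (D := D) (e := e + 1) (m := (m0 : ℝ)) (B := |(d : ℝ)| * ε) hA1' (by omega)
      (by rw [← hn]; exact hm) (by rw [← hn, ← hN0]; exact hbig) (by positivity)
    have h3 := h1.trans h2
    have e1 : (P.coeff (e + 1) : ℝ) - (θ * J.coeff e + ρ * ((0 : ℤ) : ℝ)) =
        (P.coeff (e + 1) : ℝ) - J.coeff e * θ := by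
      push_cast
      ring
    rw [e1] at h3
    have he0 : (0 : ℝ) ≤ e := Nat.cast_nonneg e
    calc |(P.coeff (e + 1) : ℝ) - J.coeff e * θ|
        ≤ |(d : ℝ)| * ε * A ^ (-((e + 1 : ℕ) : ℝ) + 5 * ((D : ℝ) + 1) * s) := h3
      _ ≤ A ^ (28 * ((D : ℝ) + 1) ^ 2 * s) * ε *
            A ^ (-((e + 1 : ℕ) : ℝ) + 5 * ((D : ℝ) + 1) * s) := by
          gcongr
      _ = ε * (A ^ (28 * ((D : ℝ) + 1) ^ 2 * s) *
            A ^ (-((e + 1 : ℕ) : ℝ) + 5 * ((D : ℝ) + 1) * s)) := by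
          ring
      _ ≤ ε * A ^ (-1 + Kd D * s) := by
          rw [← Real.rpow_add hA0]
          refine mul_le_mul_of_nonneg_left ?_ hε0.le
          refine Real.rpow_le_rpow_of_exponent_le hA1' ?_
          push_cast
          linarith
  -- conclusion
  rcases lt_or_gt_of_ne hJe with hneg | hpos
  · refine ⟨-J.coeff e, -P.coeff (e + 1), by omega, ?_, ?_⟩
    · have h1 : ((-J.coeff e : ℤ) : ℝ) = |(J.coeff e : ℝ)| := by
        have : (J.coeff e : ℝ) < 0 := by exact_mod_cast hneg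
        rw [abs_of_neg this]
        push_cast
        ring
      rw [h1]
      exact hcJ
    · have h1 : ((-P.coeff (e + 1) : ℤ) : ℝ) - ((-J.coeff e : ℤ) : ℝ) * θ =
          -((P.coeff (e + 1) : ℝ) - J.coeff e * θ) := by
        push_cast
        ring
      rw [h1, abs_neg]
      exact hcH
  · refine ⟨J.coeff e, P.coeff (e + 1), by omega, ?_, hcH⟩
    exact (le_abs_self _).trans hcJ

end Pool.Agent.UHJ
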