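import Pool.Agent.UHJ.Stmts

/-!
# INITA: two independent triples on a short interval
-/

namespace Pool.Agent.UHJ

open Polynomial Pool.Agent.UHI

namespace INITAaux

lemma large (e c : ℝ) (he : 0 < e) : ∃ A0 : ℝ, 1 ≤ A0 ∧ ∀ A : ℝ, A0 ≤ A → c ≤ A ^ e := by
  have h := (tendsto_rpow_atTop he).eventually_ge_atTop c
  obtain ⟨A1, hA1⟩ := Filter.eventually_atTop.1 h
  exact ⟨max 1 A1, le_max_left _ _, fun A hA => hA1 A ((le_max_right _ _).trans hA)⟩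

lemma natDegree_le_of_mul {h F F0 : ℤ[X]} {n : ℕ} (hh : h ≠ 0) (he : F0 = h * F)
    (hd : F0.natDegree ≤ n) : F.natDegree ≤ n := by
  by_cases hF : F = 0
  · rw [hF]; simp
  · rw [he, natDegree_mul hh hF] at hd
    omega

/-- the exact relation at a point -/
lemma rel {X ε f τ : ℝ} (hX : 1 ≤ X) (hε : 0 < ε) (u v w j p : ℤ) (hj1 : 1 ≤ j) (hjX : (j : ℝ) ≤ X)
    (hap : |(p : ℝ) + τ - j * f| ≤ ε) (hu : |(u : ℝ)| ≤ 1 / (8 * ε))
    (hv : |(v : ℝ) + f * (u : ℝ)| ≤ 1 / (8 * X)) (hw : |(w : ℝ) - τ * (u : ℝ)| ≤ 1 / 8) :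
    u * p + v * j + w = 0 := by
  have hX0 : 0 < X := by linarith
  have hj1' : (1 : ℝ) ≤ j := by exact_mod_cast hj1
  have e : (u : ℝ) * p + v * j + w = j * ((v : ℝ) + f * u) + ((w : ℝ) - τ * u)
      + u * ((p : ℝ) + τ - j * f) := by ring
  have c1 : |(j : ℝ) * ((v : ℝ) + f * u)| ≤ 1 / 8 := by
    rw [abs_mul, abs_of_pos (by linarith)]
    calc (j : ℝ) * |(v : ℝ) + f * u| ≤ X * (1 / (8 * X)) :=
          mul_le_mul hjX hv (abs_nonneg _) hX0.le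
      _ = 1 / 8 := by field_simp
  have c2 : |(u : ℝ) * ((p : ℝ) + τ - j * f)| ≤ 1 / 8 := by
    rw [abs_mul]
    calc |(u : ℝ)| * |(p : ℝ) + τ - j * f| ≤ 1 / (8 * ε) * ε :=
          mul_le_mul hu hap (abs_nonneg _) (by positivity)
      _ = 1 / 8 := by field_simp
  have h1 : |(u : ℝ) * p + v * j + w| < 1 := by
    rw [e]
    have := (abs_add_le (j * ((v : ℝ) + f * u) + ((w : ℝ) - τ * u)) (u * ((p : ℝ) + τ - j * f))).trans
      (add_le_add (abs_add_le _ _) le_rfl)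
    linarith
  have h2 : |u * p + v * j + w| < 1 := by
    have : |((u * p + v * j + w : ℤ) : ℝ)| < 1 := by push_cast; exact h1
    exact_mod_cast this
  exact Int.abs_lt_one_iff.1 h2

end INITAaux

open INITAaux in
theorem m_INITA : Stmt_SIEGT → Stmt_TPRIM → Stmt_RK1 → Stmt_INITA := by
  intro hSIEGT hTPRIM hRK1 D C s hD hC hs hs'
  set c1 : ℝ := (16 * ((D : ℝ) + 2)) ^ 4 * 2 ^ (2 * (D + 1)) with hc1
  have hc1p : 0 < c1 := by positivity
  obtain ⟨A1, hA1, hl1⟩ := large (1 / 4) (4 * c1) (by norm_num)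
  obtain ⟨A2, hA2, hl2⟩ := large s (c1 + (2 * D + 1)) hs
  refine ⟨max A1 A2, hA1.trans (le_max_left _ _), ?_⟩
  intro A θ ρ τ X ε S j p hA DD v l hlo hhi hcut
  have q1 := hl1 A ((le_max_left _ _).trans hA)
  have q2 := hl2 A ((le_max_right _ _).trans hA)
  have hAge1 : 1 ≤ A := hA1.trans ((le_max_left _ _).trans hA)
  have hA0 : 0 < A := by linarith
  have hX1 := DD.hX1
  have hX0 : 0 < X := by linarith
  have hε : 0 < ε := lt_of_lt_of_le (Real.rpow_pos_of_pos hA0 _) DD.hεA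
  have hDR : (2 : ℝ) ≤ D := by exact_mod_cast hD
  have hTS : ∀ a ∈ cut S v l, a ∈ S ∧ v ≤ (a : ℝ) ∧ (a : ℝ) ≤ v + l := by
    intro a ha
    unfold cut at ha
    rw [Finset.mem_filter] at ha
    exact ha
  have hl0 : 0 < l := lt_of_lt_of_le (by positivity) hlo
  set a0 : ℤ := ⌊v⌋ with ha0
  have hf1 : (a0 : ℝ) ≤ v := Int.floor_le v
  have hf2 : v < a0 + 1 := Int.lt_floor_add_one v
  set L : ℝ := l + 1 with hL
  have hL1 : 1 ≤ L := by linarith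
  have hL2 : L ≤ 2 * A ^ (7 * s) := by
    have : 1 ≤ A ^ (7 * s) := Real.one_le_rpow hAge1 (by positivity)
    linarith
  -- the size of `Q`
  set Q : ℝ := (16 * ((D : ℝ) + 2)) ^ 4 * L ^ (2 * (D + 1)) with hQ
  have hQ0 : 0 < Q := by positivity
  have hQle : Q ≤ c1 * A ^ (14 * ((D : ℝ) + 1) * s) := by
    have h1 : L ^ (2 * (D + 1)) ≤ (2 * A ^ (7 * s)) ^ (2 * (D + 1)) :=
      pow_le_pow_left₀ (by linarith) hL2 _
    have h2 : (2 * A ^ (7 * s)) ^ (2 * (D + 1)) = 2 ^ (2 * (D + 1)) * A ^ (14 * ((D : ℝ) + 1) * s) := by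
      rw [mul_pow, ← Real.rpow_natCast (A ^ (7 * s)) (2 * (D + 1)), ← Real.rpow_mul hA0.le]
      congr 2
      push_cast
      ring
    calc Q ≤ (16 * ((D : ℝ) + 2)) ^ 4 * (2 ^ (2 * (D + 1)) * A ^ (14 * ((D : ℝ) + 1) * s)) := by
          rw [hQ, ← h2]
          exact mul_le_mul_of_nonneg_left h1 (by positivity)
      _ = c1 * A ^ (14 * ((D : ℝ) + 1) * s) := by rw [hc1]; ring
  have hKd : Kd D = 50 * ((D : ℝ) + 1) ^ 2 := rfl
  have hQK : Q / 2 ≤ A ^ (Kd D * s) := by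
    have h1 : c1 ≤ A ^ s := by
      have : (0 : ℝ) ≤ 2 * D + 1 := by positivity
      linarith
    have h2 : A ^ s * A ^ (14 * ((D : ℝ) + 1) * s) ≤ A ^ (Kd D * s) := by
      rw [← Real.rpow_add hA0]
      apply Real.rpow_le_rpow_of_exponent_le hAge1
      rw [hKd]
      have : 1 + 14 * ((D : ℝ) + 1) ≤ 50 * ((D : ℝ) + 1) ^ 2 := by nlinarith
      nlinarith
    have h3 : c1 * A ^ (14 * ((D : ℝ) + 1) * s) ≤ A ^ s * A ^ (14 * ((D : ℝ) + 1) * s) :=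
      mul_le_mul_of_nonneg_right h1 (by positivity)
    linarith
  set x1 : ℝ := X ^ (1 + 1 / ((D : ℝ) + 1)) with hx1
  have hx1p : 0 < x1 := by positivity
  have hx1e : x1 = X * X ^ (1 / ((D : ℝ) + 1)) := by
    rw [hx1, Real.rpow_add hX0, Real.rpow_one]
  have hεx : ε * x1 * Q ≤ 1 / 4 := by
    have h1 : x1 ≤ X ^ (4 / 3 + 3 / ((D : ℝ) + 1)) := by
      apply Real.rpow_le_rpow_of_exponent_le hX1
      have : 1 / ((D : ℝ) + 1) ≤ 3 / ((D : ℝ) + 1) :=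
        div_le_div_of_nonneg_right (by norm_num) (by positivity)
      linarith
    have h2 : ε * x1 * A ^ (1 / 4 + 3 * Kd D * s) ≤ 1 := by
      refine le_trans ?_ DD.hH
      apply mul_le_mul_of_nonneg_right _ (by positivity)
      exact mul_le_mul_of_nonneg_left h1 hε.le
    have h3 : 4 * Q ≤ A ^ (1 / 4 + 3 * Kd D * s) := by
      have h4 : A ^ (14 * ((D : ℝ) + 1) * s) ≤ A ^ (3 * Kd D * s) := by
        apply Real.rpow_le_rpow_of_exponent_le hAge1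
        rw [hKd]
        have : 14 * ((D : ℝ) + 1) ≤ 3 * (50 * ((D : ℝ) + 1) ^ 2) := by nlinarith
        exact mul_le_mul_of_nonneg_right this hs.le
      calc 4 * Q ≤ 4 * (c1 * A ^ (14 * ((D : ℝ) + 1) * s)) := by linarith
        _ = (4 * c1) * A ^ (14 * ((D : ℝ) + 1) * s) := by ring
        _ ≤ A ^ (1 / 4 : ℝ) * A ^ (3 * Kd D * s) :=
            mul_le_mul q1 h4 (by positivity) (by positivity)
        _ = A ^ (1 / 4 + 3 * Kd D * s) := by rw [← Real.rpow_add hA0]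
    have h5 : ε * x1 * (4 * Q) ≤ ε * x1 * A ^ (1 / 4 + 3 * Kd D * s) :=
      mul_le_mul_of_nonneg_left h3 (by positivity)
    linarith
  obtain ⟨F, hFc, hFi, hF⟩ := hSIEGT D X L θ ρ τ ε a0 hX1 hL1 hε
  set M0 : ℝ := 1 / (ε * X ^ (1 + 1 / ((D : ℝ) + 1)) * (16 * ((D : ℝ) + 2)) ^ 4 * L ^ (2 * (D + 1)))
    with hM0
  have hM0e : M0 = 1 / (ε * x1 * Q) := by
    rw [hM0, hQ, hx1]
    congr 1
    ring
  have hεQ : 0 < ε * x1 * Q := by positivity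
  have hM04 : 4 ≤ M0 := by
    rw [hM0e, le_div_iff₀ hεQ]
    linarith
  -- the points
  have hpt : ∀ t ∈ F, ∀ a ∈ cut S v l,
      |((t.1.eval a : ℤ) : ℝ)| ≤ 1 / (8 * ε) ∧
      |((t.2.1.eval a : ℤ) : ℝ) + (θ * a + ρ) * ((t.1.eval a : ℤ) : ℝ)| ≤ 1 / (8 * X) ∧
      |((t.2.2.eval a : ℤ) : ℝ) - τ * ((t.1.eval a : ℤ) : ℝ)| ≤ 1 / 8 := by
    intro t ht a ha
    obtain ⟨-, hv1, hv2⟩ := hTS a ha
    exact (hF t ht).2.2.2 a (by linarith) (by rw [hL]; linarith)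
  have hinv : 1 / (8 * ε) ≤ A ^ C / 8 := by
    have h1 : 1 ≤ A ^ C * ε := by
      have : A ^ C * A ^ (-C) ≤ A ^ C * ε :=
        mul_le_mul_of_nonneg_left DD.hεA (by positivity)
      rwa [← Real.rpow_add hA0, add_neg_cancel, Real.rpow_zero] at this
    rw [div_le_div_iff₀ (by positivity) (by norm_num)]
    linarith
  have hval : ∀ t ∈ F, ∀ a ∈ cut S v l,
      t.1.eval a * p a + t.2.1.eval a * j a + t.2.2.eval a = 0 ∧
        |((t.1.eval a : ℤ) : ℝ)| ≤ A ^ (C + 1) ∧ |((t.2.1.eval a : ℤ) : ℝ)| ≤ A ^ (C + 1) ∧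
        |((t.2.2.eval a : ℤ) : ℝ)| ≤ A ^ (C + 1) := by
    intro t ht a ha
    obtain ⟨haS, -, -⟩ := hTS a ha
    obtain ⟨b1, b2, b3⟩ := hpt t ht a ha
    obtain ⟨s1, s2⟩ := DD.hS a haS
    have a0' : 0 ≤ (a : ℝ) := by linarith
    have hAC : 1 ≤ A ^ C := Real.one_le_rpow hAge1 (by linarith)
    have hACA : A ^ (C + 1) = A ^ C * A := by rw [Real.rpow_add hA0, Real.rpow_one]
    have hle : A ^ C ≤ A ^ C * A := by nlinarith
    have f0 : 0 ≤ θ * (a : ℝ) + ρ := add_nonneg (mul_nonneg DD.hθ0 a0') DD.hρ0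
    have f1 : θ * (a : ℝ) + ρ ≤ 2 * A := by
      have : θ * (a : ℝ) ≤ 1 * A := mul_le_mul DD.hθ1 s2 a0' (by norm_num)
      linarith [DD.hρ1]
    have u1 : |((t.1.eval a : ℤ) : ℝ)| ≤ A ^ C / 8 := b1.trans hinv
    refine ⟨rel hX1 hε _ _ _ _ _ (DD.hj1 a haS) (DD.hjX a haS) (DD.hap a haS) b1 b2 b3, ?_, ?_, ?_⟩
    · rw [hACA]; linarith
    · rw [hACA]
      have e : ((t.2.1.eval a : ℤ) : ℝ) = (((t.2.1.eval a : ℤ) : ℝ)
          + (θ * a + ρ) * ((t.1.eval a : ℤ) : ℝ)) - (θ * a + ρ) * ((t.1.eval a : ℤ) : ℝ) := by ring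
      rw [e]
      have c2 : |(θ * (a : ℝ) + ρ) * ((t.1.eval a : ℤ) : ℝ)| ≤ 2 * A * (A ^ C / 8) := by
        rw [abs_mul, abs_of_nonneg f0]
        exact mul_le_mul f1 u1 (abs_nonneg _) (by positivity)
      have c3 : 1 / (8 * X) ≤ 1 / 8 := by
        apply one_div_le_one_div_of_le (by norm_num); linarith
      have c4 := abs_sub (((t.2.1.eval a : ℤ) : ℝ) + (θ * a + ρ) * ((t.1.eval a : ℤ) : ℝ))
        ((θ * a + ρ) * ((t.1.eval a : ℤ) : ℝ))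
      nlinarith
    · rw [hACA]
      have e : ((t.2.2.eval a : ℤ) : ℝ) = (((t.2.2.eval a : ℤ) : ℝ)
          - τ * ((t.1.eval a : ℤ) : ℝ)) + τ * ((t.1.eval a : ℤ) : ℝ) := by ring
      rw [e]
      have c2 : |τ * ((t.1.eval a : ℤ) : ℝ)| ≤ 1 * (A ^ C / 8) := by
        rw [abs_mul, abs_of_nonneg DD.hτ0]
        exact mul_le_mul DD.hτ1 u1 (abs_nonneg _) (by norm_num)
      have c4 := abs_add_le (((t.2.2.eval a : ℤ) : ℝ) - τ * ((t.1.eval a : ℤ) : ℝ))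
        (τ * ((t.1.eval a : ℤ) : ℝ))
      linarith
  -- a triple with nonzero first component
  have hcard1 : 1 < F.card := by
    have h1 : (1 : ℝ) < M0 ^ (D + 1) := one_lt_pow₀ (by linarith) (by omega)
    have h2 : (1 : ℝ) < F.card := lt_of_lt_of_le h1 hFc
    exact_mod_cast h2
  obtain ⟨t1, ht1, hU⟩ : ∃ t ∈ F, t.1 ≠ 0 := by
    obtain ⟨x, hx, y, hy, hxy⟩ := Finset.one_lt_card.1 hcard1
    by_cases h0 : x.1 = 0
    · refine ⟨y, hy, fun h1 => hxy (hFi hx hy ?_)⟩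
      rw [h0, h1]
    · exact ⟨x, hx, h0⟩
  by_cases hex : ∃ t ∈ F, ¬ (t.1 * t1.2.1 = t1.1 * t.2.1 ∧ t.1 * t1.2.2 = t1.1 * t.2.2)
  · obtain ⟨t, ht, hne⟩ := hex
    exact ⟨t1.1, t1.2.1, t1.2.2, t.1, t.2.1, t.2.2,
      ⟨(hF t1 ht1).1, (hF t1 ht1).2.1, (hF t1 ht1).2.2.1⟩,
      ⟨(hF t ht).1, (hF t ht).2.1, (hF t ht).2.2.1⟩, hne, hval t1 ht1, hval t ht⟩
  · exfalso
    push Not at hex
    obtain ⟨h, U0, V0, W0, hh, eU, eV, eW, hP⟩ := hTPRIM t1.1 t1.2.1 t1.2.2 hU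
    have hmul : ∀ t ∈ F, ∃ c : ℤ[X], t.1 = c * U0 ∧ t.2.1 = c * V0 := by
      intro t ht
      obtain ⟨r1, r2⟩ := hex t ht
      have r1' : t.1 * V0 = U0 * t.2.1 := by
        apply mul_left_cancel₀ hh
        rw [eV, eU] at r1
        linear_combination r1
      have r2' : t.1 * W0 = U0 * t.2.2 := by
        apply mul_left_cancel₀ hh
        rw [eW, eU] at r2
        linear_combination r2
      obtain ⟨c, k1, k2, -⟩ := hP.mult t.1 t.2.1 t.2.2 r1' r2'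
      exact ⟨c, k1, k2⟩
    have hU0 : U0 ≠ 0 := by
      intro h0
      rw [h0, mul_zero] at eU
      exact hU eU
    have dU0 : U0.natDegree ≤ D := natDegree_le_of_mul hh eU (hF t1 ht1).1
    have hTc : 2 * D + 1 ≤ (cut S v l).card := by
      have h1 : (2 * D + 1 : ℝ) ≤ (cut S v l).card := by
        have h2 : A ^ (-(2 * s)) * A ^ (5 * s) ≤ A ^ (-(2 * s)) * l :=
          mul_le_mul_of_nonneg_left hlo (by positivity)
        have h3 : A ^ s ≤ A ^ (-(2 * s)) * A ^ (5 * s) := by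
          rw [← Real.rpow_add hA0]
          exact Real.rpow_le_rpow_of_exponent_le hAge1 (by linarith)
        linarith
      exact_mod_cast h1
    obtain ⟨a, ha, u, w, hu1, hu2, hw⟩ := hRK1 D (M0 / 4) (1 / (8 * ε)) (1 / (8 * X)) F U0 V0
      (cut S v l) (fun a => θ * a + ρ) hFi hU0 dU0 (by linarith)
      (lt_of_lt_of_le (pow_lt_pow_left₀ (by linarith) (by linarith) (by omega)) hFc)
      (fun t ht => (hF t ht).1) hmul hTc (fun a ha t ht => ⟨(hpt t ht a ha).1, (hpt t ht a ha).2.1⟩)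
    have k1 : 1 / (8 * ε) / (M0 / 4) = x1 * (Q / 2) := by
      rw [hM0e]
      field_simp
      norm_num
    have k2 : 1 / (8 * X) / (M0 / 4) = X ^ (1 / ((D : ℝ) + 1)) * ε * (Q / 2) := by
      rw [hM0e, hx1e]
      field_simp
      norm_num
    rw [k1] at hu2
    rw [k2] at hw
    have g1 : (u : ℝ) ≤ x1 * A ^ (Kd D * s) :=
      hu2.trans (mul_le_mul_of_nonneg_left hQK hx1p.le)
    have g2 := DD.hno a (hTS a ha).1 u w hu1 g1
    have g3 : X ^ (1 / ((D : ℝ) + 1)) * ε * (Q / 2) ≤ X ^ (1 / ((D : ℝ) + 1)) * ε * A ^ (Kd D * s) :=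
      mul_le_mul_of_nonneg_left hQK (by positivity)
    exact absurd (lt_of_lt_of_le g2 (hw.trans g3)) (lt_irrefl _)

end Pool.Agent.UHJ
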