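import Pool.Agent.UHJ.Stmts

/-!
# INITB: polynomials with a constant denominator
-/

namespace Pool.Agent.UHJ

open Polynomial Pool.Agent.UHI

namespace INITBaux

lemma large (e c : ℝ) (he : 0 < e) : ∃ A0 : ℝ, 1 ≤ A0 ∧ ∀ A : ℝ, A0 ≤ A → c ≤ A ^ e := by
  have h := (tendsto_rpow_atTop he).eventually_ge_atTop c
  obtain ⟨A1, hA1⟩ := Filter.eventually_atTop.1 h
  exact ⟨max 1 A1, le_max_left _ _, fun A hA => hA1 A ((le_max_right _ _).trans hA)⟩

lemma mem_cut {S : Finset ℤ} {u L : ℝ} {a : ℤ} :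
    a ∈ cut S u L ↔ a ∈ S ∧ u ≤ (a : ℝ) ∧ (a : ℝ) ≤ u + L := by
  simp [cut]

/-- few zeros -/
lemma card_zero {h : ℤ[X]} {n : ℕ} (hh : h ≠ 0) (hd : h.natDegree ≤ n) (T : Finset ℤ) :
    T.card ≤ (T.filter (fun a => h.eval a ≠ 0)).card + n := by
  classical
  have h1 : (T.filter (fun a => ¬ h.eval a ≠ 0)).card ≤ n := by
    have h2 : T.filter (fun a => ¬ h.eval a ≠ 0) ⊆ h.roots.toFinset := by
      intro a ha
      rw [Finset.mem_filter, not_not] at ha
      rw [Multiset.mem_toFinset, mem_roots hh]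
      exact ha.2
    exact (Finset.card_le_card h2).trans
      ((Multiset.toFinset_card_le _).trans ((card_roots' h).trans hd))
  have h3 := Finset.card_filter_add_card_filter_not (s := T) (fun a => h.eval a ≠ 0)
  omega

/-- size of a determinant -/
lemma det_bound {x y z w B : ℝ} (hB : 0 ≤ B) (hx : |x| ≤ B) (hy : |y| ≤ B) (hz : |z| ≤ B)
    (hw : |w| ≤ B) : |x * y - z * w| ≤ 2 * (B * B) := by
  have h1 : |x * y| ≤ B * B := by
    rw [abs_mul]; exact mul_le_mul hx hy (abs_nonneg _) hB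
  have h2 : |z * w| ≤ B * B := by
    rw [abs_mul]; exact mul_le_mul hz hw (abs_nonneg _) hB
  have h3 := abs_sub (x * y) (z * w)
  linarith

/-- division by a nonzero integer -/
lemma div_bound {h F N : ℤ} {B : ℝ} (hh : h ≠ 0) (he : h * F = N) (hN : |(N : ℝ)| ≤ B) :
    |(F : ℝ)| ≤ B := by
  have h1 : (1 : ℝ) ≤ |(h : ℝ)| := by
    have h2 : (1 : ℤ) ≤ |h| := Int.one_le_abs hh
    calc (1 : ℝ) ≤ ((|h| : ℤ) : ℝ) := by exact_mod_cast h2
      _ = |(h : ℝ)| := by push_cast; rfl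
  have h2 : (h : ℝ) * F = N := by exact_mod_cast he
  rw [← h2, abs_mul] at hN
  have h3 := mul_le_mul_of_nonneg_right h1 (abs_nonneg (F : ℝ))
  linarith

end INITBaux

open INITBaux in
theorem m_INITB : Stmt_RK2 → Stmt_COEF → Stmt_DCON → Stmt_D0B → Stmt_INITB := by
  intro hRK2 hCOEF hDCON hD0B D C s hD hC hs hs'
  classical
  have hD0 : (0 : ℝ) ≤ (D : ℝ) := Nat.cast_nonneg D
  have hC' : (0 : ℝ) < 2 * C + 2 * D + 4 := by linarith
  obtain ⟨A1, hA1, hDC⟩ := hDCON (2 * D + 1) (2 * C + 2 * D + 4) s hC' hs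
  obtain ⟨A2, hA2, hlarge⟩ := large s (4 * D + 4) hs
  refine ⟨max (max A1 A2) (2 * (2 * D + 2) * 2 ^ (2 * D + 1)),
    (hA1.trans (le_max_left _ _)).trans (le_max_left _ _), ?_⟩
  intro A S j p hA hS v l hl hl' hcut U V W U' V' W' hdeg hdeg' hind hval hval'
  have hAA1 : A1 ≤ A := ((le_max_left _ _).trans (le_max_left _ _)).trans hA
  have hAA2 : A2 ≤ A := ((le_max_right _ _).trans (le_max_left _ _)).trans hA
  have hAA3 : 2 * (2 * (D : ℝ) + 2) * 2 ^ (2 * D + 1) ≤ A := (le_max_right _ _).trans hA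
  have hA1' : 1 ≤ A := hA1.trans hAA1
  have hA0 : 0 < A := by linarith
  have hls := hlarge A hAA2
  have hls1 : (1 : ℝ) ≤ A ^ s := by linarith
  have hl1 : 1 ≤ l := (Real.one_le_rpow hA1' (by linarith)).trans hl
  -- sizes
  have h3s : A ^ (3 * s) = A ^ s * A ^ s * A ^ s := by
    rw [← Real.rpow_add hA0, ← Real.rpow_add hA0]; congr 1; ring
  have hm : A ^ (3 * s) ≤ A ^ (-(2 * s)) * l := by
    calc A ^ (3 * s) = A ^ (-(2 * s)) * A ^ (5 * s) := by
          rw [← Real.rpow_add hA0]; congr 1; ring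
      _ ≤ _ := mul_le_mul_of_nonneg_left hl (Real.rpow_nonneg hA0.le _)
  have h3s' : 4 * (D : ℝ) + 4 ≤ A ^ (3 * s) := by
    rw [h3s]
    have h1 : (1 : ℝ) ≤ A ^ s * A ^ s := by nlinarith
    have h2 : A ^ s ≤ A ^ s * A ^ s * A ^ s := by nlinarith
    linarith
  have hcardcut : 2 * D + 2 ≤ (cut S v l).card := by
    have h1 : ((2 * D + 2 : ℕ) : ℝ) ≤ ((cut S v l).card : ℝ) := by
      push_cast
      linarith
    exact_mod_cast h1
  obtain ⟨h, D0, J, P, hh, hD0', hPrim, hhd, hD0d, hJd, hPd, e1, e2, e3, hT0⟩ :=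
    hRK2 D U V W U' V' W' (cut S v l) j p hdeg.1 hdeg.2.1 hdeg.2.2 hdeg'.1 hdeg'.2.1 hdeg'.2.2
      hind hcardcut (fun a ha => (hval a ha).1) (fun a ha => (hval' a ha).1)
  set T : Finset ℤ := (cut S v l).filter (fun a => h.eval a ≠ 0) with hTdef
  have hTsub : T ⊆ cut S v l := Finset.filter_subset _ _
  have hTcard : A ^ (-(2 * s)) * l / 2 ≤ (T.card : ℝ) := by
    have h1 := card_zero hh hhd (cut S v l)
    have h2 : ((cut S v l).card : ℝ) ≤ (T.card : ℝ) + (2 * D + 1) := by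
      exact_mod_cast h1
    linarith
  have hTs : A ^ (3 * s) / 2 ≤ (T.card : ℝ) := by linarith
  have hTn : 2 * D + 1 + 1 ≤ T.card := by
    have h1 : ((2 * D + 1 + 1 : ℕ) : ℝ) ≤ (T.card : ℝ) := by
      push_cast
      linarith
    exact_mod_cast h1
  have hTA : A ^ s ≤ (T.card : ℝ) := by
    refine le_trans ?_ hTs
    rw [h3s]
    have h1 : (2 : ℝ) ≤ A ^ s * A ^ s := by nlinarith
    nlinarith
  have hTmem : ∀ a ∈ T, a ∈ cut S v l ∧ h.eval a ≠ 0 := fun a ha => Finset.mem_filter.1 ha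
  have hTabs : ∀ a ∈ T, |(a : ℝ)| ≤ A := by
    intro a ha
    have h1 := hS a (mem_cut.1 (hTmem a ha).1).1
    rw [abs_of_nonneg (by linarith)]
    exact h1.2
  -- values
  have hBB : A ^ (C + 1) * A ^ (C + 1) = A ^ (2 * C + 2) := by
    rw [← Real.rpow_add hA0]; congr 1; ring
  have hB0 : (0 : ℝ) ≤ A ^ (C + 1) := Real.rpow_nonneg hA0.le _
  have vD : ∀ a ∈ T, |((D0.eval a : ℤ) : ℝ)| ≤ 2 * A ^ (2 * C + 2) := by
    intro a ha
    have h1 := (hval a (hTmem a ha).1).2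
    have h2 := (hval' a (hTmem a ha).1).2
    have e : h.eval a * D0.eval a = U.eval a * V'.eval a - U'.eval a * V.eval a := by
      have := congrArg (Polynomial.eval a) e1
      simpa [eval_mul, eval_sub] using this
    refine div_bound (hTmem a ha).2 e ?_
    push_cast
    rw [← hBB]
    exact det_bound hB0 h1.1 h2.2.1 h2.1 h1.2.1
  have vJ : ∀ a ∈ T, |((J.eval a : ℤ) : ℝ)| ≤ 2 * A ^ (2 * C + 2) := by
    intro a ha
    have h1 := (hval a (hTmem a ha).1).2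
    have h2 := (hval' a (hTmem a ha).1).2
    have e : h.eval a * J.eval a = W.eval a * U'.eval a - W'.eval a * U.eval a := by
      have := congrArg (Polynomial.eval a) e2
      simpa [eval_mul, eval_sub] using this
    refine div_bound (hTmem a ha).2 e ?_
    push_cast
    rw [← hBB]
    exact det_bound hB0 h1.2.2 h2.1 h2.2.2 h1.1
  have vP : ∀ a ∈ T, |((P.eval a : ℤ) : ℝ)| ≤ 2 * A ^ (2 * C + 2) := by
    intro a ha
    have h1 := (hval a (hTmem a ha).1).2
    have h2 := (hval' a (hTmem a ha).1).2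
    have e : h.eval a * P.eval a = V.eval a * W'.eval a - V'.eval a * W.eval a := by
      have := congrArg (Polynomial.eval a) e3
      simpa [eval_mul, eval_sub] using this
    refine div_bound (hTmem a ha).2 e ?_
    push_cast
    rw [← hBB]
    exact det_bound hB0 h1.2.1 h2.2.2 h2.2.1 h1.2.2
  -- coefficients
  have hbig : ((2 * D + 1 : ℕ) + 1 : ℝ) * (2 * A ^ (2 * C + 2)) * (1 + A) ^ (2 * D + 1)
      ≤ A ^ (2 * C + 2 * (D : ℝ) + 4) := by
    have h1 : (1 + A) ^ (2 * D + 1) ≤ (2 * A) ^ (2 * D + 1) :=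
      pow_le_pow_left₀ (by linarith) (by linarith) _
    have h2 : (2 * A) ^ (2 * D + 1) = 2 ^ (2 * D + 1) * A ^ (2 * (D : ℝ) + 1) := by
      rw [mul_pow]
      congr 1
      rw [← Real.rpow_natCast]
      congr 1
      push_cast
      ring
    have h3 : A ^ (2 * C + 2 * (D : ℝ) + 4)
        = A ^ (2 * C + 2) * A ^ (2 * (D : ℝ) + 1) * A := by
      rw [← Real.rpow_add hA0]
      nth_rewrite 3 [← Real.rpow_one A]
      rw [← Real.rpow_add hA0]
      congr 1
      ring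
    have h4 : (0 : ℝ) ≤ A ^ (2 * C + 2) := Real.rpow_nonneg hA0.le _
    have h5 : (0 : ℝ) ≤ A ^ (2 * (D : ℝ) + 1) := Real.rpow_nonneg hA0.le _
    rw [h3]
    calc ((2 * D + 1 : ℕ) + 1 : ℝ) * (2 * A ^ (2 * C + 2)) * (1 + A) ^ (2 * D + 1)
        ≤ ((2 * D + 1 : ℕ) + 1 : ℝ) * (2 * A ^ (2 * C + 2))
            * (2 ^ (2 * D + 1) * A ^ (2 * (D : ℝ) + 1)) := by
          rw [← h2]
          exact mul_le_mul_of_nonneg_left h1 (by positivity)
      _ = A ^ (2 * C + 2) * A ^ (2 * (D : ℝ) + 1)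
            * (2 * (2 * (D : ℝ) + 2) * 2 ^ (2 * D + 1)) := by
          push_cast
          ring
      _ ≤ _ := mul_le_mul_of_nonneg_left hAA3 (mul_nonneg h4 h5)
  have cD := fun k => (hCOEF (2 * D + 1) D0 _ A T hD0d hTn hTabs vD k).trans hbig
  have cJ := fun k => (hCOEF (2 * D + 1) J _ A T hJd hTn hTabs vJ k).trans hbig
  have cP := fun k => (hCOEF (2 * D + 1) P _ A T hPd hTn hTabs vP k).trans hbig
  have hrel : ∀ a ∈ T, D0.eval a * j a = J.eval a ∧ D0.eval a * p a = P.eval a :=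
    fun a ha => hT0 a (hTmem a ha).1 (hTmem a ha).2
  have hconst := hDC A hAA1 D0 J P hD0' hD0d hJd hPd hPrim cD cJ cP T hTA
    (fun a ha => ⟨⟨_, (hrel a ha).1.symm⟩, ⟨_, (hrel a ha).2.symm⟩⟩)
  have hDC0 := Polynomial.eq_C_of_natDegree_eq_zero hconst
  set d : ℤ := D0.coeff 0 with hd
  have hd0 : d ≠ 0 := by
    intro h0
    rw [h0] at hDC0
    exact hD0' (by rw [hDC0]; simp)
  have hDe : ∀ a : ℤ, D0.eval a = d := by
    intro a
    rw [hDC0]
    simp
  have hDk : ∀ k : ℕ, D0.coeff k = if k = 0 then d else 0 := by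
    intro k
    rw [hDC0, coeff_C]
  have hdb := hD0B (2 * D + 1) d J P T v l hd0 hJd hPd
    (fun m w h1 h2 h3 => hPrim.cont m w (fun k => by
      rw [hDk k]
      split_ifs
      · exact h1
      · simp) h2 h3)
    hl1 (fun a ha => (mem_cut.1 (hTmem a ha).1).2) hTn
    (fun a ha => ⟨⟨j a, by rw [← (hrel a ha).1, hDe]⟩, ⟨p a, by rw [← (hrel a ha).2, hDe]⟩⟩)
  refine ⟨d, J, P, T, hd0, ?_, hJd, hPd, hTsub, hTcard, ?_⟩
  · refine hdb.trans ?_
    have h1 : l ^ ((2 * D + 1 + 1) ^ 2) ≤ (A ^ (7 * s)) ^ ((2 * D + 1 + 1) ^ 2) :=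
      pow_le_pow_left₀ (by linarith) hl' _
    refine h1.trans (le_of_eq ?_)
    rw [← Real.rpow_natCast, ← Real.rpow_mul hA0.le]
    congr 1
    push_cast
    ring
  · intro a ha
    have h1 := hrel a ha
    rw [hDe] at h1
    exact h1

end Pool.Agent.UHJ
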