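import Pool.Agent.UHJ.Stmts

/-!
# INV2: the inhomogeneous inverse theorem from MAIN2
-/

namespace Pool.Agent.UHJ

namespace INV2aux

lemma kd_pos (D : ℕ) : 0 < Kd D := by
  unfold Kd
  positivity

/-- the choice of the degree -/
lemma exists_deg (C η : ℝ) : ∃ D : ℕ, 2 ≤ D ∧ 6 * C / η ≤ (D : ℝ) + 1 := by
  obtain ⟨n, hn⟩ := exists_nat_ge (6 * C / η)
  refine ⟨n + 2, by omega, ?_⟩
  push_cast
  linarith

lemma rpow_X_le {A X C e f : ℝ} (hA : 1 ≤ A) (hX : 1 ≤ X) (hXA : X ≤ A ^ C) (he : 0 ≤ e)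
    (hf : C * e ≤ f) : X ^ e ≤ A ^ f := by
  have hA0 : 0 ≤ A := by linarith
  calc X ^ e ≤ (A ^ C) ^ e := Real.rpow_le_rpow (by linarith) hXA he
    _ = A ^ (C * e) := (Real.rpow_mul hA0 C e).symm
    _ ≤ A ^ f := Real.rpow_le_rpow_of_exponent_le hA hf

end INV2aux

open INV2aux in
theorem m_INV2 : Stmt_MAIN2 → Stmt_INV2 := by
  intro hM C η hC hη hη1
  obtain ⟨D, hD2, hD⟩ := exists_deg C η
  have hKd : 0 < Kd D := kd_pos D
  have hD1 : (0 : ℝ) < (D : ℝ) + 1 := by positivity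
  set s : ℝ := min (1 / 20000) (η / (6 * (Kd D + 120))) with hs
  have hden : (0 : ℝ) < 6 * (Kd D + 120) := by positivity
  have hs0 : 0 < s := by
    rw [hs]
    exact lt_min (by norm_num) (div_pos hη hden)
  have hs1 : s ≤ 1 / 20000 := min_le_left _ _
  have hs2 : s ≤ η / (6 * (Kd D + 120)) := min_le_right _ _
  have hs3 : (Kd D + 120) * s ≤ η / 6 := by
    have := (le_div_iff₀ hden).mp hs2
    nlinarith
  have hs4 : 3 * Kd D * s ≤ η / 2 := by nlinarith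
  -- C / (D+1) ≤ η / 6
  have hCD : C * (1 / ((D : ℝ) + 1)) ≤ η / 6 := by
    have h1 : 6 * C ≤ ((D : ℝ) + 1) * η := (div_le_iff₀ hη).mp hD
    rw [mul_one_div, div_le_iff₀ hD1]
    linarith
  obtain ⟨A0, hA0, H⟩ := hM D C s hD2 hC hs0 hs1
  refine ⟨s, A0, hs0, hs1, hA0, ?_⟩
  intro A θ ρ τ X ε S j p hA hX1 hXA hεA hH hS hcard hj hap
  have hA1 : 1 ≤ A := hA0.trans hA
  have hApos : 0 < A := by linarith
  have hε : 0 < ε := lt_of_lt_of_le (Real.rpow_pos_of_pos hApos _) hεA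
  have hXpos : 0 < X := by linarith
  -- the hypothesis of MAIN2
  have hH' : ε * X ^ (4 / 3 + 3 / ((D : ℝ) + 1)) * A ^ (1 / 4 + 3 * Kd D * s) ≤ 1 := by
    have e1 : X ^ (4 / 3 + 3 / ((D : ℝ) + 1)) ≤ X ^ (4 / 3 : ℝ) * A ^ (η / 2) := by
      rw [Real.rpow_add hXpos]
      refine mul_le_mul_of_nonneg_left ?_ (Real.rpow_nonneg hXpos.le _)
      refine rpow_X_le hA1 hX1 hXA (by positivity) ?_
      have : C * (3 / ((D : ℝ) + 1)) = 3 * (C * (1 / ((D : ℝ) + 1))) := by ring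
      rw [this]
      linarith
    have e2 : A ^ (1 / 4 + 3 * Kd D * s) ≤ A ^ (1 / 4 + η / 2) :=
      Real.rpow_le_rpow_of_exponent_le hA1 (by linarith)
    have e3 : A ^ (η / 2) * A ^ (1 / 4 + η / 2) = A ^ (1 / 4 + η) := by
      rw [← Real.rpow_add hApos]
      congr 1
      ring
    calc ε * X ^ (4 / 3 + 3 / ((D : ℝ) + 1)) * A ^ (1 / 4 + 3 * Kd D * s)
        ≤ ε * (X ^ (4 / 3 : ℝ) * A ^ (η / 2)) * A ^ (1 / 4 + η / 2) := by
          have h0 : 0 ≤ A ^ (1 / 4 + 3 * Kd D * s) := Real.rpow_nonneg hApos.le _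
          have h1 : 0 ≤ ε * (X ^ (4 / 3 : ℝ) * A ^ (η / 2)) := by positivity
          exact mul_le_mul (mul_le_mul_of_nonneg_left e1 hε.le) e2 h0 h1
      _ = ε * X ^ (4 / 3 : ℝ) * (A ^ (η / 2) * A ^ (1 / 4 + η / 2)) := by ring
      _ = ε * X ^ (4 / 3 : ℝ) * A ^ (1 / 4 + η) := by rw [e3]
      _ ≤ 1 := hH
  obtain ⟨j', p', h1, h2, h3⟩ := H A (Int.fract θ) (Int.fract ρ) (Int.fract τ) X ε S j
    (fun a => p a + ⌊τ⌋ - j a * (⌊θ⌋ * a + ⌊ρ⌋)) hA hX1 hXA hεA hH'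
    (Int.fract_nonneg _) (Int.fract_lt_one _).le (Int.fract_nonneg _) (Int.fract_lt_one _).le
    (Int.fract_nonneg _) (Int.fract_lt_one _).le hS hcard hj (by
      intro a ha
      have := hap a ha
      have key : (((p a + ⌊τ⌋ - j a * (⌊θ⌋ * a + ⌊ρ⌋) : ℤ) : ℝ) + Int.fract τ
          - j a * (Int.fract θ * a + Int.fract ρ)) = (p a : ℝ) + τ - j a * (θ * a + ρ) := by
        unfold Int.fract
        push_cast
        ring
      rw [key]
      exact this)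
  refine ⟨j', p' + j' * ⌊θ⌋, h1, ?_, ?_⟩
  · refine h2.trans ?_
    have e1 : X ^ (1 + 1 / ((D : ℝ) + 1)) ≤ X * A ^ (η / 6) := by
      rw [Real.rpow_add hXpos, Real.rpow_one]
      refine mul_le_mul_of_nonneg_left ?_ hXpos.le
      exact rpow_X_le hA1 hX1 hXA (by positivity) hCD
    have e2 : A ^ ((Kd D + 120) * s) ≤ A ^ (η / 6) :=
      Real.rpow_le_rpow_of_exponent_le hA1 hs3
    have e3 : A ^ (η / 6) * A ^ (η / 6) ≤ A ^ η := by
      rw [← Real.rpow_add hApos]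
      exact Real.rpow_le_rpow_of_exponent_le hA1 (by linarith)
    calc X ^ (1 + 1 / ((D : ℝ) + 1)) * A ^ ((Kd D + 120) * s)
        ≤ (X * A ^ (η / 6)) * A ^ (η / 6) :=
          mul_le_mul e1 e2 (Real.rpow_nonneg hApos.le _) (by positivity)
      _ = X * (A ^ (η / 6) * A ^ (η / 6)) := by ring
      _ ≤ X * A ^ η := mul_le_mul_of_nonneg_left e3 hXpos.le
  · have key : (((p' + j' * ⌊θ⌋ : ℤ) : ℝ) - j' * θ) = (p' : ℝ) - j' * Int.fract θ := by
      unfold Int.fract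
      push_cast
      ring
    rw [key]
    refine h3.trans ?_
    have e1 : X ^ (1 / ((D : ℝ) + 1)) ≤ A ^ (η / 6) :=
      rpow_X_le hA1 hX1 hXA (by positivity) hCD
    have e2 : A ^ (-1 + (Kd D + 120) * s) ≤ A ^ (-1 + η / 6) :=
      Real.rpow_le_rpow_of_exponent_le hA1 (by linarith)
    have e3 : A ^ (η / 6) * A ^ (-1 + η / 6) ≤ A ^ (-1 + η) := by
      rw [← Real.rpow_add hApos]
      exact Real.rpow_le_rpow_of_exponent_le hA1 (by linarith)
    calc X ^ (1 / ((D : ℝ) + 1)) * ε * A ^ (-1 + (Kd D + 120) * s)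
        ≤ (A ^ (η / 6) * ε) * A ^ (-1 + η / 6) :=
          mul_le_mul (mul_le_mul_of_nonneg_right e1 hε.le) e2 (Real.rpow_nonneg hApos.le _)
            (by positivity)
      _ = ε * (A ^ (η / 6) * A ^ (-1 + η / 6)) := by ring
      _ ≤ ε * A ^ (-1 + η) := mul_le_mul_of_nonneg_left e3 hε.le

end Pool.Agent.UHJ
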