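import Pool.Agent.UHJ.Stmts
import Pool.Agent.UHI.Lag

/-!
# Lagrange interpolation, the coefficient of degree `e` (LAGE)
-/

namespace Pool.Agent.UHJ

open Polynomial

namespace LAGEaux

/-- coefficients of the product of the basis divisors -/
lemma coeff_le (x m W : ℝ) (v : ℕ → ℝ) (hm : 0 < m) (hW : 0 ≤ W) :
    ∀ (t : Finset ℕ), (∀ j ∈ t, m ≤ |x - v j|) → (∀ j ∈ t, |v j| ≤ W) →
      ∀ k, (k ≤ t.card → |(∏ j ∈ t, Lagrange.basisDivisor x (v j)).coeff k| ≤
          2 ^ t.card * W ^ (t.card - k) / m ^ t.card) ∧
        (t.card < k → (∏ j ∈ t, Lagrange.basisDivisor x (v j)).coeff k = 0) := by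
  intro t
  induction t using Finset.induction_on with
  | empty =>
    intro _ _ k
    rw [Finset.prod_empty, Polynomial.coeff_one, Finset.card_empty]
    refine ⟨fun hk => ?_, fun hk => ?_⟩
    · have : k = 0 := Nat.le_zero.mp hk
      subst this
      simp
    · rw [if_neg (by omega)]
  | insert j t hj ih =>
    intro h1 h2 k
    rw [Finset.prod_insert hj, Finset.card_insert_of_notMem hj]
    have ih' := ih (fun i hi => h1 i (Finset.mem_insert_of_mem hi))
      (fun i hi => h2 i (Finset.mem_insert_of_mem hi))
    set P := ∏ i ∈ t, Lagrange.basisDivisor x (v i) with hP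
    set n := t.card with hn
    have hx := h1 j (Finset.mem_insert_self j t)
    have hv := h2 j (Finset.mem_insert_self j t)
    have hc : |(x - v j)⁻¹| ≤ m⁻¹ := by
      rw [abs_inv]
      exact inv_anti₀ hm hx
    have h3 : (Lagrange.basisDivisor x (v j) * P).coeff k =
        (x - v j)⁻¹ * ((X * P).coeff k - v j * P.coeff k) := by
      unfold Lagrange.basisDivisor
      rw [mul_assoc, Polynomial.coeff_C_mul, sub_mul, Polynomial.coeff_sub, Polynomial.coeff_C_mul]
    have hkey : ∀ T : ℝ, |(X * P).coeff k - v j * P.coeff k| ≤ T →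
        |(x - v j)⁻¹ * ((X * P).coeff k - v j * P.coeff k)| ≤ m⁻¹ * T := by
      intro T hT
      rw [abs_mul]
      exact mul_le_mul hc hT (abs_nonneg _) (by positivity)
    have hmn : (0 : ℝ) < m ^ n := by positivity
    refine ⟨fun hk => ?_, fun hk => ?_⟩
    · rw [h3]
      cases k with
      | zero =>
        have h4 := (ih' 0).1 (Nat.zero_le _)
        refine le_trans (hkey (W * (2 ^ n * W ^ (n - 0) / m ^ n)) ?_) ?_
        · rw [Polynomial.coeff_X_mul_zero, zero_sub, abs_neg, abs_mul]
          exact mul_le_mul hv h4 (abs_nonneg _) hW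
        · rw [Nat.sub_zero, Nat.sub_zero]
          have h5 : m⁻¹ * (W * (2 ^ n * W ^ n / m ^ n)) = 2 ^ n * W ^ (n + 1) / m ^ (n + 1) := by
            field_simp
            ring
          rw [h5]
          have h6 : (0 : ℝ) ≤ W ^ (n + 1) := by positivity
          have h7 : (2 : ℝ) ^ n ≤ 2 ^ (n + 1) := pow_le_pow_right₀ (by norm_num) (by omega)
          gcongr
      | succ k =>
        have hk' : k ≤ n := by omega
        have h4 := (ih' k).1 hk'
        have h4' : |v j * P.coeff (k + 1)| ≤ 2 ^ n * W ^ (n - k) / m ^ n := by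
          rcases Nat.lt_or_ge n (k + 1) with h | h
          · rw [(ih' (k + 1)).2 h, mul_zero, abs_zero]
            positivity
          · have h5 := (ih' (k + 1)).1 h
            rw [abs_mul]
            have h6 : n - k = (n - (k + 1)) + 1 := by omega
            rw [h6, pow_succ]
            calc |v j| * |P.coeff (k + 1)| ≤ W * (2 ^ n * W ^ (n - (k + 1)) / m ^ n) :=
                  mul_le_mul hv h5 (abs_nonneg _) hW
              _ = _ := by ring
        refine le_trans (hkey (2 ^ n * W ^ (n - k) / m ^ n + 2 ^ n * W ^ (n - k) / m ^ n) ?_) ?_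
        · rw [Polynomial.coeff_X_mul]
          exact le_trans (abs_sub _ _) (add_le_add h4 h4')
        · have h5 : n + 1 - (k + 1) = n - k := by omega
          rw [h5]
          refine le_of_eq ?_
          field_simp
          ring
    · cases k with
      | zero => omega
      | succ k =>
        rw [h3, Polynomial.coeff_X_mul, (ih' k).2 (by omega), (ih' (k + 1)).2 (by omega)]
        ring

end LAGEaux

theorem m_LAGE : Stmt_LAGE := by
  intro n e H B m W a hd he hm hs hB hW
  have hB0 : 0 ≤ B := le_trans (abs_nonneg _) (hB 0 (Nat.zero_le n))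
  have hW0 : 0 ≤ W := le_trans (abs_nonneg _) (hW 0 (Nat.zero_le n))
  have hF := UHI.LAGaux.formula n H m hm a hd hs
  have h1 : H.coeff e = ∑ i ∈ Finset.range (n + 1), H.eval (a i : ℝ) *
      (∏ j ∈ (Finset.range (n + 1)).erase i,
        Lagrange.basisDivisor (a i : ℝ) (a j : ℝ)).coeff e := by
    conv_lhs => rw [hF]
    rw [Polynomial.finsetSum_coeff]
    refine Finset.sum_congr rfl (fun i hi => ?_)
    rw [Polynomial.coeff_C_mul]
  rw [h1]
  refine le_trans (Finset.abs_sum_le_sum_abs _ _) ?_
  have h2 : ∀ i ∈ Finset.range (n + 1), |H.eval (a i : ℝ) *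
      (∏ j ∈ (Finset.range (n + 1)).erase i,
        Lagrange.basisDivisor (a i : ℝ) (a j : ℝ)).coeff e| ≤
        B * (2 ^ n * W ^ (n - e) / m ^ n) := by
    intro i hi
    have hi' : i ≤ n := by simpa [Nat.lt_succ_iff] using hi
    rw [abs_mul]
    refine mul_le_mul (hB i hi') ?_ (abs_nonneg _) hB0
    have h3 := (LAGEaux.coeff_le (a i : ℝ) m W (fun j => (a j : ℝ)) hm hW0
      ((Finset.range (n + 1)).erase i) (fun j hj => by
        have hj1 : j ≠ i := Finset.ne_of_mem_erase hj
        have hj2 : j ≤ n := by
          have := Finset.mem_of_mem_erase hj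
          simpa [Nat.lt_succ_iff] using this
        exact UHI.LAGaux.sep n m hm a hs i j hi' hj2 hj1.symm) (fun j hj => by
        have hj2 : j ≤ n := by
          have := Finset.mem_of_mem_erase hj
          simpa [Nat.lt_succ_iff] using this
        exact hW j hj2) e).1
    rw [UHI.LAGaux.card_erase n i hi] at h3
    exact h3 he
  refine le_trans (Finset.sum_le_sum h2) ?_
  rw [Finset.sum_const, Finset.card_range, nsmul_eq_mul]
  push_cast
  exact le_of_eq (by ring)

end Pool.Agent.UHJ
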