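import Pool.Agent.UHJ.Stmts

/-!
# LAM: a linear combination of `V` and `W` coprime to `U`
-/

namespace Pool.Agent.UHJ

open Polynomial Pool.Agent.UHI

namespace LAMaux

/-- the statement over the rationals -/
theorem core (n : ℕ) (U V W : ℚ[X]) (hU : U ≠ 0) (hn : U.natDegree ≤ n)
    (hr : ∀ q : ℚ[X], q ∣ U → q ∣ V → q ∣ W → IsUnit q) :
    ∃ l : ℕ, l ≤ n ∧ IsCoprime U (V + C (l : ℚ) * W) := by
  by_contra hcon
  push Not at hcon
  have hex : ∀ l : Fin (n + 1), ∃ q : ℚ[X], Irreducible q ∧ q ∣ U ∧ q ∣ (V + C ((l : ℕ) : ℚ) * W) := by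
    intro l
    have h1 := hcon l.1 (Nat.lt_succ_iff.mp l.2)
    by_contra h2
    push Not at h2
    exact h1 (isCoprime_of_irreducible_dvd (fun h => hU h.1) (fun z hz hzU => h2 z hz hzU))
  choose q hq hqU hqV using hex
  have hcop : ∀ i j : Fin (n + 1), i ≠ j → IsCoprime (q i) (q j) := by
    intro i j hij
    rw [(hq i).coprime_iff_not_dvd]
    intro hd
    have h1 : q i ∣ V + C ((j : ℕ) : ℚ) * W := hd.trans (hqV j)
    have h2 : q i ∣ C (((i : ℕ) : ℚ) - ((j : ℕ) : ℚ)) * W := by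
      have h3 := dvd_sub (hqV i) h1
      have h4 : (V + C ((i : ℕ) : ℚ) * W) - (V + C ((j : ℕ) : ℚ) * W)
          = C (((i : ℕ) : ℚ) - ((j : ℕ) : ℚ)) * W := by
        rw [C_sub]; ring
      rwa [h4] at h3
    have hne : ((i : ℕ) : ℚ) - ((j : ℕ) : ℚ) ≠ 0 := by
      intro h
      apply hij
      apply Fin.ext
      have : ((i : ℕ) : ℚ) = ((j : ℕ) : ℚ) := by linarith
      exact_mod_cast this
    have hu : IsUnit (C (((i : ℕ) : ℚ) - ((j : ℕ) : ℚ)) : ℚ[X]) :=
      Polynomial.isUnit_C.mpr (isUnit_iff_ne_zero.mpr hne)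
    have hW : q i ∣ W := (IsUnit.dvd_mul_left hu).mp h2
    have hV : q i ∣ V := by
      have h5 : q i ∣ C ((i : ℕ) : ℚ) * W := hW.mul_left _
      exact (dvd_add_left h5).mp (hqV i)
    exact (hq i).not_isUnit (hr _ (hqU i) hV hW)
  have hprod : (∏ i : Fin (n + 1), q i) ∣ U :=
    Finset.prod_dvd_of_coprime (fun i _ j _ hij => hcop i j hij) (fun i _ => hqU i)
  have hdeg : (∏ i : Fin (n + 1), q i).natDegree ≤ U.natDegree :=
    Polynomial.natDegree_le_of_dvd hprod hU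
  rw [Polynomial.natDegree_prod _ _ (fun i _ => (hq i).ne_zero)] at hdeg
  have hge : ∑ i : Fin (n + 1), 1 ≤ ∑ i : Fin (n + 1), (q i).natDegree :=
    Finset.sum_le_sum (fun i _ => (hq i).natDegree_pos)
  simp at hge
  omega

end LAMaux

theorem m_LAM : Stmt_LAM := by
  intro n U V W hU hn hr
  have hinj : Function.Injective (Int.castRingHom ℚ) := by
    intro a b h
    simpa using h
  have hU' : U.map (Int.castRingHom ℚ) ≠ 0 := (Polynomial.map_ne_zero_iff hinj).mpr hU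
  obtain ⟨l, hl, hc⟩ := LAMaux.core n _ _ _ hU' ((Polynomial.natDegree_map_le).trans hn) hr
  refine ⟨l, hl, ?_⟩
  have h : (V + Polynomial.C (l : ℤ) * W).map (Int.castRingHom ℚ)
      = V.map (Int.castRingHom ℚ) + C (l : ℚ) * W.map (Int.castRingHom ℚ) := by
    rw [Polynomial.map_add, Polynomial.map_mul, Polynomial.map_C]
    simp
  rw [h]
  exact hc

end Pool.Agent.UHJ
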