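import Pool.Agent.UHJ.Stmts

/-!
# The inhomogeneous inverse theorem with a fixed degree
-/

set_option autoImplicit false

namespace Pool.Agent.UHJ

open Polynomial Pool.Agent.UHI

namespace MAIN2aux

theorem half_le {A s : ℝ} (hs : 0 < s) (hA1 : 1 ≤ A) (hA : (2 : ℝ) ^ (1 / s) ≤ A) :
    A ^ (1 - 2 * s) ≤ A ^ (1 - s) / 2 := by
  have hA0 : 0 < A := by linarith
  have h2 : 2 ≤ A ^ s := by
    calc (2 : ℝ) = ((2 : ℝ) ^ (1 / s)) ^ s := by
          rw [← Real.rpow_mul (by norm_num), one_div, inv_mul_cancel₀ hs.ne', Real.rpow_one]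
      _ ≤ A ^ s := Real.rpow_le_rpow (by positivity) hA hs.le
  have h3 : A ^ (1 - s) = A ^ (1 - 2 * s) * A ^ s := by
    rw [← Real.rpow_add hA0]
    congr 1
    ring
  have h4 : 0 ≤ A ^ (1 - 2 * s) := (Real.rpow_pos_of_pos hA0 _).le
  rw [h3]
  nlinarith [mul_le_mul_of_nonneg_left h2 h4]

theorem qf_zero (x y z : ℤ) : qf (fun _ => 0) x y z = 0 := by
  simp [qf]

end MAIN2aux

open MAIN2aux

theorem m_MAIN2 : UHI.Stmt_INV → Stmt_CORE → Stmt_MAIN2 := by
  classical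
  intro hINV hCORE D C s hD hC hs hs2
  have hδ0 : 0 < 1 / ((D : ℝ) + 1) := by positivity
  have hδ1 : 1 / ((D : ℝ) + 1) ≤ 1 := by
    rw [div_le_one (by positivity)]
    have : (0 : ℝ) ≤ D := Nat.cast_nonneg D
    linarith
  have h3δ : 3 / ((D : ℝ) + 1) = 3 * (1 / ((D : ℝ) + 1)) := by ring
  have hK0 : 0 < Kd D := by
    unfold Kd
    positivity
  set δ : ℝ := 1 / ((D : ℝ) + 1) with hδ
  set K : ℝ := Kd D with hK
  have hKs : 0 < K * s := mul_pos hK0 hs
  obtain ⟨A1, hA1, hI⟩ := hINV (2 * C + K * s + 1) (2 * s) (by nlinarith) (by linarith)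
    (by linarith)
  obtain ⟨A2, hA2, hCo⟩ := hCORE D C s hD hC hs (by linarith)
  refine ⟨max (max A1 A2) ((2 : ℝ) ^ (1 / s)), le_max_of_le_left (le_max_of_le_left hA1), ?_⟩
  intro A θ ρ τ X ε S j p hA hX1 hXA hεA hH hθ0 hθ1 hρ0 hρ1 hτ0 hτ1 hS hcard hj hap
  have hAA1 : A1 ≤ A := (le_max_left _ _).trans ((le_max_left _ _).trans hA)
  have hAA2 : A2 ≤ A := (le_max_right _ _).trans ((le_max_left _ _).trans hA)
  have hAA3 : (2 : ℝ) ^ (1 / s) ≤ A := (le_max_right _ _).trans hA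
  have hAone : 1 ≤ A := hA1.trans hAA1
  have hA0 : 0 < A := by linarith
  have hX0 : 0 < X := by linarith
  have hε0 : 0 < ε := (Real.rpow_pos_of_pos hA0 _).trans_le hεA
  have hhalf := half_le hs hAone hAA3
  -- monotonicity of the powers
  have hXmono : ∀ x y : ℝ, x ≤ y → X ^ x ≤ X ^ y := fun x y h =>
    Real.rpow_le_rpow_of_exponent_le hX1 h
  have hAmono : ∀ x y : ℝ, x ≤ y → A ^ x ≤ A ^ y := fun x y h =>
    Real.rpow_le_rpow_of_exponent_le hAone h
  have hApos : ∀ x : ℝ, 0 < A ^ x := fun x => Real.rpow_pos_of_pos hA0 x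
  have hXpos : ∀ x : ℝ, 0 < X ^ x := fun x => Real.rpow_pos_of_pos hX0 x
  let good : ℤ → Prop := fun a => ∃ u v : ℤ, 1 ≤ u ∧ (u : ℝ) ≤ X ^ (1 + δ) * A ^ (K * s) ∧
    |(v : ℝ) - u * (θ * a + ρ)| ≤ X ^ δ * ε * A ^ (K * s)
  have hsplit : ((S.filter good).card : ℝ) + ((S.filter fun a => ¬ good a).card : ℝ)
      = (S.card : ℝ) := by
    exact_mod_cast Finset.card_filter_add_card_filter_not (s := S) good
  by_cases hbig : (S.card : ℝ) / 2 ≤ ((S.filter good).card : ℝ)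
  · -- many homogeneous pairs
    have hex : ∀ a : ℤ, ∃ u v : ℤ, a ∈ S.filter good → (1 ≤ u ∧
        (u : ℝ) ≤ X ^ (1 + δ) * A ^ (K * s) ∧
        |(v : ℝ) - u * (θ * a + ρ)| ≤ X ^ δ * ε * A ^ (K * s)) := by
      intro a
      by_cases ha : a ∈ S.filter good
      · obtain ⟨u, v, huv⟩ := (Finset.mem_filter.mp ha).2
        exact ⟨u, v, fun _ => huv⟩
      · exact ⟨0, 0, fun h => absurd h ha⟩
    choose u v huv using hex
    have hX'1 : 1 ≤ X ^ (1 + δ) * A ^ (K * s) :=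
      one_le_mul_of_one_le_of_one_le (Real.one_le_rpow hX1 (by linarith))
        (Real.one_le_rpow hAone hKs.le)
    have hX'A : X ^ (1 + δ) * A ^ (K * s) ≤ A ^ (2 * C + K * s + 1) := by
      have h1 : X ^ (1 + δ) ≤ A ^ (2 * C) := by
        calc X ^ (1 + δ) ≤ X ^ (2 : ℝ) := hXmono _ _ (by linarith)
          _ ≤ (A ^ C) ^ (2 : ℝ) := Real.rpow_le_rpow hX0.le hXA (by norm_num)
          _ = A ^ (2 * C) := by rw [← Real.rpow_mul hA0.le, mul_comm]
      calc X ^ (1 + δ) * A ^ (K * s) ≤ A ^ (2 * C) * A ^ (K * s) :=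
            mul_le_mul_of_nonneg_right h1 (hApos _).le
        _ = A ^ (2 * C + K * s) := (Real.rpow_add hA0 _ _).symm
        _ ≤ _ := hAmono _ _ (by linarith)
    have hε'0 : 0 < X ^ δ * ε * A ^ (K * s) := by
      have := hXpos δ
      have := hApos (K * s)
      positivity
    have hmain : X ^ δ * ε * A ^ (K * s) * (X ^ (1 + δ) * A ^ (K * s)) ^ (4 / 3 : ℝ)
        * A ^ (1 / 4 : ℝ) ≤ 1 := by
      have e1 : (X ^ (1 + δ) * A ^ (K * s)) ^ (4 / 3 : ℝ)
          = X ^ ((1 + δ) * (4 / 3)) * A ^ (K * s * (4 / 3)) := by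
        rw [Real.mul_rpow (hXpos _).le (hApos _).le, ← Real.rpow_mul hX0.le,
          ← Real.rpow_mul hA0.le]
      have e2 : X ^ δ * ε * A ^ (K * s) * (X ^ (1 + δ) * A ^ (K * s)) ^ (4 / 3 : ℝ)
          * A ^ (1 / 4 : ℝ)
          = ε * X ^ (δ + (1 + δ) * (4 / 3)) * A ^ (K * s + K * s * (4 / 3) + 1 / 4) := by
        rw [e1, Real.rpow_add hX0, Real.rpow_add hA0, Real.rpow_add hA0]
        ring
      rw [e2]
      refine le_trans ?_ hH
      have e3 : X ^ (δ + (1 + δ) * (4 / 3)) ≤ X ^ (4 / 3 + 3 / ((D : ℝ) + 1)) := by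
        apply hXmono
        rw [h3δ]
        linarith
      have e4 : A ^ (K * s + K * s * (4 / 3) + 1 / 4) ≤ A ^ (1 / 4 + 3 * K * s) := by
        apply hAmono
        nlinarith
      exact mul_le_mul (mul_le_mul_of_nonneg_left e3 hε0.le) e4 (hApos _).le
        (mul_nonneg hε0.le (hXpos _).le)
    obtain ⟨d, j', p', -, hj'1, hj'2, hp', -⟩ := hI A θ ρ (X ^ (1 + δ) * A ^ (K * s))
      (X ^ δ * ε * A ^ (K * s)) 0 (S.filter good) u v (fun _ => 0) hAA1 hX'1 hX'A hε'0 hmain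
      (fun a ha => hS a (Finset.mem_filter.mp ha).1)
      (by
        refine le_trans hhalf (le_trans ?_ hbig)
        linarith)
      (fun a ha => ⟨(huv a ha).1, (huv a ha).2.1⟩)
      (fun a ha => (huv a ha).2.2)
      (fun a _ => by rw [qf_zero]; simp)
    refine ⟨j', p', hj'1, hj'2.trans ?_, hp'.trans ?_⟩
    · rw [mul_assoc, ← Real.rpow_add hA0]
      refine mul_le_mul_of_nonneg_left (hAmono _ _ ?_) (hXpos _).le
      have : (0 : ℝ) ≤ d := Nat.cast_nonneg d
      nlinarith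
    · rw [mul_assoc (X ^ δ * ε), ← Real.rpow_add hA0]
      refine mul_le_mul_of_nonneg_left (hAmono _ _ ?_) (mul_nonneg (hXpos _).le hε0.le)
      have : (0 : ℝ) ≤ d := Nat.cast_nonneg d
      nlinarith
  · -- few homogeneous pairs
    rw [not_le] at hbig
    have hDat : Dat2 D A s C θ ρ τ X ε (S.filter fun a => ¬ good a) j p :=
      { hX1 := hX1
        hXA := hXA
        hεA := hεA
        hH := hH
        hθ0 := hθ0
        hθ1 := hθ1
        hρ0 := hρ0
        hρ1 := hρ1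
        hτ0 := hτ0
        hτ1 := hτ1
        hS := fun a ha => hS a (Finset.mem_filter.mp ha).1
        hj1 := fun a ha => (hj a (Finset.mem_filter.mp ha).1).1
        hjX := fun a ha => (hj a (Finset.mem_filter.mp ha).1).2
        hap := fun a ha => hap a (Finset.mem_filter.mp ha).1
        hno := by
          intro a ha u v hu1 hu2
          by_contra hcon
          rw [not_lt] at hcon
          exact (Finset.mem_filter.mp ha).2 ⟨u, v, hu1, hu2, hcon⟩ }
    obtain ⟨j', p', hj'1, hj'2, hp'⟩ := hCo A θ ρ τ X ε _ j p hAA2 hDat (by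
      refine le_trans hhalf ?_
      linarith)
    refine ⟨j', p', hj'1, hj'2.trans ?_, hp'.trans ?_⟩
    · have h1 : X ≤ X ^ (1 + δ) := by
        calc X = X ^ (1 : ℝ) := (Real.rpow_one X).symm
          _ ≤ X ^ (1 + δ) := hXmono _ _ (by linarith)
      exact mul_le_mul h1 (hAmono _ _ (by nlinarith)) (hApos _).le (hXpos _).le
    · have h1 : ε ≤ X ^ δ * ε := by
        have := Real.one_le_rpow hX1 hδ0.le
        nlinarith
      exact mul_le_mul h1 (hAmono _ _ (by nlinarith)) (hApos _).le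
        (mul_nonneg (hXpos _).le hε0.le)

end Pool.Agent.UHJ
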