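import Pool.Agent.UHJ.Stmts

/-!
# PIGN: pigeonhole for several linear forms modulo one (block 2 of MP_c538e3_nt)
-/

namespace Pool.Agent.UHJ

namespace PIGNaux

variable {n m : ℕ}

/-- the label of the box of `u` for the form `k` -/
noncomputable def lab (ℓ : Fin m → Fin n → ℝ) (b : Fin m → ℕ) (u : Fin n → ℤ) (k : Fin m) : ℕ :=
  ⌊(b k : ℝ) * Int.fract (∑ i, ℓ k i * (u i : ℝ))⌋₊

lemma lab_lt (ℓ : Fin m → Fin n → ℝ) (b : Fin m → ℕ) (u : Fin n → ℤ) (k : Fin m)
    (hb : 1 ≤ b k) : lab ℓ b u k < b k := by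
  unfold lab
  have h0 : 0 ≤ Int.fract (∑ i, ℓ k i * (u i : ℝ)) := Int.fract_nonneg _
  have h1 : Int.fract (∑ i, ℓ k i * (u i : ℝ)) < 1 := Int.fract_lt_one _
  have hb' : (1 : ℝ) ≤ b k := by exact_mod_cast hb
  rw [Nat.floor_lt (by positivity)]
  nlinarith

/-- the domain: integer points of a box -/
noncomputable def dom (M : Fin n → ℕ) : Finset (Fin n → ℤ) :=
  Fintype.piFinset fun i => Finset.Icc (0 : ℤ) (M i : ℤ)

lemma dom_card (M : Fin n → ℕ) : (dom M).card = ∏ i, (M i + 1) := by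
  unfold dom
  rw [Fintype.card_piFinset]
  refine Finset.prod_congr rfl fun i _ => ?_
  rw [Int.card_Icc]
  omega

/-- the codomain: all vectors of labels -/
noncomputable def cod (b : Fin m → ℕ) : Finset (Fin m → ℕ) :=
  Fintype.piFinset fun k => Finset.range (b k)

lemma cod_card (b : Fin m → ℕ) : (cod b).card = ∏ k, b k := by
  unfold cod
  rw [Fintype.card_piFinset]
  refine Finset.prod_congr rfl fun k _ => ?_
  rw [Finset.card_range]

/-- two points of one box have close fractional parts -/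
lemma close (ℓ : Fin m → Fin n → ℝ) (b : Fin m → ℕ) (u v : Fin n → ℤ) (k : Fin m)
    (h : lab ℓ b u k = lab ℓ b v k) :
    ∃ z : ℤ, |(z : ℝ) - ∑ i, ℓ k i * (((u - v) i : ℤ) : ℝ)| * b k ≤ 1 := by
  refine ⟨⌊∑ i, ℓ k i * (u i : ℝ)⌋ - ⌊∑ i, ℓ k i * (v i : ℝ)⌋, ?_⟩
  have hsum : ∑ i, ℓ k i * (((u - v) i : ℤ) : ℝ)
      = ∑ i, ℓ k i * (u i : ℝ) - ∑ i, ℓ k i * (v i : ℝ) := by
    rw [← Finset.sum_sub_distrib]
    refine Finset.sum_congr rfl fun i _ => ?_
    rw [Pi.sub_apply]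
    push_cast
    ring
  rw [hsum]
  unfold lab at h
  set P : ℝ := ∑ i, ℓ k i * (u i : ℝ) with hP
  set Q : ℝ := ∑ i, ℓ k i * (v i : ℝ) with hQ
  have hP1 : (⌊P⌋ : ℝ) + Int.fract P = P := Int.floor_add_fract P
  have hQ1 : (⌊Q⌋ : ℝ) + Int.fract Q = Q := Int.floor_add_fract Q
  have hb0 : (0 : ℝ) ≤ b k := Nat.cast_nonneg _
  have hPf : 0 ≤ (b k : ℝ) * Int.fract P := mul_nonneg hb0 (Int.fract_nonneg _)
  have hQf : 0 ≤ (b k : ℝ) * Int.fract Q := mul_nonneg hb0 (Int.fract_nonneg _)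
  have a1 := Nat.floor_le hPf
  have a2 := Nat.lt_floor_add_one ((b k : ℝ) * Int.fract P)
  have a3 := Nat.floor_le hQf
  have a4 := Nat.lt_floor_add_one ((b k : ℝ) * Int.fract Q)
  rw [h] at a1 a2
  have habs : |((⌊P⌋ - ⌊Q⌋ : ℤ) : ℝ) - (P - Q)| * b k
      = |((⌊P⌋ - ⌊Q⌋ : ℤ) : ℝ) * b k - (P - Q) * b k| := by
    rw [← sub_mul, abs_mul, abs_of_nonneg hb0]
  rw [habs]
  have hd : ((⌊P⌋ - ⌊Q⌋ : ℤ) : ℝ) * b k - (P - Q) * b k
      = (b k : ℝ) * Int.fract Q - (b k : ℝ) * Int.fract P := by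
    push_cast
    rw [← hP1, ← hQ1]
    simp only [Int.floor_add_fract]
    linear_combination (b k : ℝ) * hP1 - (b k : ℝ) * hQ1
  rw [hd, abs_le]
  constructor <;> linarith

end PIGNaux

open PIGNaux in
/-- **PIGN.** -/
theorem m_PIGN : Stmt_PIGN := by
  intro n m ℓ M b hb
  classical
  have hmaps : ∀ u ∈ dom M, (fun u => lab ℓ b u) u ∈ cod b := by
    intro u _
    unfold cod
    rw [Fintype.mem_piFinset]
    intro k
    rw [Finset.mem_range]
    exact lab_lt ℓ b u k (hb k)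
  have hne : (cod b).Nonempty := by
    refine ⟨fun _ => 0, ?_⟩
    unfold cod
    rw [Fintype.mem_piFinset]
    intro k
    rw [Finset.mem_range]
    exact hb k
  obtain ⟨y, hy, hmax⟩ := Finset.exists_max_image (cod b)
    (fun y => ((dom M).filter fun u => lab ℓ b u = y).card) hne
  have hcard : (dom M).card ≤ ((dom M).filter fun u => lab ℓ b u = y).card * (cod b).card :=
    Finset.card_le_mul_card_image_of_maps_to hmaps _ fun z hz => hmax z hz
  rw [dom_card, cod_card] at hcard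
  have hpos : 0 < ∏ i, (M i + 1) := Finset.prod_pos fun i _ => Nat.succ_pos _
  have hG : ((dom M).filter fun u => lab ℓ b u = y).Nonempty := by
    rw [← Finset.card_pos]
    by_contra hc
    have h0 : ((dom M).filter fun u => lab ℓ b u = y).card = 0 := by omega
    rw [h0] at hcard
    omega
  obtain ⟨u₀, hu₀⟩ := hG
  refine ⟨((dom M).filter fun u => lab ℓ b u = y).image fun u => u - u₀, ?_, ?_⟩
  · rw [Finset.card_image_of_injective _ (sub_left_injective)]
    exact hcard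
  · intro w hw
    rw [Finset.mem_image] at hw
    obtain ⟨u, hu, rfl⟩ := hw
    rw [Finset.mem_filter] at hu hu₀
    constructor
    · intro i
      have h1 := hu.1
      have h2 := hu₀.1
      unfold dom at h1 h2
      rw [Fintype.mem_piFinset] at h1 h2
      have h3 := h1 i
      have h4 := h2 i
      rw [Finset.mem_Icc] at h3 h4
      rw [Pi.sub_apply, abs_le]
      constructor <;> omega
    · intro k
      refine close ℓ b u u₀ k ?_
      rw [hu.2, hu₀.2]

end Pool.Agent.UHJ
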