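import Pool.Agent.UHJ.Stmts

/-!
# RESN: common divisors of the values divide one nonzero integer of controlled size
-/

set_option autoImplicit false

namespace Pool.Agent.UHJ

open Polynomial

namespace RESNaux

lemma ne_zero {F G : ℤ[X]}
    (h : IsCoprime (F.map (Int.castRingHom ℚ)) (G.map (Int.castRingHom ℚ))) :
    F ≠ 0 ∨ G ≠ 0 := by
  by_contra hc
  push Not at hc
  rw [hc.1, hc.2, Polynomial.map_zero] at h
  exact not_isCoprime_zero_zero h

lemma res_ne_zero {F G : ℤ[X]}
    (h : IsCoprime (F.map (Int.castRingHom ℚ)) (G.map (Int.castRingHom ℚ))) :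
    resultant F G ≠ 0 := by
  intro h0
  have h1 := resultant_ne_zero _ _ h
  have hi : Function.Injective (Int.castRingHom ℚ) := (Int.castRingHom ℚ).injective_int
  rw [natDegree_map_eq_of_injective hi, natDegree_map_eq_of_injective hi, resultant_map_map,
    h0, map_zero] at h1
  exact h1 rfl

lemma res_le {n : ℕ} {F G : ℤ[X]} {B : ℝ} (hF : F.natDegree ≤ n) (hG : G.natDegree ≤ n)
    (hB : 1 ≤ B) (h1 : ∀ k, |(F.coeff k : ℝ)| ≤ B) (h2 : ∀ k, |(G.coeff k : ℝ)| ≤ B) :
    |((resultant F G : ℤ) : ℝ)| ≤ ((2 * n).factorial : ℝ) * B ^ (2 * n + 1) := by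
  have h3 : ((resultant F G : ℤ) : ℝ) =
      (sylvester (F.map (Int.castRingHom ℝ)) (G.map (Int.castRingHom ℝ)) F.natDegree
        G.natDegree).det := by
    have := resultant_map_map F G F.natDegree G.natDegree (Int.castRingHom ℝ)
    rw [resultant] at this
    rw [this]
    rfl
  have h4 : ∀ i j, AbsoluteValue.abs
      ((sylvester (F.map (Int.castRingHom ℝ)) (G.map (Int.castRingHom ℝ)) F.natDegree
        G.natDegree) i j) ≤ B := by
    intro i j
    rw [AbsoluteValue.abs_apply]
    induction j using Fin.addCases with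
    | left j =>
      simp only [sylvester, Matrix.of_apply, Fin.addCases_left]
      split_ifs
      · rw [coeff_map]; exact h2 _
      · rw [abs_zero]; linarith
    | right j =>
      simp only [sylvester, Matrix.of_apply, Fin.addCases_right]
      split_ifs
      · rw [coeff_map]; exact h1 _
      · rw [abs_zero]; linarith
  have h5 := Matrix.det_le h4
  rw [AbsoluteValue.abs_apply, ← h3, Fintype.card_fin, nsmul_eq_mul] at h5
  have h6 : F.natDegree + G.natDegree ≤ 2 * n := by omega
  have h7 : (F.natDegree + G.natDegree).factorial ≤ (2 * n).factorial := Nat.factorial_le h6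
  have h8 : ((F.natDegree + G.natDegree).factorial : ℝ) ≤ ((2 * n).factorial : ℝ) := by
    exact_mod_cast h7
  have h9 : B ^ (F.natDegree + G.natDegree) ≤ B ^ (2 * n + 1) :=
    pow_le_pow_right₀ hB (by omega)
  exact h5.trans (mul_le_mul h8 h9 (by positivity) (by positivity))

lemma const {n : ℕ} {F G : ℤ[X]} {B : ℝ} {c : ℤ} (hF : F = C c ∨ G = C c) (hc : c ≠ 0)
    (hB : 1 ≤ B) (h1 : |(c : ℝ)| ≤ B) : ∃ R : ℕ, 1 ≤ R ∧
      (R : ℝ) ≤ ((2 * n).factorial : ℝ) * B ^ (2 * n + 1) ∧
      ∀ a d : ℤ, d ∣ F.eval a → d ∣ G.eval a → d ∣ (R : ℤ) := by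
  refine ⟨c.natAbs, Int.natAbs_pos.2 hc, ?_, ?_⟩
  · have h2 : ((c.natAbs : ℕ) : ℝ) = |(c : ℝ)| := by
      rw [← Int.cast_natCast, Int.natCast_natAbs, Int.cast_abs]
    rw [h2]
    have h3 : B ≤ B ^ (2 * n + 1) := le_self_pow₀ hB (by omega)
    have h4 : 0 ≤ B ^ (2 * n + 1) := by positivity
    have h5 : (1 : ℝ) ≤ ((2 * n).factorial : ℝ) := by
      exact_mod_cast Nat.one_le_iff_ne_zero.2 (Nat.factorial_ne_zero _)
    nlinarith [mul_nonneg (sub_nonneg.2 h5) h4]
  · intro a d h2 h3
    rw [Int.dvd_natAbs]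
    rcases hF with h | h
    · rwa [h, eval_C] at h2
    · rwa [h, eval_C] at h3

end RESNaux

open RESNaux in
theorem m_RESN : Stmt_RESN := by
  intro n F G B hF hG hco hB h1 h2
  by_cases h0 : F.natDegree = 0 ∧ G.natDegree = 0
  · obtain ⟨hF0, hG0⟩ := h0
    rw [natDegree_eq_zero] at hF0 hG0
    obtain ⟨c, hc⟩ := hF0
    obtain ⟨e, he⟩ := hG0
    rcases ne_zero hco with h | h
    · refine const (F := F) (G := G) (c := c) (Or.inl hc.symm) ?_ hB ?_
      · rintro rfl
        exact h (by rw [← hc, C_0])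
      · have := h1 0
        rwa [← hc, coeff_C_zero] at this
    · refine const (F := F) (G := G) (c := e) (Or.inr he.symm) ?_ hB ?_
      · rintro rfl
        exact h (by rw [← he, C_0])
      · have := h2 0
        rwa [← he, coeff_C_zero] at this
  · have h3 : F.natDegree ≠ 0 ∨ G.natDegree ≠ 0 := by
      by_contra hc
      push Not at hc
      exact h0 hc
    obtain ⟨p, q, -, -, hpq⟩ := exists_mul_add_mul_eq_C_resultant F G (m := F.natDegree)
      (n := G.natDegree) le_rfl le_rfl h3
    refine ⟨(resultant F G).natAbs, Int.natAbs_pos.2 (res_ne_zero hco), ?_, ?_⟩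
    · have h4 : (((resultant F G).natAbs : ℕ) : ℝ) = |((resultant F G : ℤ) : ℝ)| := by
        rw [← Int.cast_natCast, Int.natCast_natAbs, Int.cast_abs]
      rw [h4]
      exact res_le hF hG hB h1 h2
    · intro a d h4 h5
      rw [Int.dvd_natAbs]
      have h6 := congrArg (eval a) hpq
      rw [eval_add, eval_mul, eval_mul, eval_C] at h6
      rw [← h6]
      exact dvd_add (h4.mul_right _) (h5.mul_right _)

end Pool.Agent.UHJ
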