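import Pool.Agent.UHJ.Stmts

namespace Pool.Agent.UHJ

open Polynomial Pool.Agent.UHI

namespace RK1aux

/-- the non-roots in a large set -/
theorem nonroots (D : ℕ) (U : ℤ[X]) (T : Finset ℤ) (hU : U ≠ 0) (hd : U.natDegree ≤ D)
    (hT : 2 * D + 1 ≤ T.card) : ∃ t : Fin (D + 1) → ℤ, Function.Injective t ∧
      ∀ i, t i ∈ T ∧ U.eval (t i) ≠ 0 := by
  classical
  have h1 : (T.filter (fun a => U.eval a = 0)).card ≤ D := by
    have hsub : T.filter (fun a => U.eval a = 0) ⊆ U.roots.toFinset := by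
      intro a ha
      rw [Finset.mem_filter] at ha
      rw [Multiset.mem_toFinset, mem_roots hU]
      exact ha.2
    calc (T.filter (fun a => U.eval a = 0)).card ≤ U.roots.toFinset.card := Finset.card_le_card hsub
      _ ≤ Multiset.card U.roots := Multiset.toFinset_card_le _
      _ ≤ U.natDegree := card_roots' U
      _ ≤ D := hd
  have h2 := Finset.card_filter_add_card_filter_not (s := T) (fun a => U.eval a = 0)
  have h3 : D + 1 ≤ (T.filter (fun a => ¬ U.eval a = 0)).card := by omega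
  obtain ⟨T', hT's, hT'c⟩ := Finset.exists_subset_card_eq h3
  refine ⟨fun i => (T'.orderEmbOfFin hT'c i : ℤ), ?_, ?_⟩
  · intro i j hij
    exact (T'.orderEmbOfFin hT'c).injective hij
  · intro i
    have h4 : (T'.orderEmbOfFin hT'c i : ℤ) ∈ T' := Finset.orderEmbOfFin_mem T' hT'c i
    have h5 := hT's h4
    rw [Finset.mem_filter] at h5
    exact h5

/-- the homogeneous pair at a point where the factor is large -/
theorem pair (M B1 B2 c U V g : ℝ) (hM : 0 < M) (hc : M < |c|) (h1 : |c * U| ≤ B1)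
    (h2 : |c * V + g * (c * U)| ≤ B2) : |U| ≤ B1 / M ∧ |V + g * U| ≤ B2 / M := by
  constructor
  · rw [le_div_iff₀ hM]
    rw [abs_mul] at h1
    nlinarith [abs_nonneg U]
  · rw [le_div_iff₀ hM]
    have h3 : c * V + g * (c * U) = c * (V + g * U) := by ring
    rw [h3, abs_mul] at h2
    nlinarith [abs_nonneg (V + g * U)]

end RK1aux

theorem m_RK1 (hCNT : Stmt_CNT) : Stmt_RK1 := by
  classical
  intro D M B1 B2 F U0 V0 T g hinj hU0 hdeg hM hF hFdeg hfac hT hb
  obtain ⟨t, htinj, ht⟩ := RK1aux.nonroots D U0 T hU0 hdeg hT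
  by_contra hcon
  push Not at hcon
  have hval : ∀ x ∈ F, ∀ c : ℤ[X], x.1 = c * U0 → x.2.1 = c * V0 → ∀ i,
      |((c.eval (t i) : ℤ) : ℝ)| ≤ M := by
    intro x hx c hc1 hc2 i
    by_contra hlt
    push Not at hlt
    obtain ⟨hb1, hb2⟩ := hb (t i) (ht i).1 x hx
    rw [hc1, eval_mul] at hb1
    rw [hc1, hc2, eval_mul, eval_mul] at hb2
    push_cast at hb1 hb2
    obtain ⟨hp1, hp2⟩ := RK1aux.pair M B1 B2 _ _ _ _ hM hlt hb1 hb2
    have hne := (ht i).2
    rcases lt_or_gt_of_ne hne with hneg | hpos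
    · have h3 := hcon (t i) (ht i).1 (-(U0.eval (t i))) (V0.eval (t i)) (by omega)
        (by
          push_cast
          have : -((U0.eval (t i) : ℤ) : ℝ) ≤ |((U0.eval (t i) : ℤ) : ℝ)| := neg_le_abs _
          linarith)
      push_cast at h3
      have h4 : ((V0.eval (t i) : ℤ) : ℝ) - -((U0.eval (t i) : ℤ) : ℝ) * g (t i)
          = ((V0.eval (t i) : ℤ) : ℝ) + g (t i) * ((U0.eval (t i) : ℤ) : ℝ) := by ring
      rw [h4] at h3
      linarith
    · have h3 := hcon (t i) (ht i).1 (U0.eval (t i)) (-(V0.eval (t i))) (by omega)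
        (by
          have : ((U0.eval (t i) : ℤ) : ℝ) ≤ |((U0.eval (t i) : ℤ) : ℝ)| := le_abs_self _
          linarith)
      push_cast at h3
      have h4 : -((V0.eval (t i) : ℤ) : ℝ) - ((U0.eval (t i) : ℤ) : ℝ) * g (t i)
          = -(((V0.eval (t i) : ℤ) : ℝ) + g (t i) * ((U0.eval (t i) : ℤ) : ℝ)) := by ring
      rw [h4, abs_neg] at h3
      linarith
  choose! c hc using hfac
  have hcinj : Set.InjOn c (F : Set (ℤ[X] × ℤ[X] × ℤ[X])) := by
    intro x hx y hy hxy
    apply hinj hx hy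
    rw [(hc x hx).1, (hc y hy).1, hxy]
  have hcard : (F.image c).card = F.card := Finset.card_image_of_injOn hcinj
  have hcnt := hCNT D M (F.image c) t htinj hM.le
    (by
      intro q hq
      rw [Finset.mem_image] at hq
      obtain ⟨x, hx, rfl⟩ := hq
      by_cases h0 : c x = 0
      · rw [h0]; simp
      · have h5 := hFdeg x hx
        rw [(hc x hx).1, natDegree_mul h0 hU0] at h5
        omega)
    (by
      intro q hq i
      rw [Finset.mem_image] at hq
      obtain ⟨x, hx, rfl⟩ := hq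
      exact hval x hx (c x) (hc x hx).1 (hc x hx).2 i)
  rw [hcard] at hcnt
  linarith

end Pool.Agent.UHJ
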