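import Pool.Agent.UHJ.Stmts

/-!
# `Stmt_RK2`: two independent relations
-/

namespace Pool.Agent.UHJ

open Polynomial Pool.Agent.UHI

namespace RK2aux

theorem deg_le_of_mul {h J N : ℤ[X]} {n : ℕ} (hh : h ≠ 0) (hN : N.natDegree ≤ n) (e : N = h * J) :
    J.natDegree ≤ n := by
  by_cases hJ : J = 0
  · rw [hJ, natDegree_zero]
    exact Nat.zero_le _
  · have h1 : N.natDegree = h.natDegree + J.natDegree := by
      rw [e]
      exact natDegree_mul hh hJ
    omega

theorem deg_comb {A B A' B' : ℤ[X]} {m n k : ℕ} (hA : A.natDegree ≤ m) (hB : B.natDegree ≤ n)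
    (hA' : A'.natDegree ≤ m) (hB' : B'.natDegree ≤ n) (hk : m + n ≤ k) :
    (A * B' - A' * B).natDegree ≤ k := by
  have h1 : (A * B').natDegree ≤ k := by
    have := natDegree_mul_le (p := A) (q := B')
    omega
  have h2 : (A' * B).natDegree ≤ k := by
    have := natDegree_mul_le (p := A') (q := B)
    omega
  exact (natDegree_sub_le _ _).trans (max_le h1 h2)

theorem eq_zero_of_roots {N : ℤ[X]} {n : ℕ} (T : Finset ℤ) (hN : N.natDegree ≤ n)
    (hT : n + 1 ≤ T.card) (h0 : ∀ a ∈ T, N.eval a = 0) : N = 0 := by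
  by_contra hne
  have h1 : T ⊆ N.roots.toFinset := by
    intro a ha
    rw [Multiset.mem_toFinset, mem_roots hne]
    exact h0 a ha
  have h2 : T.card ≤ N.roots.toFinset.card := Finset.card_le_card h1
  have h3 : N.roots.toFinset.card ≤ Multiset.card N.roots := Multiset.toFinset_card_le _
  have h4 : Multiset.card N.roots ≤ N.natDegree := card_roots' N
  omega

end RK2aux

open RK2aux

theorem m_RK2 : Stmt_TPRIM → Stmt_RK2 := by
  intro hprim D U V W U' V' W' T j p hU hV hW hU' hV' hW' hind hT h1 h2
  -- the two combined relations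
  have hj : ∀ a ∈ T, (U * V' - U' * V).eval a * j a = (W * U' - W' * U).eval a := by
    intro a ha
    have e1 := h1 a ha
    have e2 := h2 a ha
    simp only [eval_sub, eval_mul]
    linear_combination U.eval a * e2 - U'.eval a * e1
  have hp : ∀ a ∈ T, (U * V' - U' * V).eval a * p a = (V * W' - V' * W).eval a := by
    intro a ha
    have e1 := h1 a ha
    have e2 := h2 a ha
    simp only [eval_sub, eval_mul]
    linear_combination V'.eval a * e1 - V.eval a * e2
  have d1 : (U * V' - U' * V).natDegree ≤ 2 * D + 1 :=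
    deg_comb hU hV hU' hV' (by omega)
  have dj : (W * U' - W' * U).natDegree ≤ 2 * D :=
    deg_comb hW hU hW' hU' (by omega)
  have dp : (V * W' - V' * W).natDegree ≤ 2 * D + 1 :=
    deg_comb hV hW hV' hW' (by omega)
  have hne : U * V' - U' * V ≠ 0 := by
    intro h0
    apply hind
    have hz : W * U' - W' * U = 0 := by
      apply eq_zero_of_roots T dj (by omega)
      intro a ha
      rw [← hj a ha, h0, eval_zero, zero_mul]
    constructor
    · exact (sub_eq_zero.mp h0).symm
    · have := sub_eq_zero.mp hz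
      rw [mul_comm U' W, mul_comm U W']
      exact this
  obtain ⟨h, D0, J, P, hh, e1, ej, ep, hP⟩ :=
    hprim (U * V' - U' * V) (W * U' - W' * U) (V * W' - V' * W) hne
  have hD0 : D0 ≠ 0 := by
    intro h0
    apply hne
    rw [e1, h0, mul_zero]
  refine ⟨h, D0, J, P, hh, hD0, hP, ?_, ?_, ?_, ?_, e1.symm, ej.symm, ep.symm, ?_⟩
  · exact deg_le_of_mul hD0 d1 (by rw [e1, mul_comm])
  · exact deg_le_of_mul hh d1 e1
  · exact deg_le_of_mul hh (dj.trans (by omega)) ej
  · exact deg_le_of_mul hh dp ep
  · intro a ha hha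
    have q1 := hj a ha
    have q2 := hp a ha
    rw [e1] at q1 q2
    rw [ej] at q1
    rw [ep] at q2
    simp only [eval_mul] at q1 q2
    constructor
    · apply mul_left_cancel₀ hha
      rw [← q1]
      ring
    · apply mul_left_cancel₀ hha
      rw [← q2]
      ring

end Pool.Agent.UHJ
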