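import Pool.Agent.UHJ.Stmts

/-!
# The inhomogeneous inverse theorem for `j_a` of arbitrary sign
-/

set_option autoImplicit false

namespace Pool.Agent.UHJ

open Pool.Agent.UHI

/-- **INV2S.** The inhomogeneous inverse theorem, signed version: `|j_a| <= X`, `j_a = 0` allowed. -/
def Stmt_INV2S : Prop :=
  ∀ C η : ℝ, 1 ≤ C → 0 < η → η ≤ 1 → ∃ s A0 : ℝ, 0 < s ∧ s ≤ 1 / 20000 ∧ 1 ≤ A0 ∧
    ∀ (A θ ρ τ X ε : ℝ) (S : Finset ℤ) (j p : ℤ → ℤ), A0 ≤ A →
      1 ≤ X → X ≤ A ^ C → A ^ (-C) ≤ ε → ε * X ^ (4 / 3 : ℝ) * A ^ (1 / 4 + η) ≤ 1 →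
      (∀ a ∈ S, A / 2 ≤ (a : ℝ) ∧ (a : ℝ) ≤ A) → A ^ (1 - s) ≤ (S.card : ℝ) →
      (∀ a ∈ S, |(j a : ℝ)| ≤ X) →
      (∀ a ∈ S, |(p a : ℝ) + τ - j a * (θ * a + ρ)| ≤ ε) →
        (∃ p0 : ℤ, |(p0 : ℝ) + τ| ≤ ε) ∨
        ∃ j' p' : ℤ, 1 ≤ j' ∧ (j' : ℝ) ≤ X * A ^ η ∧
          |(p' : ℝ) - j' * θ| ≤ ε * A ^ (-1 + η)

theorem inv2S (h : Stmt_INV2) : Stmt_INV2S := by
  classical
  intro C η hC hη hη1
  obtain ⟨s, A0, hs, hs1, hA0, H⟩ := h C η hC hη hη1
  refine ⟨s / 2, max A0 ((2 : ℝ) ^ (2 / s)), by linarith, by linarith, hA0.trans (le_max_left _ _), ?_⟩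
  intro A θ ρ τ X ε S j p hA hX hXA hεA hH hS hcard hj hp
  have hA0' : A0 ≤ A := (le_max_left _ _).trans hA
  have hA1 : 1 ≤ A := hA0.trans hA0'
  have hApos : 0 < A := by linarith
  have h2 : (2 : ℝ) ≤ A ^ (s / 2) := by
    have h3 : ((2 : ℝ) ^ (2 / s)) ^ (s / 2) ≤ A ^ (s / 2) :=
      Real.rpow_le_rpow (by positivity) ((le_max_right _ _).trans hA) (by linarith)
    rw [← Real.rpow_mul (by norm_num)] at h3
    have h4 : 2 / s * (s / 2) = 1 := by
      field_simp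
    rw [h4, Real.rpow_one] at h3
    exact h3
  have hhalf : ∀ T : Finset ℤ, (S.card : ℝ) / 2 ≤ (T.card : ℝ) → A ^ (1 - s) ≤ (T.card : ℝ) := by
    intro T hT
    have h5 : A ^ (1 - s) * A ^ (s / 2) = A ^ (1 - s / 2) := by
      rw [← Real.rpow_add hApos]
      congr 1
      ring
    have h6 : A ^ (1 - s) * 2 ≤ A ^ (1 - s) * A ^ (s / 2) :=
      mul_le_mul_of_nonneg_left h2 (Real.rpow_nonneg hApos.le _)
    rw [h5] at h6
    linarith
  by_cases h0 : ∃ a ∈ S, j a = 0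
  · obtain ⟨a, ha, hj0⟩ := h0
    left
    refine ⟨p a, ?_⟩
    have h7 := hp a ha
    rw [hj0, Int.cast_zero, zero_mul, sub_zero] at h7
    exact h7
  · right
    push Not at h0
    have hsplit : (S.filter (fun a => 1 ≤ j a)).card + (S.filter (fun a => ¬ 1 ≤ j a)).card = S.card :=
      Finset.card_filter_add_card_filter_not (fun a => 1 ≤ j a)
    have hsplit' : ((S.filter (fun a => 1 ≤ j a)).card : ℝ) +
        ((S.filter (fun a => ¬ 1 ≤ j a)).card : ℝ) = (S.card : ℝ) := by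
      exact_mod_cast hsplit
    rcases le_total ((S.card : ℝ) / 2) ((S.filter (fun a => 1 ≤ j a)).card : ℝ) with h8 | h8
    · refine H A θ ρ τ X ε (S.filter (fun a => 1 ≤ j a)) j p hA0' hX hXA hεA hH
        (fun a ha => hS a (Finset.mem_filter.1 ha).1) (hhalf _ h8) ?_
        (fun a ha => hp a (Finset.mem_filter.1 ha).1)
      intro a ha
      exact ⟨(Finset.mem_filter.1 ha).2, (le_abs_self _).trans (hj a (Finset.mem_filter.1 ha).1)⟩
    · refine H A θ ρ (-τ) X ε (S.filter (fun a => ¬ 1 ≤ j a)) (fun a => -j a) (fun a => -p a) hA0' hX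
        hXA hεA hH (fun a ha => hS a (Finset.mem_filter.1 ha).1) (hhalf _ (by linarith)) ?_ ?_
      · intro a ha
        obtain ⟨ha1, ha2⟩ := Finset.mem_filter.1 ha
        have h9 := h0 a ha1
        refine ⟨by omega, ?_⟩
        have h10 := hj a ha1
        push_cast
        exact (neg_le_abs _).trans h10
      · intro a ha
        have h11 := hp a (Finset.mem_filter.1 ha).1
        have h12 : (((-p a : ℤ) : ℝ) + -τ - ((-j a : ℤ) : ℝ) * (θ * a + ρ)) =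
            -((p a : ℝ) + τ - j a * (θ * a + ρ)) := by
          push_cast
          ring
        rw [h12, abs_neg]
        exact h11

end Pool.Agent.UHJ
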