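import Pool.Agent.UHJ.Stmts

/-!
# STEP2 of the inhomogeneous inverse theorem (MP_c538e3_nt, lower bound 1/3)
From `T` (a dense part of `cut S v l`) to all of `cut S u L`: Lagrange interpolation on `2 D + 3` well
spaced points of `T` bounds `J` and `P + d τ - (θ x + ρ) J` on the larger interval; the pair
`(J(a) - d j_a, P(a) - d p_a)` would be a homogeneous pair at `a`, so it is zero.
-/

namespace Pool.Agent.UHJ

open Polynomial Pool.Agent.UHI

namespace STEP2aux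

lemma mem_cut {S : Finset ℤ} {u L : ℝ} {a : ℤ} :
    a ∈ cut S u L ↔ a ∈ S ∧ u ≤ (a : ℝ) ∧ (a : ℝ) ≤ u + L := by
  simp [cut]

lemma eval_map_int (F : ℤ[X]) (a : ℤ) :
    (F.map (Int.castRingHom ℝ)).eval (a : ℝ) = ((F.eval a : ℤ) : ℝ) := by
  rw [Polynomial.eval_intCast_map]; simp

/-- the real polynomial `P + t - (θ x + ρ) J` -/
noncomputable def HP (θ ρ t : ℝ) (J P : ℤ[X]) : ℝ[X] :=
  P.map (Int.castRingHom ℝ) + C t - J.map (Int.castRingHom ℝ) * (C θ * X + C ρ)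

lemma HP_natDegree (n : ℕ) (θ ρ t : ℝ) (J P : ℤ[X]) (hJ : J.natDegree ≤ n) (hP : P.natDegree ≤ n) :
    (HP θ ρ t J P).natDegree ≤ n + 1 := by
  unfold HP
  refine (natDegree_sub_le _ _).trans (max_le ?_ ?_)
  · refine (natDegree_add_le _ _).trans (max_le ?_ ?_)
    · exact (natDegree_map_le).trans (by omega)
    · rw [natDegree_C]; omega
  · refine (natDegree_mul_le).trans ?_
    have h1 : (C θ * X + C ρ : ℝ[X]).natDegree ≤ 1 := natDegree_linear_le
    have h2 : (J.map (Int.castRingHom ℝ)).natDegree ≤ n := (natDegree_map_le).trans hJ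
    omega

lemma HP_eval (θ ρ t : ℝ) (J P : ℤ[X]) (a : ℤ) :
    (HP θ ρ t J P).eval (a : ℝ) =
      ((P.eval a : ℤ) : ℝ) + t - ((J.eval a : ℤ) : ℝ) * (θ * a + ρ) := by
  unfold HP
  rw [eval_sub, eval_add, eval_mul, eval_map_int, eval_map_int]
  simp

/-- the constant of the interpolation -/
noncomputable def Kc (D : ℕ) : ℝ := 2 * (2 * (D : ℝ) + 3) * (16 * ((D : ℝ) + 1)) ^ (2 * D + 2)

lemma Kc_ge (D : ℕ) : 16 * ((D : ℝ) + 1) ≤ Kc D := by
  unfold Kc
  have hD : (0 : ℝ) ≤ D := Nat.cast_nonneg D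
  have h1 : (1 : ℝ) ≤ 16 * ((D : ℝ) + 1) := by linarith
  have h2 : 16 * ((D : ℝ) + 1) ≤ (16 * ((D : ℝ) + 1)) ^ (2 * D + 2) := by
    calc 16 * ((D : ℝ) + 1) = (16 * ((D : ℝ) + 1)) ^ 1 := (pow_one _).symm
      _ ≤ _ := pow_le_pow_right₀ h1 (by omega)
  have h3 : (1 : ℝ) ≤ 2 * (2 * (D : ℝ) + 3) := by linarith
  have h4 : (0 : ℝ) ≤ (16 * ((D : ℝ) + 1)) ^ (2 * D + 2) := by positivity
  nlinarith

end STEP2aux

open STEP2aux

theorem m_STEP2 : UHI.Stmt_SPR → UHI.Stmt_LAGV → Stmt_STEP2 := by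
  intro hSPR hLAGV D C s hD2 hC hs0 hs1
  have hDr : (2 : ℝ) ≤ (D : ℝ) := by exact_mod_cast hD2
  have hKc := Kc_ge D
  have hKcpos : 0 < Kc D := by linarith
  refine ⟨max 1 ((Kc D) ^ (1 / s)), le_max_left _ _, ?_⟩
  intro A θ ρ τ X ε S j p hA0 hDat d J P T v l u L hd0 hd hJ hP hl hTsub hTc hT huv hvl hLl a ha
  have hA1 : 1 ≤ A := (le_max_left _ _).trans hA0
  have hAK : (Kc D) ^ (1 / s) ≤ A := (le_max_right _ _).trans hA0
  have hApos : 0 < A := by linarith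
  -- A^s is large
  have hAs : Kc D ≤ A ^ s := by
    have h := Real.rpow_le_rpow (Real.rpow_nonneg hKcpos.le _) hAK hs0.le
    rw [← Real.rpow_mul hKcpos.le, one_div, inv_mul_cancel₀ hs0.ne', Real.rpow_one] at h
    exact h
  have hAs48 : 48 ≤ A ^ s := by linarith
  have hAlt : 1 < A := by
    rcases lt_or_eq_of_le hA1 with h | h
    · exact h
    · rw [← h, Real.one_rpow] at hAs48
      norm_num at hAs48
  have hX1 := hDat.hX1
  have hXpos : 0 < X := by linarith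
  have hεpos : 0 < ε := lt_of_lt_of_le (Real.rpow_pos_of_pos hApos _) hDat.hεA
  have hlpos : 0 < l := lt_of_lt_of_le (Real.rpow_pos_of_pos hApos _) hl
  have hLpos : 0 < L := by linarith
  -- the spacing
  have hbig : A ^ s ≤ A ^ (-(2 * s)) * l := by
    have h1 : A ^ (-(2 * s)) * A ^ (5 * s) = A ^ (3 * s) := by
      rw [← Real.rpow_add hApos]; congr 1; ring
    have h2 : A ^ s ≤ A ^ (3 * s) := Real.rpow_le_rpow_of_exponent_le hA1 (by linarith)
    have h3 : A ^ (-(2 * s)) * A ^ (5 * s) ≤ A ^ (-(2 * s)) * l :=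
      mul_le_mul_of_nonneg_left hl (Real.rpow_nonneg hApos.le _)
    linarith
  set q : ℝ := A ^ (-(2 * s)) * l with hq
  have hqpos : 0 < q := by linarith
  have h8 : (0 : ℝ) < 8 * ((D : ℝ) + 1) := by linarith
  set m : ℕ := ⌊q / (8 * ((D : ℝ) + 1))⌋₊ with hm
  have hm1 : (m : ℝ) ≤ q / (8 * ((D : ℝ) + 1)) := Nat.floor_le (by positivity)
  have hq2 : 2 ≤ q / (8 * ((D : ℝ) + 1)) := by
    rw [le_div_iff₀ h8]; linarith
  have hm2 : q / (16 * ((D : ℝ) + 1)) ≤ (m : ℝ) := by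
    have h1 := Nat.lt_floor_add_one (q / (8 * ((D : ℝ) + 1)))
    rw [← hm] at h1
    have h2 : q / (16 * ((D : ℝ) + 1)) = q / (8 * ((D : ℝ) + 1)) / 2 := by
      rw [div_div]; congr 1; ring
    rw [h2]
    linarith
  have hmpos : (0 : ℝ) < m := lt_of_lt_of_le (by positivity) hm2
  have hcard : (2 * D + 2) * m + 1 ≤ T.card := by
    have h : (((2 * D + 2) * m + 1 : ℕ) : ℝ) ≤ (T.card : ℝ) := by
      push_cast
      have h1 : (2 * (D : ℝ) + 2) * (m : ℝ) ≤ (2 * (D : ℝ) + 2) * (q / (8 * ((D : ℝ) + 1))) :=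
        mul_le_mul_of_nonneg_left hm1 (by linarith)
      have h2 : (2 * (D : ℝ) + 2) * (q / (8 * ((D : ℝ) + 1))) = q / 4 := by
        field_simp
        ring
      linarith
    exact_mod_cast h
  obtain ⟨b, hbT, hsp⟩ := hSPR (2 * D + 2) m T hcard
  have hspR : ∀ i < 2 * D + 2, ((b i : ℤ) : ℝ) + (m : ℝ) ≤ ((b (i + 1) : ℤ) : ℝ) := by
    intro i hi
    exact_mod_cast hsp i hi
  obtain ⟨haS, hau, hauL⟩ := mem_cut.1 ha
  have hW : ∀ i ≤ 2 * D + 2, |(a : ℝ) - ((b i : ℤ) : ℝ)| ≤ L := by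
    intro i hi
    have h1 := (mem_cut.1 (hTsub (hbT i hi))).2
    rw [abs_le]
    constructor <;> linarith [h1.1, h1.2]
  -- the ratio
  have hratio : ((2 * D + 2 : ℕ) + 1 : ℝ) * (L / m) ^ (2 * D + 2) ≤
      A ^ ((8 * ((D : ℝ) + 1) + 1) * s) / 2 := by
    have h1 : L / m ≤ 16 * ((D : ℝ) + 1) * A ^ (4 * s) := by
      rw [div_le_iff₀ hmpos]
      have h2 : 16 * ((D : ℝ) + 1) * A ^ (4 * s) * (q / (16 * ((D : ℝ) + 1))) ≤
          16 * ((D : ℝ) + 1) * A ^ (4 * s) * (m : ℝ) :=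
        mul_le_mul_of_nonneg_left hm2 (by positivity)
      have h3 : 16 * ((D : ℝ) + 1) * A ^ (4 * s) * (q / (16 * ((D : ℝ) + 1))) = A ^ (2 * s) * l := by
        have h4 : A ^ (4 * s) * A ^ (-(2 * s)) = A ^ (2 * s) := by
          rw [← Real.rpow_add hApos]; congr 1; ring
        rw [hq, ← h4]
        field_simp
      linarith
    have h4 : (L / m) ^ (2 * D + 2) ≤ (16 * ((D : ℝ) + 1)) ^ (2 * D + 2) * A ^ (8 * ((D : ℝ) + 1) * s) := by
      have h5 : (16 * ((D : ℝ) + 1) * A ^ (4 * s)) ^ (2 * D + 2) =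
          (16 * ((D : ℝ) + 1)) ^ (2 * D + 2) * A ^ (8 * ((D : ℝ) + 1) * s) := by
        rw [mul_pow, ← Real.rpow_natCast (A ^ (4 * s)) (2 * D + 2), ← Real.rpow_mul hApos.le]
        congr 2
        push_cast
        ring
      rw [← h5]
      exact pow_le_pow_left₀ (by positivity) h1 _
    have h6 : A ^ ((8 * ((D : ℝ) + 1) + 1) * s) = A ^ (8 * ((D : ℝ) + 1) * s) * A ^ s := by
      rw [← Real.rpow_add hApos]; congr 1; ring
    rw [h6]
    have h7 : ((2 * D + 2 : ℕ) + 1 : ℝ) = 2 * (D : ℝ) + 3 := by push_cast; ring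
    rw [h7]
    have h8' : (2 * (D : ℝ) + 3) * (16 * ((D : ℝ) + 1)) ^ (2 * D + 2) ≤ A ^ s / 2 := by
      have : Kc D = 2 * ((2 * (D : ℝ) + 3) * (16 * ((D : ℝ) + 1)) ^ (2 * D + 2)) := by
        unfold Kc; ring
      linarith
    calc (2 * (D : ℝ) + 3) * (L / m) ^ (2 * D + 2)
        ≤ (2 * (D : ℝ) + 3) *
          ((16 * ((D : ℝ) + 1)) ^ (2 * D + 2) * A ^ (8 * ((D : ℝ) + 1) * s)) :=
          mul_le_mul_of_nonneg_left h4 (by linarith)
      _ = ((2 * (D : ℝ) + 3) * (16 * ((D : ℝ) + 1)) ^ (2 * D + 2)) * A ^ (8 * ((D : ℝ) + 1) * s) := by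
          ring
      _ ≤ (A ^ s / 2) * A ^ (8 * ((D : ℝ) + 1) * s) :=
          mul_le_mul_of_nonneg_right h8' (Real.rpow_nonneg hApos.le _)
      _ = _ := by ring
  set E : ℝ := A ^ ((8 * ((D : ℝ) + 1) + 1) * s) with hE
  have hE2 : 2 ≤ E := by
    have h1 : A ^ s ≤ E := by
      rw [hE]
      refine Real.rpow_le_rpow_of_exponent_le hA1 ?_
      nlinarith
    linarith
  have hEpos : 0 < E := by linarith
  have hdpos : 0 < |(d : ℝ)| := by
    rw [abs_pos]; exact_mod_cast hd0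
  -- values on T
  have hvJ : ∀ i ≤ 2 * D + 2, |(J.map (Int.castRingHom ℝ)).eval ((b i : ℤ) : ℝ)| ≤ |(d : ℝ)| * X := by
    intro i hi
    rw [eval_map_int, ← (hT _ (hbT i hi)).1]
    push_cast
    rw [abs_mul]
    have hbS := (mem_cut.1 (hTsub (hbT i hi))).1
    have h1 : (1 : ℝ) ≤ (j (b i) : ℝ) := by exact_mod_cast hDat.hj1 _ hbS
    refine mul_le_mul_of_nonneg_left ?_ (abs_nonneg _)
    rw [abs_of_nonneg (by linarith)]
    exact hDat.hjX _ hbS
  have hvH : ∀ i ≤ 2 * D + 2, |(HP θ ρ (d * τ) J P).eval ((b i : ℤ) : ℝ)| ≤ |(d : ℝ)| * ε := by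
    intro i hi
    have hbS := (mem_cut.1 (hTsub (hbT i hi))).1
    rw [HP_eval, ← (hT _ (hbT i hi)).1, ← (hT _ (hbT i hi)).2]
    push_cast
    have h1 : (d : ℝ) * (p (b i) : ℝ) + d * τ - d * (j (b i) : ℝ) * (θ * (b i : ℝ) + ρ) =
        d * ((p (b i) : ℝ) + τ - j (b i) * (θ * (b i) + ρ)) := by ring
    rw [h1, abs_mul]
    exact mul_le_mul_of_nonneg_left (hDat.hap _ hbS) (abs_nonneg _)
  -- values at a
  have hJa : |((J.eval a : ℤ) : ℝ)| ≤ |(d : ℝ)| * X * (E / 2) := by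
    have h := hLAGV (2 * D + 2) (J.map (Int.castRingHom ℝ)) (|(d : ℝ)| * X) m L a b
      ((natDegree_map_le).trans (by omega)) hmpos hspR hvJ hW
    rw [eval_map_int] at h
    have h2 : ((2 * D + 2 : ℕ) + 1 : ℝ) * (|(d : ℝ)| * X) * (L / m) ^ (2 * D + 2) =
        (|(d : ℝ)| * X) * (((2 * D + 2 : ℕ) + 1 : ℝ) * (L / m) ^ (2 * D + 2)) := by ring
    rw [h2] at h
    exact h.trans (mul_le_mul_of_nonneg_left hratio (by positivity))
  have hHa : |((P.eval a : ℤ) : ℝ) + d * τ - ((J.eval a : ℤ) : ℝ) * (θ * a + ρ)| ≤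
      |(d : ℝ)| * ε * (E / 2) := by
    have h := hLAGV (2 * D + 2) (HP θ ρ (d * τ) J P) (|(d : ℝ)| * ε) m L a b
      (HP_natDegree (2 * D + 1) θ ρ _ J P hJ hP) hmpos hspR hvH hW
    rw [HP_eval] at h
    have h2 : ((2 * D + 2 : ℕ) + 1 : ℝ) * (|(d : ℝ)| * ε) * (L / m) ^ (2 * D + 2) =
        (|(d : ℝ)| * ε) * (((2 * D + 2 : ℕ) + 1 : ℝ) * (L / m) ^ (2 * D + 2)) := by ring
    rw [h2] at h
    exact h.trans (mul_le_mul_of_nonneg_left hratio (by positivity))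
  -- the product of the constants
  have hKE : |(d : ℝ)| * E ≤ A ^ (Kd D * s) := by
    have h1 : |(d : ℝ)| * E ≤ A ^ (28 * ((D : ℝ) + 1) ^ 2 * s) * E :=
      mul_le_mul_of_nonneg_right hd hEpos.le
    refine h1.trans ?_
    rw [hE, ← Real.rpow_add hApos]
    refine Real.rpow_le_rpow_of_exponent_le hA1 ?_
    unfold Kd
    have h2 : 28 * ((D : ℝ) + 1) ^ 2 + (8 * ((D : ℝ) + 1) + 1) ≤ 50 * ((D : ℝ) + 1) ^ 2 := by
      nlinarith
    calc 28 * ((D : ℝ) + 1) ^ 2 * s + (8 * ((D : ℝ) + 1) + 1) * s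
        = (28 * ((D : ℝ) + 1) ^ 2 + (8 * ((D : ℝ) + 1) + 1)) * s := by ring
      _ ≤ 50 * ((D : ℝ) + 1) ^ 2 * s := mul_le_mul_of_nonneg_right h2 hs0.le
  set K : ℝ := A ^ (Kd D * s) with hK
  have hKpos : 0 < K := Real.rpow_pos_of_pos hApos _
  have hja1 : (1 : ℝ) ≤ (j a : ℝ) := by exact_mod_cast hDat.hj1 _ haS
  have hjaX := hDat.hjX _ haS
  have hapa := hDat.hap _ haS
  -- the pair
  have hu1 : |((J.eval a - d * j a : ℤ) : ℝ)| ≤ X * K := by
    push_cast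
    refine (abs_sub _ _).trans ?_
    rw [abs_mul]
    have h1 : |(d : ℝ)| * |(j a : ℝ)| ≤ |(d : ℝ)| * X := by
      refine mul_le_mul_of_nonneg_left ?_ (abs_nonneg _)
      rw [abs_of_nonneg (by linarith)]; exact hjaX
    have h2 : |(d : ℝ)| * X * (E / 2) + |(d : ℝ)| * X ≤ |(d : ℝ)| * X * E := by
      have h3 : 0 ≤ |(d : ℝ)| * X := by positivity
      nlinarith
    have h4 : |(d : ℝ)| * X * E ≤ X * K := by
      have := mul_le_mul_of_nonneg_left hKE hXpos.le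
      linarith
    linarith
  have hv1 : |((P.eval a - d * p a : ℤ) : ℝ) - ((J.eval a - d * j a : ℤ) : ℝ) * (θ * a + ρ)| ≤
      ε * K := by
    push_cast
    have h0 : ((P.eval a : ℤ) : ℝ) - d * p a - (((J.eval a : ℤ) : ℝ) - d * j a) * (θ * a + ρ) =
        (((P.eval a : ℤ) : ℝ) + d * τ - ((J.eval a : ℤ) : ℝ) * (θ * a + ρ)) -
          d * ((p a : ℝ) + τ - j a * (θ * a + ρ)) := by ring
    rw [h0]
    refine (abs_sub _ _).trans ?_
    rw [abs_mul]
    have h1 : |(d : ℝ)| * |(p a : ℝ) + τ - j a * (θ * a + ρ)| ≤ |(d : ℝ)| * ε :=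
      mul_le_mul_of_nonneg_left hapa (abs_nonneg _)
    have h2 : |(d : ℝ)| * ε * (E / 2) + |(d : ℝ)| * ε ≤ |(d : ℝ)| * ε * E := by
      have h3 : 0 ≤ |(d : ℝ)| * ε := by positivity
      nlinarith
    have h4 : |(d : ℝ)| * ε * E ≤ ε * K := by
      have := mul_le_mul_of_nonneg_left hKE hεpos.le
      linarith
    linarith
  have hXr : 1 ≤ X ^ (1 / ((D : ℝ) + 1)) := Real.one_le_rpow hX1 (by positivity)
  have hXr2 : X ≤ X ^ (1 + 1 / ((D : ℝ) + 1)) := by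
    rw [Real.rpow_add hXpos, Real.rpow_one]
    nlinarith
  have hεK : ε * K ≤ X ^ (1 / ((D : ℝ) + 1)) * ε * K := by
    have h1 : 0 ≤ ε * K := by positivity
    nlinarith
  -- u₁ = 0
  have hu0 : J.eval a - d * j a = 0 := by
    by_contra hne
    have hno := hDat.hno a haS
    rcases lt_or_gt_of_ne hne with hlt | hgt
    · have h1 := hno (-(J.eval a - d * j a)) (-(P.eval a - d * p a)) (by omega) (by
        push_cast
        have h2 : -(((J.eval a : ℤ) : ℝ) - d * j a) ≤ X * K := by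
          have h3 := neg_le_abs (((J.eval a - d * j a : ℤ) : ℝ))
          push_cast at h3 hu1
          linarith
        refine h2.trans ?_
        exact mul_le_mul_of_nonneg_right hXr2 hKpos.le)
      have h4 : ((-(P.eval a - d * p a) : ℤ) : ℝ) - ((-(J.eval a - d * j a) : ℤ) : ℝ) * (θ * a + ρ) =
          -(((P.eval a - d * p a : ℤ) : ℝ) - ((J.eval a - d * j a : ℤ) : ℝ) * (θ * a + ρ)) := by
        push_cast; ring
      rw [h4, abs_neg] at h1
      linarith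
    · have h1 := hno (J.eval a - d * j a) (P.eval a - d * p a) (by omega) (by
        refine ((le_abs_self _).trans hu1).trans ?_
        exact mul_le_mul_of_nonneg_right hXr2 hKpos.le)
      linarith
  have hεK1 : ε * K < 1 := by
    have h1 : ε * A ^ (1 / 4 + 3 * Kd D * s) ≤ 1 := by
      refine le_trans ?_ hDat.hH
      have h2 : 1 ≤ X ^ (4 / 3 + 3 / ((D : ℝ) + 1)) := Real.one_le_rpow hX1 (by positivity)
      have h3 : ε ≤ ε * X ^ (4 / 3 + 3 / ((D : ℝ) + 1)) := by nlinarith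
      exact mul_le_mul_of_nonneg_right h3 (Real.rpow_nonneg hApos.le _)
    have h4 : K < A ^ (1 / 4 + 3 * Kd D * s) := by
      rw [hK]
      refine Real.rpow_lt_rpow_of_exponent_lt hAlt ?_
      have h5 : 0 ≤ Kd D * s := by unfold Kd; positivity
      linarith
    calc ε * K < ε * A ^ (1 / 4 + 3 * Kd D * s) := mul_lt_mul_of_pos_left h4 hεpos
      _ ≤ 1 := h1
  have hv0 : P.eval a - d * p a = 0 := by
    rw [hu0] at hv1
    have h1 : |((P.eval a - d * p a : ℤ) : ℝ)| < 1 := by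
      have h2 : ((P.eval a - d * p a : ℤ) : ℝ) - ((0 : ℤ) : ℝ) * (θ * a + ρ) =
          ((P.eval a - d * p a : ℤ) : ℝ) := by push_cast; ring
      rw [h2] at hv1
      linarith
    have h3 : |(P.eval a - d * p a : ℤ)| < 1 := by exact_mod_cast h1
    exact Int.abs_lt_one_iff.1 h3
  exact ⟨by linarith, by linarith⟩

end Pool.Agent.UHJ
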