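import Pool.Agent.UHJ.Stmts

/-!
# Division of a triple of integer polynomials by its greatest common divisor
-/

namespace Pool.Agent.UHJ

open Polynomial Pool.Agent.UHI

namespace TPRIMaux

/-- a rational multiple of every nonzero rational polynomial is a primitive integral polynomial -/
theorem exists_prim (d : ℚ[X]) (hd : d ≠ 0) : ∃ d' : ℤ[X], d'.IsPrimitive ∧
    Associated (d'.map (Int.castRingHom ℚ)) d := by
  obtain ⟨b, hbM, hb⟩ := IsLocalization.integerNormalization_spec (nonZeroDivisors ℤ) d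
  set e := IsLocalization.integerNormalization (nonZeroDivisors ℤ) d with he
  have hb0 : (b : ℤ) ≠ 0 := nonZeroDivisors.ne_zero hbM
  have hmap : e.map (Int.castRingHom ℚ) = C ((b : ℤ) : ℚ) * d := by
    have h1 : e.map (algebraMap ℤ ℚ) = (b : ℤ) • d := hb
    rw [show Int.castRingHom ℚ = algebraMap ℤ ℚ from rfl, h1]
    rw [zsmul_eq_mul]
    simp
  have hbQ : ((b : ℤ) : ℚ) ≠ 0 := by exact_mod_cast hb0
  have he0 : e ≠ 0 := by
    intro h0
    rw [h0, Polynomial.map_zero] at hmap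
    have := mul_ne_zero (Polynomial.C_ne_zero.mpr hbQ) hd
    exact this hmap.symm
  have hc0 : e.content ≠ 0 := by
    rw [Ne, Polynomial.content_eq_zero_iff]; exact he0
  refine ⟨e.primPart, e.isPrimitive_primPart, ?_⟩
  have h2 : e.map (Int.castRingHom ℚ) =
      C ((e.content : ℤ) : ℚ) * e.primPart.map (Int.castRingHom ℚ) := by
    conv_lhs => rw [e.eq_C_content_mul_primPart]
    rw [Polynomial.map_mul, Polynomial.map_C]
    rfl
  have hcQ : ((e.content : ℤ) : ℚ) ≠ 0 := by exact_mod_cast hc0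
  have u1 : IsUnit (C ((e.content : ℤ) : ℚ)) := Polynomial.isUnit_C.mpr (isUnit_iff_ne_zero.mpr hcQ)
  have u2 : IsUnit (C ((b : ℤ) : ℚ)) := Polynomial.isUnit_C.mpr (isUnit_iff_ne_zero.mpr hbQ)
  have a1 : Associated (C ((e.content : ℤ) : ℚ) * e.primPart.map (Int.castRingHom ℚ))
      (e.primPart.map (Int.castRingHom ℚ)) := associated_unit_mul_left _ _ u1
  have a2 : Associated (C ((b : ℤ) : ℚ) * d) d := associated_unit_mul_left _ _ u2
  have a3 : C ((e.content : ℤ) : ℚ) * e.primPart.map (Int.castRingHom ℚ) = C ((b : ℤ) : ℚ) * d := by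
    rw [← h2, hmap]
  exact a1.symm.trans (a3 ▸ a2)

theorem dvd_of_map (d' F : ℤ[X]) (hd : d'.IsPrimitive)
    (h : d'.map (Int.castRingHom ℚ) ∣ F.map (Int.castRingHom ℚ)) : d' ∣ F := by
  by_cases hF : F = 0
  · rw [hF]; exact dvd_zero _
  have hc0 : F.content ≠ 0 := by
    rw [Ne, Polynomial.content_eq_zero_iff]; exact hF
  have hcQ : ((F.content : ℤ) : ℚ) ≠ 0 := by exact_mod_cast hc0
  have u1 : IsUnit (C ((F.content : ℤ) : ℚ)) := Polynomial.isUnit_C.mpr (isUnit_iff_ne_zero.mpr hcQ)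
  have h2 : F.map (Int.castRingHom ℚ) =
      C ((F.content : ℤ) : ℚ) * F.primPart.map (Int.castRingHom ℚ) := by
    conv_lhs => rw [F.eq_C_content_mul_primPart]
    rw [Polynomial.map_mul, Polynomial.map_C]
    rfl
  rw [h2] at h
  have h3 : d'.map (Int.castRingHom ℚ) ∣ F.primPart.map (Int.castRingHom ℚ) :=
    (u1.dvd_mul_left).mp h
  have h4 : d' ∣ F.primPart :=
    (Polynomial.IsPrimitive.Int.dvd_iff_map_cast_dvd_map_cast d' F.primPart hd).mpr h3
  rw [F.eq_C_content_mul_primPart]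
  exact h4.mul_left _

/-- division by a gcd -/
theorem exists_gcd (U V W : ℤ[X]) (hU : U ≠ 0) : ∃ h U0 V0 W0 : ℤ[X], h ≠ 0 ∧ U = h * U0 ∧
    V = h * V0 ∧ W = h * W0 ∧ U0 ≠ 0 ∧ (∀ d, d ∣ U0 → d ∣ V0 → d ∣ W0 → IsUnit d) ∧
    ∀ x z, x ∣ z * U0 → x ∣ z * V0 → x ∣ z * W0 → x ∣ z := by
  classical
  let _inst : GCDMonoid ℤ[X] := UniqueFactorizationMonoid.toGCDMonoid ℤ[X]
  set h := gcd U (gcd V W) with hh
  obtain ⟨U0, hU0⟩ : h ∣ U := gcd_dvd_left _ _
  obtain ⟨V0, hV0⟩ : h ∣ V := (gcd_dvd_right _ _).trans (gcd_dvd_left _ _)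
  obtain ⟨W0, hW0⟩ : h ∣ W := (gcd_dvd_right _ _).trans (gcd_dvd_right _ _)
  have h0 : h ≠ 0 := by
    intro e
    exact hU (by rw [hU0, e, zero_mul])
  have hU00 : U0 ≠ 0 := by
    intro e
    exact hU (by rw [hU0, e, mul_zero])
  have hrel : ∀ d, d ∣ U0 → d ∣ V0 → d ∣ W0 → IsUnit d := by
    intro d h1 h2 h3
    have e1 : h * d ∣ U := by rw [hU0]; exact mul_dvd_mul_left _ h1
    have e2 : h * d ∣ V := by rw [hV0]; exact mul_dvd_mul_left _ h2
    have e3 : h * d ∣ W := by rw [hW0]; exact mul_dvd_mul_left _ h3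
    have e4 : h * d ∣ h * 1 := by rw [mul_one]; exact dvd_gcd e1 (dvd_gcd e2 e3)
    exact isUnit_of_dvd_one ((mul_dvd_mul_iff_left h0).1 e4)
  refine ⟨h, U0, V0, W0, h0, hU0, hV0, hW0, hU00, hrel, ?_⟩
  intro x z h1 h2 h3
  have e1 : x ∣ z * gcd V0 W0 := (dvd_gcd h2 h3).trans (gcd_mul_left' z V0 W0).dvd
  have e2 : x ∣ z * gcd U0 (gcd V0 W0) := (dvd_gcd h1 e1).trans (gcd_mul_left' z U0 _).dvd
  have e3 : IsUnit (gcd U0 (gcd V0 W0)) :=
    hrel _ (gcd_dvd_left _ _) ((gcd_dvd_right _ _).trans (gcd_dvd_left _ _))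
      ((gcd_dvd_right _ _).trans (gcd_dvd_right _ _))
  exact (e3.dvd_mul_right).1 e2

end TPRIMaux

theorem m_TPRIM : Stmt_TPRIM := by
  intro U V W hU
  obtain ⟨h, U0, V0, W0, h0, hU0, hV0, hW0, hU00, hrel, hdiv⟩ := TPRIMaux.exists_gcd U V W hU
  refine ⟨h, U0, V0, W0, h0, hU0, hV0, hW0, ?_, ?_, ?_⟩
  · intro q h1 h2 h3
    have hq0 : q ≠ 0 := by
      rintro rfl
      have e : U0.map (Int.castRingHom ℚ) = 0 := zero_dvd_iff.mp h1
      rw [Polynomial.map_eq_zero_iff (RingHom.injective_int (Int.castRingHom ℚ))] at e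
      exact hU00 e
    obtain ⟨d', hp, ha⟩ := TPRIMaux.exists_prim q hq0
    have e1 : d' ∣ U0 := TPRIMaux.dvd_of_map d' U0 hp (ha.dvd.trans h1)
    have e2 : d' ∣ V0 := TPRIMaux.dvd_of_map d' V0 hp (ha.dvd.trans h2)
    have e3 : d' ∣ W0 := TPRIMaux.dvd_of_map d' W0 hp (ha.dvd.trans h3)
    have e4 : IsUnit (d'.map (Int.castRingHom ℚ)) :=
      (hrel d' e1 e2 e3).map (Polynomial.mapRingHom (Int.castRingHom ℚ))
    exact ha.isUnit e4
  · intro m v h1 h2 h3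
    have key : ∀ F : ℤ[X], (∀ k, m ∣ v * F.coeff k) → C m ∣ C v * F := by
      intro F hF
      rw [Polynomial.C_dvd_iff_dvd_coeff]
      intro k
      rw [Polynomial.coeff_C_mul]
      exact hF k
    have e := hdiv (C m) (C v) (key _ h1) (key _ h2) (key _ h3)
    have e' := (Polynomial.C_dvd_iff_dvd_coeff m (C v)).1 e 0
    rwa [Polynomial.coeff_C_zero] at e'
  · intro U' V' W' h1 h2
    have e1 : U0 ∣ U' := hdiv U0 U' (Dvd.intro_left _ rfl) ⟨V', h1⟩ ⟨W', h2⟩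
    obtain ⟨c, hc⟩ := e1
    refine ⟨c, by rw [hc, mul_comm], ?_, ?_⟩
    · have e2 : U0 * V' = U0 * (c * V0) := by rw [← h1, hc]; ring
      exact mul_left_cancel₀ hU00 e2
    · have e2 : U0 * W' = U0 * (c * W0) := by rw [← h2, hc]; ring
      exact mul_left_cancel₀ hU00 e2

end Pool.Agent.UHJ
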