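import Pool.Agent.UHJ.Stmts

/-!
# VDMN (helper9): the Vandermonde product times the coefficients, arbitrary degree
-/

set_option autoImplicit false

namespace Pool.Agent.UHJ

open Polynomial

namespace VDMNaux

lemma eval_eq (n : ℕ) (H : ℤ[X]) (hH : H.natDegree ≤ n) (x : ℤ) :
    H.eval x = ∑ k : Fin (n + 1), x ^ (k : ℕ) * H.coeff k := by
  rw [Polynomial.eval_eq_sum_range' (Nat.lt_succ_of_le hH), Finset.sum_range]
  refine Finset.sum_congr rfl fun k _ => ?_
  ring

lemma mulVec_eq (n : ℕ) (H : ℤ[X]) (hH : H.natDegree ≤ n) (a : Fin (n + 1) → ℤ)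
    (i : Fin (n + 1)) :
    (Matrix.vandermonde a).mulVec (fun k : Fin (n + 1) => H.coeff (k : ℕ)) i =
      H.eval (a i) := by
  rw [eval_eq n H hH, Matrix.mulVec, dotProduct]
  rfl

end VDMNaux

open VDMNaux in
theorem m_VDMN : Stmt_VDMN := by
  intro n H m a hH hm k
  rw [← Matrix.det_vandermonde]
  rcases lt_or_ge k (n + 1) with hk | hk
  · have h1 : (Matrix.vandermonde a).adjugate.mulVec
        ((Matrix.vandermonde a).mulVec (fun k : Fin (n + 1) => H.coeff (k : ℕ))) =
        (Matrix.vandermonde a).det • (fun k : Fin (n + 1) => H.coeff (k : ℕ)) := by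
      rw [Matrix.mulVec_mulVec, Matrix.adjugate_mul, Matrix.smul_mulVec, Matrix.one_mulVec]
    have h2 := congrFun h1 ⟨k, hk⟩
    simp only [Pi.smul_apply, smul_eq_mul] at h2
    rw [← h2, Matrix.mulVec, dotProduct]
    refine Finset.dvd_sum fun i _ => ?_
    rw [mulVec_eq n H hH]
    exact Dvd.dvd.mul_left (hm i) _
  · rw [Polynomial.coeff_eq_zero_of_natDegree_lt (lt_of_le_of_lt hH hk), mul_zero]
    exact dvd_zero m

end Pool.Agent.UHJ
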