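import Pool.Agent.UHI.Main
import Pool.Agent.UHJ.Cnt
import Pool.Agent.UHJ.Coef
import Pool.Agent.UHJ.Core
import Pool.Agent.UHJ.D0b
import Pool.Agent.UHJ.Dcon
import Pool.Agent.UHJ.Fin2
import Pool.Agent.UHJ.InitA
import Pool.Agent.UHJ.InitB
import Pool.Agent.UHJ.Inv2
import Pool.Agent.UHJ.Lage
import Pool.Agent.UHJ.Lam
import Pool.Agent.UHJ.Main2
import Pool.Agent.UHJ.Pign
import Pool.Agent.UHJ.Resn
import Pool.Agent.UHJ.Rk1
import Pool.Agent.UHJ.Rk2
import Pool.Agent.UHJ.Siegt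
import Pool.Agent.UHJ.Signed
import Pool.Agent.UHJ.Step2
import Pool.Agent.UHJ.Tprim
import Pool.Agent.UHJ.Vdmn

/-!
# The inhomogeneous inverse theorem, assembled
-/

set_option autoImplicit false

namespace Pool.Agent.UHJ

theorem initA_closed : Stmt_INITA := m_INITA (m_SIEGT m_PIGN) m_TPRIM (m_RK1 m_CNT)

theorem initB_closed : Stmt_INITB :=
  m_INITB (m_RK2 m_TPRIM) m_COEF (m_DCON m_LAM m_RESN UHI.m_DIV) (m_D0B m_VDMN)

theorem core_closed : Stmt_CORE :=
  m_CORE UHI.m_NEST initA_closed initB_closed (m_STEP2 UHI.m_SPR UHI.m_LAGV)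
    (m_FIN2 UHI.m_SPR m_LAGE)

/-- The inhomogeneous inverse theorem. -/
theorem inv2 : Stmt_INV2 := m_INV2 (m_MAIN2 UHI.inv core_closed)

/-- The inhomogeneous inverse theorem, signed version. -/
theorem inv2_signed : Stmt_INV2S := inv2S inv2

end Pool.Agent.UHJ
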