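import Pool.Agent.UHJ.Stmts

/-!
# Module SIEGT: many triples of integer polynomials
-/

set_option autoImplicit false

namespace Pool.Agent.UHJ

open Polynomial Pool.Agent.UHI

namespace SIEGTaux

/-- The polynomial with the coefficients `c` in powers of `x - a0`. -/
noncomputable def mk {n : ℕ} (a0 : ℤ) (c : Fin n → ℤ) : ℤ[X] :=
  ∑ i : Fin n, C (c i) * (X - C a0) ^ (i : ℕ)

theorem mk_deg {n : ℕ} (a0 : ℤ) (c : Fin (n + 1) → ℤ) : (mk a0 c).natDegree ≤ n := by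
  unfold mk
  refine natDegree_sum_le_of_forall_le _ _ fun i _ => ?_
  refine (natDegree_C_mul_le _ _).trans ?_
  rw [natDegree_pow, natDegree_X_sub_C, mul_one]
  have := i.2
  omega

theorem mk_eval {n : ℕ} (a0 : ℤ) (c : Fin n → ℤ) (a : ℤ) :
    (((mk a0 c).eval a : ℤ) : ℝ) = ∑ i : Fin n, (c i : ℝ) * ((a : ℝ) - a0) ^ (i : ℕ) := by
  unfold mk
  rw [eval_finsetSum]
  push_cast
  refine Finset.sum_congr rfl fun i _ => ?_
  rw [eval_mul, eval_C, eval_pow, eval_sub, eval_X, eval_C]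
  push_cast
  rfl

theorem mk_inj {n : ℕ} (a0 : ℤ) (c c' : Fin n → ℤ) (h : mk a0 c = mk a0 c') : c = c' := by
  have h1 : ∀ d : Fin n → ℤ, (mk a0 d).comp (X + C a0) = ∑ i : Fin n, C (d i) * X ^ (i : ℕ) := by
    intro d
    unfold mk
    rw [Polynomial.sum_comp]
    refine Finset.sum_congr rfl fun i _ => ?_
    rw [mul_comp, C_comp, pow_comp, sub_comp, X_comp, C_comp, add_sub_cancel_right]
  have h2 : ∀ (d : Fin n → ℤ) (k : Fin n), ((mk a0 d).comp (X + C a0)).coeff k = d k := by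
    intro d k
    rw [h1, finsetSum_coeff]
    rw [Finset.sum_eq_single k]
    · rw [coeff_C_mul_X_pow, if_pos rfl]
    · intro j _ hjk
      rw [coeff_C_mul_X_pow, if_neg]
      intro h3
      exact hjk (Fin.ext h3.symm)
    · intro h3
      exact absurd (Finset.mem_univ k) h3
  funext k
  rw [← h2 c k, ← h2 c' k, h]

theorem sum_fin (n : ℕ) : 2 * ∑ i : Fin n, (i : ℕ) = n * (n - 1) := by
  rw [Fin.sum_univ_eq_sum_range (fun i => i) n, mul_comm, Finset.sum_range_id_mul_two]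

/-- The forms of the first kind. -/
noncomputable def l1 (D : ℕ) (ρ' θ : ℝ) (k : Fin (D + 2)) (i : Fin (D + 1)) : ℝ :=
  (if k = i.castSucc then ρ' else 0) + if k = i.succ then θ else 0

/-- The forms of the second kind. -/
noncomputable def l2 (D : ℕ) (τ : ℝ) (k i : Fin (D + 1)) : ℝ := if k = i then τ else 0

theorem l1_sum (D : ℕ) (ρ' θ t : ℝ) (u : Fin (D + 1) → ℤ) :
    ∑ k : Fin (D + 2), (∑ i, l1 D ρ' θ k i * (u i : ℝ)) * t ^ (k : ℕ) =
      (ρ' + θ * t) * ∑ i : Fin (D + 1), (u i : ℝ) * t ^ (i : ℕ) := by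
  have h1 : ∀ i : Fin (D + 1), ∑ k : Fin (D + 2), l1 D ρ' θ k i * (u i : ℝ) * t ^ (k : ℕ) =
      (ρ' + θ * t) * ((u i : ℝ) * t ^ (i : ℕ)) := by
    intro i
    unfold l1
    simp only [add_mul, Finset.sum_add_distrib, ite_mul, zero_mul, Finset.sum_ite_eq', Finset.mem_univ,
      if_true, Fin.val_castSucc, Fin.val_succ]
    ring
  simp only [Finset.sum_mul]
  rw [Finset.sum_comm, Finset.mul_sum]
  exact Finset.sum_congr rfl fun i _ => h1 i

theorem l2_sum (D : ℕ) (τ t : ℝ) (u : Fin (D + 1) → ℤ) :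
    ∑ k : Fin (D + 1), (∑ i, l2 D τ k i * (u i : ℝ)) * t ^ (k : ℕ) =
      τ * ∑ i : Fin (D + 1), (u i : ℝ) * t ^ (i : ℕ) := by
  rw [Finset.mul_sum]
  refine Finset.sum_congr rfl fun k _ => ?_
  unfold l2
  simp only [ite_mul, zero_mul, Finset.sum_ite_eq, Finset.mem_univ, if_true]
  ring

/-- An integer near `x` can be replaced by the nearest integer. -/
theorem rd {x : ℝ} {b : ℕ} (h : ∃ z : ℤ, |(z : ℝ) - x| * b ≤ 1) : |((round x : ℤ) : ℝ) - x| * b ≤ 1 := by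
  obtain ⟨z, hz⟩ := h
  refine le_trans (mul_le_mul_of_nonneg_right ?_ (Nat.cast_nonneg b)) hz
  rw [abs_sub_comm, abs_sub_comm (z : ℝ)]
  exact round_le x z

/-- The sum of small coefficients. -/
theorem sum_small {n : ℕ} (c : Fin n → ℝ) (b : Fin n → ℕ) {t L E : ℝ} (ht : 0 ≤ t) (htL : t ≤ L)
    (hE : 0 < E) (hL : 1 ≤ L) (hb : ∀ k : Fin n, E * L ^ (k : ℕ) ≤ b k) (hc : ∀ k : Fin n, |c k| * b k ≤ 1) :
    |∑ k : Fin n, c k * t ^ (k : ℕ)| ≤ n / E := by
  have h1 : ∀ k : Fin n, |c k * t ^ (k : ℕ)| ≤ 1 / E := by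
    intro k
    have hLk : (0 : ℝ) < L ^ (k : ℕ) := pow_pos (by linarith) _
    rw [abs_mul, abs_of_nonneg (pow_nonneg ht _), le_div_iff₀ hE]
    have h2 : t ^ (k : ℕ) ≤ L ^ (k : ℕ) := pow_le_pow_left₀ ht htL _
    calc |c k| * t ^ (k : ℕ) * E ≤ |c k| * L ^ (k : ℕ) * E := by
          apply mul_le_mul_of_nonneg_right _ hE.le
          exact mul_le_mul_of_nonneg_left h2 (abs_nonneg _)
      _ = |c k| * (E * L ^ (k : ℕ)) := by ring
      _ ≤ |c k| * b k := mul_le_mul_of_nonneg_left (hb k) (abs_nonneg _)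
      _ ≤ 1 := hc k
  calc |∑ k : Fin n, c k * t ^ (k : ℕ)| ≤ ∑ k : Fin n, |c k * t ^ (k : ℕ)| := Finset.abs_sum_le_sum_abs _ _
    _ ≤ ∑ _k : Fin n, 1 / E := Finset.sum_le_sum fun k _ => h1 k
    _ = n / E := by
        rw [Finset.sum_const, Finset.card_univ, Fintype.card_fin, nsmul_eq_mul]
        ring

end SIEGTaux

open SIEGTaux in
theorem m_SIEGT : Stmt_PIGN → Stmt_SIEGT := by
  intro hP D Xr L θ ρ τ ε a0 hX hL hε
  have hL0 : (0 : ℝ) < L := by linarith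
  have hX0 : (0 : ℝ) < Xr := by linarith
  set E : ℝ := 8 * ((D : ℝ) + 2) with hE
  have hD0 : (0 : ℝ) ≤ D := Nat.cast_nonneg D
  have hE1 : 1 ≤ E := by rw [hE]; linarith
  have hE0 : 0 < E := by linarith
  set B : ℝ := 1 / (E * ε) with hB
  have hB0 : 0 < B := by rw [hB]; positivity
  set ρ' : ℝ := θ * a0 + ρ with hρ'
  let M : Fin (D + 1) → ℕ := fun i => ⌊B / L ^ (i : ℕ)⌋₊
  let b1 : Fin (D + 2) → ℕ := fun k => ⌈E * Xr * L ^ (k : ℕ)⌉₊
  let b2 : Fin (D + 1) → ℕ := fun k => ⌈E * L ^ (k : ℕ)⌉₊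
  have hLp : ∀ n : ℕ, (1 : ℝ) ≤ L ^ n := fun n => one_le_pow₀ hL
  have hb1 : ∀ k : Fin (D + 2), E * Xr * L ^ (k : ℕ) ≤ b1 k := fun k => Nat.le_ceil _
  have hb2 : ∀ k : Fin (D + 1), E * L ^ (k : ℕ) ≤ b2 k := fun k => Nat.le_ceil _
  have hEX : 1 ≤ E * Xr := by nlinarith
  have hb1' : ∀ k : Fin (D + 2), (b1 k : ℝ) ≤ 2 * E * Xr * L ^ (k : ℕ) := by
    intro k
    have h1 := Nat.ceil_lt_add_one (a := E * Xr * L ^ (k : ℕ)) (by positivity)
    have h2 : 1 ≤ E * Xr * L ^ (k : ℕ) := by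
      have := hLp k
      nlinarith
    have h3 : (b1 k : ℝ) = (⌈E * Xr * L ^ (k : ℕ)⌉₊ : ℝ) := rfl
    rw [h3]
    linarith
  have hb2' : ∀ k : Fin (D + 1), (b2 k : ℝ) ≤ 2 * E * L ^ (k : ℕ) := by
    intro k
    have h1 := Nat.ceil_lt_add_one (a := E * L ^ (k : ℕ)) (by positivity)
    have h2 : 1 ≤ E * L ^ (k : ℕ) := by
      have := hLp k
      nlinarith
    have h3 : (b2 k : ℝ) = (⌈E * L ^ (k : ℕ)⌉₊ : ℝ) := rfl
    rw [h3]
    linarith
  obtain ⟨F, hFc, hF⟩ := hP (D + 1) (D + 2 + (D + 1))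
    (Fin.addCases (motive := fun _ => Fin (D + 1) → ℝ) (l1 D ρ' θ) (l2 D τ)) M
    (Fin.addCases (motive := fun _ => ℕ) b1 b2) (by
      intro k
      refine Fin.addCases (fun k => ?_) (fun k => ?_) k
      · rw [Fin.addCases_left]
        have h1 : (0 : ℝ) < b1 k := lt_of_lt_of_le (by positivity) (hb1 k)
        exact_mod_cast h1
      · rw [Fin.addCases_right]
        have h1 : (0 : ℝ) < b2 k := lt_of_lt_of_le (by positivity) (hb2 k)
        exact_mod_cast h1)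
  -- the triples
  let x1 : (Fin (D + 1) → ℤ) → Fin (D + 2) → ℝ := fun u k => ∑ i, l1 D ρ' θ k i * (u i : ℝ)
  let x2 : (Fin (D + 1) → ℤ) → Fin (D + 1) → ℝ := fun u k => ∑ i, l2 D τ k i * (u i : ℝ)
  let φ : (Fin (D + 1) → ℤ) → ℤ[X] × ℤ[X] × ℤ[X] := fun u =>
    (mk a0 u, mk a0 (fun k => -round (x1 u k)), mk a0 (fun k => round (x2 u k)))
  have hφ : Function.Injective φ := fun u u' h => mk_inj a0 u u' (Prod.ext_iff.1 h).1
  refine ⟨F.map ⟨φ, hφ⟩, ?_, ?_, ?_⟩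
  · rw [Finset.card_map]
    -- the count
    have hprod : ∏ k : Fin (D + 2 + (D + 1)), (Fin.addCases (motive := fun _ => ℕ) b1 b2 k) =
        (∏ k, b1 k) * ∏ k, b2 k := by
      rw [Fin.prod_univ_add]
      simp only [Fin.addCases_left, Fin.addCases_right]
    rw [hprod] at hFc
    have hFc' : (∏ i, ((M i : ℝ) + 1)) ≤ (F.card : ℝ) * ((∏ k, (b1 k : ℝ)) * ∏ k, (b2 k : ℝ)) := by
      exact_mod_cast hFc
    have h1 : B ^ (D + 1) / L ^ (∑ i : Fin (D + 1), (i : ℕ)) ≤ ∏ i, ((M i : ℝ) + 1) := by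
      have h2 : B ^ (D + 1) / L ^ (∑ i : Fin (D + 1), (i : ℕ)) = ∏ i : Fin (D + 1), (B / L ^ (i : ℕ)) := by
        rw [Finset.prod_div_distrib, Finset.prod_const, Finset.card_univ, Fintype.card_fin,
          Finset.prod_pow_eq_pow_sum]
      rw [h2]
      refine Finset.prod_le_prod (fun i _ => by positivity) fun i _ => ?_
      exact (Nat.lt_floor_add_one _).le
    have h3 : ∏ k, (b1 k : ℝ) ≤ (2 * E * Xr) ^ (D + 2) * L ^ (∑ i : Fin (D + 2), (i : ℕ)) := by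
      have h2 : (2 * E * Xr) ^ (D + 2) * L ^ (∑ i : Fin (D + 2), (i : ℕ)) =
          ∏ i : Fin (D + 2), (2 * E * Xr * L ^ (i : ℕ)) := by
        rw [Finset.prod_mul_distrib, Finset.prod_const, Finset.card_univ, Fintype.card_fin,
          Finset.prod_pow_eq_pow_sum]
      rw [h2]
      exact Finset.prod_le_prod (fun i _ => Nat.cast_nonneg _) fun i _ => hb1' i
    have h4 : ∏ k, (b2 k : ℝ) ≤ (2 * E) ^ (D + 1) * L ^ (∑ i : Fin (D + 1), (i : ℕ)) := by
      have h2 : (2 * E) ^ (D + 1) * L ^ (∑ i : Fin (D + 1), (i : ℕ)) =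
          ∏ i : Fin (D + 1), (2 * E * L ^ (i : ℕ)) := by
        rw [Finset.prod_mul_distrib, Finset.prod_const, Finset.card_univ, Fintype.card_fin,
          Finset.prod_pow_eq_pow_sum]
      rw [h2]
      exact Finset.prod_le_prod (fun i _ => Nat.cast_nonneg _) fun i _ => hb2' i
    have hs1 := SIEGTaux.sum_fin (D + 1)
    have hs2 := SIEGTaux.sum_fin (D + 2)
    set s1 := ∑ i : Fin (D + 1), (i : ℕ) with hs1d
    set s2 := ∑ i : Fin (D + 2), (i : ℕ) with hs2d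
    have h5 : (∏ k, (b1 k : ℝ)) * ∏ k, (b2 k : ℝ) ≤
        ((2 * E * Xr) ^ (D + 2) * L ^ s2) * ((2 * E) ^ (D + 1) * L ^ s1) :=
      mul_le_mul h3 h4 (Finset.prod_nonneg fun _ _ => Nat.cast_nonneg _) (by positivity)
    have h6 : B ^ (D + 1) / L ^ s1 ≤
        (F.card : ℝ) * (((2 * E * Xr) ^ (D + 2) * L ^ s2) * ((2 * E) ^ (D + 1) * L ^ s1)) :=
      (h1.trans hFc').trans (mul_le_mul_of_nonneg_left h5 (Nat.cast_nonneg _))
    -- the target
    have h7 : (Xr ^ (1 + 1 / ((D : ℝ) + 1))) ^ (D + 1) = Xr ^ (D + 2) := by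
      rw [← Real.rpow_natCast, ← Real.rpow_mul hX0.le, ← Real.rpow_natCast]
      congr 1
      push_cast
      have : (D : ℝ) + 1 ≠ 0 := by positivity
      field_simp
      ring
    have h16 : (16 * ((D : ℝ) + 2)) = 2 * E := by rw [hE]; ring
    rw [h16, div_pow, one_pow, mul_pow, mul_pow, mul_pow, h7]
    rw [div_le_iff₀ (by positivity)]
    rw [div_le_iff₀ (by positivity)] at h6
    have h8 : B ^ (D + 1) * (E ^ (D + 1) * ε ^ (D + 1)) = 1 := by
      rw [← mul_pow, ← mul_pow, hB]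
      have : 1 / (E * ε) * (E * ε) = 1 := by field_simp
      rw [this, one_pow]
    have h9 : 1 ≤ (F.card : ℝ) * (((2 * E * Xr) ^ (D + 2) * L ^ s2) * ((2 * E) ^ (D + 1) * L ^ s1)) * L ^ s1 *
        (E ^ (D + 1) * ε ^ (D + 1)) := by
      rw [← h8]
      exact mul_le_mul_of_nonneg_right h6 (by positivity)
    refine h9.trans ?_
    have h10 : ((2 * E * Xr) ^ (D + 2) * L ^ s2) * ((2 * E) ^ (D + 1) * L ^ s1) * L ^ s1 *
        (E ^ (D + 1) * ε ^ (D + 1)) =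
        (ε ^ (D + 1) * Xr ^ (D + 2)) * ((2 * E) ^ (D + 2) * (2 * E) ^ (D + 1) * E ^ (D + 1)) *
          L ^ (s2 + s1 + s1) := by
      rw [pow_add, pow_add, mul_pow (2 * E) Xr]
      ring
    have h11 : (F.card : ℝ) * (((2 * E * Xr) ^ (D + 2) * L ^ s2) * ((2 * E) ^ (D + 1) * L ^ s1)) * L ^ s1 *
        (E ^ (D + 1) * ε ^ (D + 1)) = (F.card : ℝ) * ((ε ^ (D + 1) * Xr ^ (D + 2)) *
          ((2 * E) ^ (D + 2) * (2 * E) ^ (D + 1) * E ^ (D + 1)) * L ^ (s2 + s1 + s1)) := by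
      rw [← h10]
      ring
    rw [h11]
    refine mul_le_mul_of_nonneg_left ?_ (Nat.cast_nonneg _)
    have h12 : (2 * E) ^ (D + 2) * (2 * E) ^ (D + 1) * E ^ (D + 1) ≤ ((2 * E) ^ 4) ^ (D + 1) := by
      have h13 : E ^ (D + 1) ≤ (2 * E) ^ (D + 1) := pow_le_pow_left₀ hE0.le (by linarith) _
      calc (2 * E) ^ (D + 2) * (2 * E) ^ (D + 1) * E ^ (D + 1)
          ≤ (2 * E) ^ (D + 2) * (2 * E) ^ (D + 1) * (2 * E) ^ (D + 1) :=
            mul_le_mul_of_nonneg_left h13 (by positivity)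
        _ = (2 * E) ^ (3 * D + 4) := by rw [← pow_add, ← pow_add]; congr 1; ring
        _ ≤ (2 * E) ^ (4 * (D + 1)) := pow_le_pow_right₀ (by linarith) (by omega)
        _ = _ := by rw [pow_mul]
    have h14 : L ^ (s2 + s1 + s1) ≤ (L ^ (2 * (D + 1))) ^ (D + 1) := by
      rw [← pow_mul]
      refine pow_le_pow_right₀ hL ?_
      have e1 : 2 * s1 = (D + 1) * D := hs1
      have e2 : 2 * s2 = (D + 2) * (D + 1) := hs2
      nlinarith
    calc (ε ^ (D + 1) * Xr ^ (D + 2)) * ((2 * E) ^ (D + 2) * (2 * E) ^ (D + 1) * E ^ (D + 1)) *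
          L ^ (s2 + s1 + s1)
        ≤ (ε ^ (D + 1) * Xr ^ (D + 2)) * ((2 * E) ^ 4) ^ (D + 1) * L ^ (s2 + s1 + s1) :=
          mul_le_mul_of_nonneg_right (mul_le_mul_of_nonneg_left h12 (by positivity)) (by positivity)
      _ ≤ _ := mul_le_mul_of_nonneg_left h14 (by positivity)
  · intro p hp p' hp' hpp
    rw [Finset.mem_coe, Finset.mem_map] at hp hp'
    obtain ⟨u, _, rfl⟩ := hp
    obtain ⟨u', _, rfl⟩ := hp'
    have : u = u' := mk_inj a0 u u' hpp
    rw [this]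
  · intro p hp
    rw [Finset.mem_map] at hp
    obtain ⟨u, hu, rfl⟩ := hp
    obtain ⟨huM, huz⟩ := hF u hu
    refine ⟨mk_deg a0 u, mk_deg a0 _, mk_deg a0 _, ?_⟩
    intro a ha1 ha2
    set t : ℝ := (a : ℝ) - a0 with ht
    have ht0 : 0 ≤ t := by rw [ht]; linarith
    have htL : t ≤ L := by rw [ht]; linarith
    show |(((mk a0 u).eval a : ℤ) : ℝ)| ≤ _ ∧
      |(((mk a0 (fun k => -round (x1 u k))).eval a : ℤ) : ℝ) + (θ * a + ρ) * (((mk a0 u).eval a : ℤ) : ℝ)| ≤ _ ∧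
      |(((mk a0 (fun k => round (x2 u k))).eval a : ℤ) : ℝ) - τ * (((mk a0 u).eval a : ℤ) : ℝ)| ≤ _
    rw [mk_eval, mk_eval, mk_eval, ← ht]
    have hθ : θ * a + ρ = ρ' + θ * t := by rw [hρ', ht]; ring
    refine ⟨?_, ?_, ?_⟩
    · have h1 : ∀ i : Fin (D + 1), |(u i : ℝ) * t ^ (i : ℕ)| ≤ B := by
        intro i
        have h2 : |(u i : ℝ)| ≤ B / L ^ (i : ℕ) := by
          have h3 : |(u i : ℝ)| ≤ M i := by exact_mod_cast huM i
          exact h3.trans (Nat.floor_le (by positivity))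
        rw [abs_mul, abs_of_nonneg (pow_nonneg ht0 _)]
        have h4 : t ^ (i : ℕ) ≤ L ^ (i : ℕ) := pow_le_pow_left₀ ht0 htL _
        have h5 := mul_le_mul h2 h4 (pow_nonneg ht0 _) (by positivity)
        have h6 : B / L ^ (i : ℕ) * L ^ (i : ℕ) = B := div_mul_cancel₀ _ (by positivity)
        linarith
      calc |∑ i : Fin (D + 1), (u i : ℝ) * t ^ (i : ℕ)| ≤ ∑ i : Fin (D + 1), |(u i : ℝ) * t ^ (i : ℕ)| :=
            Finset.abs_sum_le_sum_abs _ _
        _ ≤ ∑ _i : Fin (D + 1), B := Finset.sum_le_sum fun i _ => h1 i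
        _ = (D + 1) * B := by
            rw [Finset.sum_const, Finset.card_univ, Fintype.card_fin, nsmul_eq_mul]
            push_cast
            rfl
        _ ≤ 1 / (8 * ε) := by
            rw [hB, hE, mul_one_div, div_le_div_iff₀ (by positivity) (by positivity)]
            nlinarith
    · rw [hθ, ← l1_sum D ρ' θ t u, ← Finset.sum_add_distrib]
      have h1 : ∀ k : Fin (D + 2), ((-round (x1 u k) : ℤ) : ℝ) * t ^ (k : ℕ) +
          (∑ i, l1 D ρ' θ k i * (u i : ℝ)) * t ^ (k : ℕ) = (x1 u k - round (x1 u k)) * t ^ (k : ℕ) := by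
        intro k
        show _ + x1 u k * t ^ (k : ℕ) = _
        push_cast
        ring
      rw [Finset.sum_congr rfl fun k _ => h1 k]
      have h2 := sum_small (fun k => x1 u k - round (x1 u k)) b1 (E := E * Xr) ht0 htL (by positivity) hL hb1
        (fun k => by
          have h3 := huz (Fin.castAdd (D + 1) k)
          rw [Fin.addCases_left, Fin.addCases_left] at h3
          have h4 := rd h3
          rw [abs_sub_comm] at h4
          exact h4)
      refine h2.trans (le_of_eq ?_)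
      rw [hE]
      push_cast
      field_simp
    · rw [← l2_sum D τ t u, ← Finset.sum_sub_distrib]
      have h1 : ∀ k : Fin (D + 1), ((round (x2 u k) : ℤ) : ℝ) * t ^ (k : ℕ) -
          (∑ i, l2 D τ k i * (u i : ℝ)) * t ^ (k : ℕ) = (round (x2 u k) - x2 u k) * t ^ (k : ℕ) := by
        intro k
        show _ - x2 u k * t ^ (k : ℕ) = _
        ring
      rw [Finset.sum_congr rfl fun k _ => h1 k]
      have h2 := sum_small (fun k => (round (x2 u k) : ℝ) - x2 u k) b2 (E := E) ht0 htL hE0 hL hb2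
        (fun k => by
          have h3 := huz (Fin.natAdd (D + 2) k)
          rw [Fin.addCases_right, Fin.addCases_right] at h3
          exact rd h3)
      refine h2.trans ?_
      rw [hE]
      push_cast
      rw [div_le_div_iff₀ (by positivity) (by norm_num)]
      linarith

end Pool.Agent.UHJ
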