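import Pool.Agent.UHI.Stmts

/-!
# Inhomogeneous inverse theorem (block 2 of the lower bound 1/3 for the dimensions of MP_c538e3_nt)

`Stmt_INV2`: if for a dense set `S` of integers `a` in `[A/2, A]` there are integers `1 <= j_a <= X` and `p_a`
with `|p_a + τ - j_a (θ a + ρ)| <= ε` (`τ` a fixed real number), where `ε X^(4/3) A^(1/4+η) <= 1`, then
the slope `θ` has a homogeneous approximation: `|p' - j' θ| <= ε A^(-1+η)`, `1 <= j' <= X A^η`.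

Plan (`D` a large degree, `Kd D = 50 (D+1)^2`, `X' = X^(1+1/(D+1)) A^(Kd s)`, `ε' = X^(1/(D+1)) ε A^(Kd s)`).
MAIN2: if half of the `a` in `S` have a homogeneous pair `(u, v)`, `1 <= u <= X'`,
`|v - u (θ a + ρ)| <= ε'`, then the homogeneous inverse theorem `UHI.Stmt_INV` gives the claim.
Otherwise remove these `a`: on the rest (`Dat2`, field `hno`) there is no homogeneous pair at all. On a short
interval SIEGT gives many integer triples `(U, V, W)` of polynomials with `V ~ -(θ x + ρ) U`,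
`W ~ τ U`, so `U p + V j + W = 0` on `S`. If all are multiples of one primitive triple, counting the
multiples (CNT, RK1) gives a homogeneous pair at some `a` in `S`: impossible. So there are two
independent triples (INITA), and `D0 (p, j, 1) = (P, J, D0)` with polynomials of degree at most
`2 D + 1` (RK2). `D0(a)` divides one integer (LAM, RESN) with few divisors, so `D0` is a constant `d` (DCON),
and `|d|` is small by a Vandermonde product (VDMN, D0B). In every enlargement of the interval (STEP2) the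
pair `(J(a) - d j_a, P(a) - d p_a)` would be a homogeneous pair, so it is zero. FIN2: leading
coefficients. The folder `Pool/Agent/UHI` contains `m_LAGV`, `m_LAGA`, `m_SPR`, `m_NEST`, `m_DIV`,
`m_RES`, `m_VDM`, `m_PRIM` (proved; read them as models).
-/

namespace Pool.Agent.UHJ

open Polynomial Pool.Agent.UHI

/-- loss exponent -/
noncomputable def Kd (D : ℕ) : ℝ := 50 * ((D : ℝ) + 1) ^ 2

/-- primitive triple of integer polynomials -/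
structure Prim3 (U V W : ℤ[X]) : Prop where
  ratl : ∀ q : ℚ[X], q ∣ U.map (Int.castRingHom ℚ) → q ∣ V.map (Int.castRingHom ℚ) →
    q ∣ W.map (Int.castRingHom ℚ) → IsUnit q
  cont : ∀ m v : ℤ, (∀ k, m ∣ v * U.coeff k) → (∀ k, m ∣ v * V.coeff k) →
    (∀ k, m ∣ v * W.coeff k) → m ∣ v
  mult : ∀ U' V' W' : ℤ[X], U' * V = U * V' → U' * W = U * W' →
    ∃ c : ℤ[X], U' = c * U ∧ V' = c * V ∧ W' = c * W

/-- the data of the inhomogeneous inverse theorem after the removal of the `a` with a homogeneous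
pair (`hno`) -/
structure Dat2 (D : ℕ) (A s C θ ρ τ X ε : ℝ) (S : Finset ℤ) (j p : ℤ → ℤ) : Prop where
  hX1 : 1 ≤ X
  hXA : X ≤ A ^ C
  hεA : A ^ (-C) ≤ ε
  hH : ε * X ^ (4 / 3 + 3 / ((D : ℝ) + 1)) * A ^ (1 / 4 + 3 * Kd D * s) ≤ 1
  hθ0 : 0 ≤ θ
  hθ1 : θ ≤ 1
  hρ0 : 0 ≤ ρ
  hρ1 : ρ ≤ 1
  hτ0 : 0 ≤ τ
  hτ1 : τ ≤ 1
  hS : ∀ a ∈ S, A / 2 ≤ (a : ℝ) ∧ (a : ℝ) ≤ A
  hj1 : ∀ a ∈ S, 1 ≤ j a
  hjX : ∀ a ∈ S, (j a : ℝ) ≤ X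
  hap : ∀ a ∈ S, |(p a : ℝ) + τ - j a * (θ * a + ρ)| ≤ ε
  hno : ∀ a ∈ S, ∀ u v : ℤ, 1 ≤ u → (u : ℝ) ≤ X ^ (1 + 1 / ((D : ℝ) + 1)) * A ^ (Kd D * s) →
    X ^ (1 / ((D : ℝ) + 1)) * ε * A ^ (Kd D * s) < |(v : ℝ) - u * (θ * a + ρ)|

/-- **PIGN.** Pigeonhole for `m` linear forms modulo 1.
PROOF. Map `u` in `∏ [0, M_i]` to the vector of the `⌊b_k * fract (ℓ_k u)⌋` in `∏ [0, b_k)`. Some fibre `G` has
`|G| * ∏ b_k >= ∏ (M_i + 1)`. Fix `u₀` in `G`, `F` = the differences `u - u₀`, `u` in `G`;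
`z_k = ⌊ℓ_k u⌋ - ⌊ℓ_k u₀⌋`. -/
def Stmt_PIGN : Prop :=
  ∀ (n m : ℕ) (ℓ : Fin m → Fin n → ℝ) (M : Fin n → ℕ) (b : Fin m → ℕ), (∀ k, 1 ≤ b k) →
    ∃ F : Finset (Fin n → ℤ), (∏ i, (M i + 1)) ≤ F.card * ∏ k, b k ∧
      ∀ u ∈ F, (∀ i, |u i| ≤ (M i : ℤ)) ∧
        ∀ k, ∃ z : ℤ, |(z : ℝ) - ∑ i, ℓ k i * (u i : ℝ)| * b k ≤ 1

/-- **SIEGT.** Many triples of integer polynomials on the interval `[a0, a0 + L]`.
PROOF. `E = 8 (D + 2)`, `B = 1 / (E ε)`, `ρ' = θ a0 + ρ`. PIGN with `n = D + 1`, `M_i = ⌊B / L^i⌋` (`M_i + 1 >= B/L^i`)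
and the `2 D + 3` forms `ρ' u_i + θ u_(i-1)`, `0 <= i <= D + 1` (`u_(-1) = u_(D+1) = 0`) with
`b = ⌈E X L^i⌉ <= 2 E X L^i` boxes, and `τ u_i`, `0 <= i <= D`, with `⌈E L^i⌉ <= 2 E L^i` boxes. So
`|F| >= B^(D+1) / (L^(D(D+1)/2) (2E)^(2D+3) X^(D+2) L^((D+1)^2))`, which is at least the bound of the statement, because
`E^(D+1) (2E)^(2D+3) <= (2E)^(4(D+1))`, `D(D+1)/2 + (D+1)^2 <= 2(D+1)^2`, `X^(D+2) = (X^(1+1/(D+1)))^(D+1)`.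
`U = ∑ u_i (x - a0)^i`, `V = ∑ v_i (x - a0)^i` with `v_i = -z`, `z` the integer for the form `i` of the first kind,
`W = ∑ w_i (x-a0)^i` with `w_i` the integer for the form of the second kind. With `t = a - a0` in `[0, L]`:
`|U(a)| <= (D+1) B <= 1/(8 ε)`, `V(a) + (θ a + ρ) U(a) = ∑ (v_i + ρ' u_i + θ u_(i-1)) t^i`, which is at most
`(D+2) / (E X) = 1/(8 X)`, `|W(a) - τ U(a)| <= (D+1)/E <= 1/8`. The vector `u` is determined by `U`. -/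
def Stmt_SIEGT : Prop :=
  ∀ (D : ℕ) (X L θ ρ τ ε : ℝ) (a0 : ℤ), 1 ≤ X → 1 ≤ L → 0 < ε →
    ∃ F : Finset (ℤ[X] × ℤ[X] × ℤ[X]),
      (1 / (ε * X ^ (1 + 1 / ((D : ℝ) + 1)) * (16 * ((D : ℝ) + 2)) ^ 4 * L ^ (2 * (D + 1)))) ^ (D + 1) ≤
        (F.card : ℝ) ∧
      Set.InjOn Prod.fst (F : Set (ℤ[X] × ℤ[X] × ℤ[X])) ∧
      ∀ t ∈ F, t.1.natDegree ≤ D ∧ t.2.1.natDegree ≤ D + 1 ∧ t.2.2.natDegree ≤ D ∧
        ∀ a : ℤ, (a0 : ℝ) ≤ a → (a : ℝ) ≤ a0 + L →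
          |((t.1.eval a : ℤ) : ℝ)| ≤ 1 / (8 * ε) ∧
          |((t.2.1.eval a : ℤ) : ℝ) + (θ * a + ρ) * ((t.1.eval a : ℤ) : ℝ)| ≤ 1 / (8 * X) ∧
          |((t.2.2.eval a : ℤ) : ℝ) - τ * ((t.1.eval a : ℤ) : ℝ)| ≤ 1 / 8

/-- **TPRIM.** Division by the greatest common divisor in `ℤ[X]` (a UFD).
PROOF. `h` = a gcd of `U, V, W` in `ℤ[X]` (`UniqueFactorizationMonoid.toGCDMonoid` or `NormalizedGCDMonoid`),
`(U, V, W) = h (U0, V0, W0)`, `gcd (U0, V0, W0) = 1`. `ratl`: a common factor of positive degree over `ℚ` gives,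
by Gauss (primitive part, `Polynomial.IsPrimitive.Int.dvd_iff_map_cast_dvd_map_cast`), a common
factor of positive degree over `ℤ`. `cont`: if `m` divides `v` times all coefficients then `C m` divides
`C v * U0`, `C v * V0`, `C v * W0`, hence `C v * gcd = C v`. `mult`: `U0` divides `U' V0`, `U' W0`, `U' U0`, hence
`U'`; `U' = c U0`, and `U0 V' = c U0 V0` gives `V' = c V0`, in the same way `W' = c W0`.
Model: `Pool/Agent/UHI/Prim.lean`. -/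
def Stmt_TPRIM : Prop :=
  ∀ U V W : ℤ[X], U ≠ 0 → ∃ h U0 V0 W0 : ℤ[X], h ≠ 0 ∧ U = h * U0 ∧ V = h * V0 ∧ W = h * W0 ∧
    Prim3 U0 V0 W0

/-- **RESN.** As `UHI.Stmt_RES` for arbitrary degree (`Pool/Agent/UHI/Res.lean` with `n` for 3). -/
def Stmt_RESN : Prop :=
  ∀ (n : ℕ) (F G : ℤ[X]) (B : ℝ), F.natDegree ≤ n → G.natDegree ≤ n →
    IsCoprime (F.map (Int.castRingHom ℚ)) (G.map (Int.castRingHom ℚ)) → 1 ≤ B →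
    (∀ k, |(F.coeff k : ℝ)| ≤ B) → (∀ k, |(G.coeff k : ℝ)| ≤ B) →
    ∃ R : ℕ, 1 ≤ R ∧ (R : ℝ) ≤ ((2 * n).factorial : ℝ) * B ^ (2 * n + 1) ∧
      ∀ a d : ℤ, d ∣ F.eval a → d ∣ G.eval a → d ∣ (R : ℤ)

/-- **VDMN.** As `UHI.Stmt_VDM` for `n + 1` points (`Pool/Agent/UHI/Vdm.lean`). -/
def Stmt_VDMN : Prop :=
  ∀ (n : ℕ) (H : ℤ[X]) (m : ℤ) (a : Fin (n + 1) → ℤ), H.natDegree ≤ n → (∀ i, m ∣ H.eval (a i)) →
    ∀ k, m ∣ (∏ i : Fin (n + 1), ∏ l ∈ Finset.Ioi i, (a l - a i)) * H.coeff k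

/-- **LAM.** A linear combination of `V` and `W` coprime to `U`.
PROOF. If not, for every `l` in `{0, …, n}` there is an irreducible (monic) `π_l` in `ℚ[X]` dividing `U` and
`V + l W`. `U ≠ 0` has at most `n` monic irreducible divisors, so `π_l = π_l'` for some `l ≠ l'`; it divides
`(l - l') W`, hence `W`, hence `V`: contradiction. -/
def Stmt_LAM : Prop :=
  ∀ (n : ℕ) (U V W : ℤ[X]), U ≠ 0 → U.natDegree ≤ n →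
    (∀ q : ℚ[X], q ∣ U.map (Int.castRingHom ℚ) → q ∣ V.map (Int.castRingHom ℚ) →
      q ∣ W.map (Int.castRingHom ℚ) → IsUnit q) →
    ∃ l : ℕ, l ≤ n ∧ IsCoprime (U.map (Int.castRingHom ℚ))
      ((V + Polynomial.C (l : ℤ) * W).map (Int.castRingHom ℚ))

/-- **DCON.** If `U(a)` divides `V(a)` and `W(a)` for many `a` then `U` is a constant.
PROOF (hypotheses `Stmt_LAM`, `Stmt_RESN`, `UHI.Stmt_DIV`). Suppose `U.natDegree ≥ 1`. LAM gives `l <= n`; the coefficients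
of `V + l W` are `<= (n+1) A^C <= A^(C+1)`; RESN (`B = A^(C+1)`) gives `R <= (2n)! A^((C+1)(2n+1)) <= A^(C')`; for `a`
in `T` the integer `U(a)` divides `U(a)` and `(V + l W)(a)`, so `U(a)` divides `R`. By DIV (`C'`, `s/2`) there are
at most `2 A^(s/2)` possible values of `U(a)`, each is taken at most `n` times
(`Polynomial.card_roots'` for `U - C c`), so `|T| <= 2 n A^(s/2) < A^s`. -/
def Stmt_DCON : Prop :=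
  ∀ (n : ℕ) (C s : ℝ), 0 < C → 0 < s → ∃ A0 : ℝ, 1 ≤ A0 ∧ ∀ A : ℝ, A0 ≤ A →
    ∀ (U V W : ℤ[X]), U ≠ 0 → U.natDegree ≤ n → V.natDegree ≤ n → W.natDegree ≤ n → Prim3 U V W →
      (∀ k, |(U.coeff k : ℝ)| ≤ A ^ C) → (∀ k, |(V.coeff k : ℝ)| ≤ A ^ C) →
      (∀ k, |(W.coeff k : ℝ)| ≤ A ^ C) →
      ∀ T : Finset ℤ, A ^ s ≤ (T.card : ℝ) →
        (∀ a ∈ T, U.eval a ∣ V.eval a ∧ U.eval a ∣ W.eval a) → U.natDegree = 0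

/-- **D0B.** Size of a constant denominator.
PROOF (hypothesis `Stmt_VDMN`). Take `n + 1` elements `a_0 < … < a_n` of `T`, `w` = the Vandermonde product, `w ≠ 0`.
`d` divides `w d`, and `w * coeff` for all coefficients of `V` and `W` (VDMN), so `d` divides `w`, and
`|d| <= |w| <= l^((n+1)^2)` (at most `(n+1)^2` factors between 1 and `l`). -/
def Stmt_D0B : Prop :=
  ∀ (n : ℕ) (d : ℤ) (V W : ℤ[X]) (T : Finset ℤ) (v l : ℝ), d ≠ 0 → V.natDegree ≤ n → W.natDegree ≤ n →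
    (∀ m w : ℤ, m ∣ w * d → (∀ k, m ∣ w * V.coeff k) → (∀ k, m ∣ w * W.coeff k) → m ∣ w) →
    1 ≤ l → (∀ a ∈ T, v ≤ (a : ℝ) ∧ (a : ℝ) ≤ v + l) → n + 1 ≤ T.card →
    (∀ a ∈ T, d ∣ V.eval a ∧ d ∣ W.eval a) → |(d : ℝ)| ≤ l ^ ((n + 1) ^ 2)

/-- **CNT.** Integer polynomials of degree at most `D` with values at most `M` at `D + 1` given integers.
PROOF. `c ↦ (c (t_i))_i` is injective on these polynomials (a difference of degree `<= D` with `D + 1` roots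
is 0), and there are at most `2 M + 1` integers in `[-M, M]`. -/
def Stmt_CNT : Prop :=
  ∀ (D : ℕ) (M : ℝ) (F : Finset ℤ[X]) (t : Fin (D + 1) → ℤ), Function.Injective t → 0 ≤ M →
    (∀ c ∈ F, c.natDegree ≤ D) → (∀ c ∈ F, ∀ i, |((c.eval (t i) : ℤ) : ℝ)| ≤ M) →
    (F.card : ℝ) ≤ (2 * M + 1) ^ (D + 1)

/-- **RK1.** Many multiples of one pair give a homogeneous pair at some `a`.
PROOF (hypothesis `Stmt_CNT`). `U0` has at most `D` roots, so there are `D + 1` elements `t_i` of `T` with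
`U0 (t_i) ≠ 0`. For `t` in `F` let `c_t` be the factor, `c_t.natDegree ≤ D` (or `c_t = 0`); `t ↦ c_t` is injective
on `F` (`t.1 = c_t U0` and `InjOn`). If `|c_t (t_i)| <= M` for all `t`, `i` then CNT gives
`|F| <= (2M+1)^(D+1)`, a contradiction. So `|c_t(a)| > M` for some `t` in `F`, `a = t_i`, and `U0(a) ≠ 0`:
`u = |U0(a)|`, `v = ± V0(a)` (`v - u g = ∓...`): `|U0(a)| = |t.1(a)| / |c_t(a)| <= B1/M`,
`|V0(a) + g(a) U0(a)| <= B2/M`. (`v = - sign(U0(a)) V0(a)`.) -/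
def Stmt_RK1 : Prop :=
  ∀ (D : ℕ) (M B1 B2 : ℝ) (F : Finset (ℤ[X] × ℤ[X] × ℤ[X])) (U0 V0 : ℤ[X]) (T : Finset ℤ) (g : ℤ → ℝ),
    Set.InjOn Prod.fst (F : Set (ℤ[X] × ℤ[X] × ℤ[X])) → U0 ≠ 0 → U0.natDegree ≤ D → 0 < M →
    (2 * M + 1) ^ (D + 1) < (F.card : ℝ) → (∀ t ∈ F, t.1.natDegree ≤ D) →
    (∀ t ∈ F, ∃ c : ℤ[X], t.1 = c * U0 ∧ t.2.1 = c * V0) → 2 * D + 1 ≤ T.card →
    (∀ a ∈ T, ∀ t ∈ F, |((t.1.eval a : ℤ) : ℝ)| ≤ B1 ∧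
      |((t.2.1.eval a : ℤ) : ℝ) + g a * ((t.1.eval a : ℤ) : ℝ)| ≤ B2) →
    ∃ a ∈ T, ∃ u v : ℤ, 1 ≤ u ∧ (u : ℝ) ≤ B1 / M ∧ |(v : ℝ) - u * g a| ≤ B2 / M

/-- **RK2.** Two independent relations.
PROOF (hypothesis `Stmt_TPRIM`). `N₁ = U V' - U' V`, `N_j = W U' - W' U`, `N_p = V W' - V' W`: on `T`, `N₁ p = N_p` and
`N₁ j = N_j` (combine the two relations). If `N₁ = 0` then `N_j` (degree `<= 2 D`) vanishes on `T`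
(`>= 2 D + 2` points), so `N_j = 0`, against the hypothesis. TPRIM for `(N₁, N_j, N_p)`; the degrees of
`h`, `D0` are at most the one of `h D0 = N₁ ≠ 0`, the degree of `J` is at most the one of `h J` (or `J = 0`),
in the same way `P`; all are `<= 2 D + 1`. -/
def Stmt_RK2 : Prop :=
  ∀ (D : ℕ) (U V W U' V' W' : ℤ[X]) (T : Finset ℤ) (j p : ℤ → ℤ),
    U.natDegree ≤ D → V.natDegree ≤ D + 1 → W.natDegree ≤ D →
    U'.natDegree ≤ D → V'.natDegree ≤ D + 1 → W'.natDegree ≤ D →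
    ¬ (U' * V = U * V' ∧ U' * W = U * W') → 2 * D + 2 ≤ T.card →
    (∀ a ∈ T, U.eval a * p a + V.eval a * j a + W.eval a = 0) →
    (∀ a ∈ T, U'.eval a * p a + V'.eval a * j a + W'.eval a = 0) →
    ∃ h D0 J P : ℤ[X], h ≠ 0 ∧ D0 ≠ 0 ∧ Prim3 D0 J P ∧ h.natDegree ≤ 2 * D + 1 ∧
      D0.natDegree ≤ 2 * D + 1 ∧ J.natDegree ≤ 2 * D + 1 ∧ P.natDegree ≤ 2 * D + 1 ∧
      h * D0 = U * V' - U' * V ∧ h * J = W * U' - W' * U ∧ h * P = V * W' - V' * W ∧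
      ∀ a ∈ T, h.eval a ≠ 0 → D0.eval a * j a = J.eval a ∧ D0.eval a * p a = P.eval a

/-- **COEF.** Coefficients from values. PROOF. `UHI.Stmt_SPR` (`m = 1`) and `UHI.Stmt_LAGA` (proved:
`UHI.m_SPR`, `UHI.m_LAGA`). -/
def Stmt_COEF : Prop :=
  ∀ (n : ℕ) (H : ℤ[X]) (B A : ℝ) (T : Finset ℤ), H.natDegree ≤ n → n + 1 ≤ T.card →
    (∀ a ∈ T, |(a : ℝ)| ≤ A) → (∀ a ∈ T, |((H.eval a : ℤ) : ℝ)| ≤ B) →
    ∀ k, |(H.coeff k : ℝ)| ≤ (n + 1) * B * (1 + A) ^ n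

/-- **LAGE.** Lagrange interpolation, coefficient of degree `e`.
PROOF. `H = ∑_i H(a_i) ∏_(l ≠ i) (x - a_l)/(a_i - a_l)`; the coefficient of `x^e` in `∏_(l ≠ i) (x - a_l)` is up to sign
the elementary symmetric polynomial of degree `n - e` of `n` numbers of size at most `W`, hence at most
`2^n W^(n-e)` (or induction on the number of factors), and `∏ |a_i - a_l| >= m^n`.
Model: `Pool/Agent/UHI/Lag.lean`. -/
def Stmt_LAGE : Prop :=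
  ∀ (n e : ℕ) (H : ℝ[X]) (B m W : ℝ) (a : ℕ → ℤ), H.natDegree ≤ n → e ≤ n → 0 < m →
    (∀ i < n, (a i : ℝ) + m ≤ a (i + 1)) → (∀ i ≤ n, |H.eval (a i : ℝ)| ≤ B) →
    (∀ i ≤ n, |(a i : ℝ)| ≤ W) →
    |H.coeff e| ≤ (n + 1) * B * 2 ^ n * W ^ (n - e) / m ^ n

/-- **INITA.** Two independent triples on a short interval.
PROOF (hypotheses `Stmt_SIEGT`, `Stmt_TPRIM`, `Stmt_RK1`). `a0 = ⌊v⌋`, `L = l + 1 <= 2 A^(7s)`; `cut S v l` is in `[a0, a0+L]`.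
`Q = (16(D+2))^4 L^(2(D+1))`, `M0 = 1/(ε X^(1+1/(D+1)) Q)`. By `hH` and `1 + 1/(D+1) <= 4/3 + 3/(D+1)`:
`ε X^(1+1/(D+1)) <= A^(-1/4 - 3 Kd s)`, so `M0 >= A^(1/4 + 3 Kd s - 15 (D+1) s) >= 4` for large `A`. Let `F` be the set
of SIEGT, `|F| >= M0^(D+1) > (2 M + 1)^(D+1)` for `M = M0/4` (also `|F| >= 2`). For `t = (U,V,W)` in `F` and `a` in
`cut S v l`, `p = j f - τ + e`, `|e| <= ε`, `f = θ a + ρ`:
`|U p + V j + W| = |j (V + U f) + (W - τ U) + U e| <= X/(8X) + 1/8 + 1/8 < 1`, so it is 0. Choose `t₁ = (U,V,W)` in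
`F` with `U ≠ 0` (two elements have different first components). If some `t' = (U',V',W')` in `F` has not
(`U' V = U V'` and `U' W = U W'`): done. Otherwise TPRIM for `t₁` gives `h, U0, V0, W0`; cancelling `h`,
`U' V0 = U0 V'`, `U' W0 = U0 W'`, so every `t'` is a multiple (`mult`), and RK1 with `T = cut S v l`
(`|T| >= A^(3s) >= 2 D + 1`), `g a = θ a + ρ`, `B1 = 1/(8ε)`, `B2 = 1/(8X)` gives `a`, `u <= 4/(8 ε M0) = X^(1+1/(D+1)) Q / 2`,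
`|v - u g| <= 4/(8 X M0) = ε X^(1/(D+1)) Q/2`, and `Q/2 <= A^(Kd s)` for large `A`
(`14 (D+1) < 50 (D+1)^2`): contradiction to `hno`. Bounds of the values: `|U(a)| <= 1/(8ε) <= A^C`,
`|V(a)| <= 1 + (A+1) |U(a)|`, `|W(a)| <= 1 + |U(a)|`, all `<= A^(C+1)`. -/
def Stmt_INITA : Prop :=
  ∀ (D : ℕ) (C s : ℝ), 2 ≤ D → 1 ≤ C → 0 < s → s ≤ 1 / 10000 → ∃ A0 : ℝ, 1 ≤ A0 ∧
    ∀ (A θ ρ τ X ε : ℝ) (S : Finset ℤ) (j p : ℤ → ℤ), A0 ≤ A → Dat2 D A s C θ ρ τ X ε S j p →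
      ∀ v l : ℝ, A ^ (5 * s) ≤ l → l ≤ A ^ (7 * s) → A ^ (-(2 * s)) * l ≤ ((cut S v l).card : ℝ) →
        ∃ U V W U' V' W' : ℤ[X],
          (U.natDegree ≤ D ∧ V.natDegree ≤ D + 1 ∧ W.natDegree ≤ D) ∧
          (U'.natDegree ≤ D ∧ V'.natDegree ≤ D + 1 ∧ W'.natDegree ≤ D) ∧
          ¬ (U' * V = U * V' ∧ U' * W = U * W') ∧
          (∀ a ∈ cut S v l, U.eval a * p a + V.eval a * j a + W.eval a = 0 ∧
            |((U.eval a : ℤ) : ℝ)| ≤ A ^ (C + 1) ∧ |((V.eval a : ℤ) : ℝ)| ≤ A ^ (C + 1) ∧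
            |((W.eval a : ℤ) : ℝ)| ≤ A ^ (C + 1)) ∧
          (∀ a ∈ cut S v l, U'.eval a * p a + V'.eval a * j a + W'.eval a = 0 ∧
            |((U'.eval a : ℤ) : ℝ)| ≤ A ^ (C + 1) ∧ |((V'.eval a : ℤ) : ℝ)| ≤ A ^ (C + 1) ∧
            |((W'.eval a : ℤ) : ℝ)| ≤ A ^ (C + 1))

/-- **INITB.** Polynomials with a constant denominator.
PROOF (hypotheses `Stmt_RK2`, `Stmt_COEF`, `Stmt_DCON`, `Stmt_D0B`). `|cut S v l| >= A^(3s) >= 4 D + 4`. RK2 with `T = cut S v l`;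
let `T` = the part of `cut S v l` where `h ≠ 0`: `|T| >= |cut| - (2D+1) >= A^(-2s) l / 2`. On `T` we have `|h(a)| >= 1`, so
`|D0(a)|, |J(a)|, |P(a)| <= 2 A^(2C+2)`, and by COEF (`n = 2D+1`, `|a| <= A`) the coefficients are
`<= (2D+2) 2 A^(2C+2) (1+A)^(2D+1) <= A^(2C+2D+4)`. `D0(a)` divides `J(a) = D0(a) j_a` and `P(a)`; DCON
(`C' = 2C+2D+4`, `s`; `|T| >= A^(3s)/2 >= A^s`): `D0 = C d`, `d ≠ 0`. D0B with `n = 2D+1`, `l <= A^(7s)`: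
`|d| <= l^((2D+2)^2) <= A^(28 (D+1)^2 s)` (the hypothesis on `m, w` is `Prim3.cont`). -/
def Stmt_INITB : Prop :=
  ∀ (D : ℕ) (C s : ℝ), 2 ≤ D → 1 ≤ C → 0 < s → s ≤ 1 / 10000 → ∃ A0 : ℝ, 1 ≤ A0 ∧
    ∀ (A : ℝ) (S : Finset ℤ) (j p : ℤ → ℤ), A0 ≤ A →
      (∀ a ∈ S, A / 2 ≤ (a : ℝ) ∧ (a : ℝ) ≤ A) →
      ∀ v l : ℝ, A ^ (5 * s) ≤ l → l ≤ A ^ (7 * s) → A ^ (-(2 * s)) * l ≤ ((cut S v l).card : ℝ) →
      ∀ U V W U' V' W' : ℤ[X],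
          (U.natDegree ≤ D ∧ V.natDegree ≤ D + 1 ∧ W.natDegree ≤ D) →
          (U'.natDegree ≤ D ∧ V'.natDegree ≤ D + 1 ∧ W'.natDegree ≤ D) →
          ¬ (U' * V = U * V' ∧ U' * W = U * W') →
          (∀ a ∈ cut S v l, U.eval a * p a + V.eval a * j a + W.eval a = 0 ∧
            |((U.eval a : ℤ) : ℝ)| ≤ A ^ (C + 1) ∧ |((V.eval a : ℤ) : ℝ)| ≤ A ^ (C + 1) ∧
            |((W.eval a : ℤ) : ℝ)| ≤ A ^ (C + 1)) →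
          (∀ a ∈ cut S v l, U'.eval a * p a + V'.eval a * j a + W'.eval a = 0 ∧
            |((U'.eval a : ℤ) : ℝ)| ≤ A ^ (C + 1) ∧ |((V'.eval a : ℤ) : ℝ)| ≤ A ^ (C + 1) ∧
            |((W'.eval a : ℤ) : ℝ)| ≤ A ^ (C + 1)) →
        ∃ (d : ℤ) (J P : ℤ[X]) (T : Finset ℤ), d ≠ 0 ∧
          |(d : ℝ)| ≤ A ^ (28 * ((D : ℝ) + 1) ^ 2 * s) ∧
          J.natDegree ≤ 2 * D + 1 ∧ P.natDegree ≤ 2 * D + 1 ∧ T ⊆ cut S v l ∧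
          A ^ (-(2 * s)) * l / 2 ≤ (T.card : ℝ) ∧
          ∀ a ∈ T, d * j a = J.eval a ∧ d * p a = P.eval a

/-- **STEP2.** From a dense subset `T` of `cut S v l` to all of `cut S u L`.
PROOF (hypotheses `UHI.Stmt_SPR`, `UHI.Stmt_LAGV`). `n = 2D+2`; SPR in `T` with `m = ⌊(|T|-1)/n⌋ >= A^(-2s) l/(8(D+1))`
(`|T| >= A^(3s)/2` is large); all points of `T` and `a` are in `[u, u+L]`, `W = L <= A^(2s) l`, so
`(W/m)^n <= (8(D+1) A^(4s))^(2D+2) <= A^(8(D+1)s + s)/(2D+3)/…` for large `A`. LAGV for `J` (values `|d j| <= |d| X` on `T`):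
`|J(a)| <= |d| X A^(9(D+1)s)`, and for `H = P + d τ - J (θ x + ρ)` (degree `<= 2D+2`, values
`|d (p + τ - j f)| <= |d| ε` on `T`): `|H(a)| <= |d| ε A^(9(D+1)s)`. Let `u₁ = J(a) - d j_a`, `v₁ = P(a) - d p_a`,
`a` in `cut S u L`: `|u₁| <= X A^(Kd s)`, `v₁ - u₁ f(a) = H(a) - d (p_a + τ - j_a f(a))`, at most `ε A^(Kd s)`
(`28(D+1)^2 + 9(D+1) + 1 <= 50 (D+1)^2`). If `u₁ ≠ 0`, the pair `(|u₁|, ± v₁)` contradicts `hno` (`X >= 1`). So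
`u₁ = 0` and `|v₁| <= ε A^(Kd s) < 1` by `hH`, so `v₁ = 0`. -/
def Stmt_STEP2 : Prop :=
  ∀ (D : ℕ) (C s : ℝ), 2 ≤ D → 1 ≤ C → 0 < s → s ≤ 1 / 10000 → ∃ A0 : ℝ, 1 ≤ A0 ∧
    ∀ (A θ ρ τ X ε : ℝ) (S : Finset ℤ) (j p : ℤ → ℤ), A0 ≤ A → Dat2 D A s C θ ρ τ X ε S j p →
      ∀ (d : ℤ) (J P : ℤ[X]) (T : Finset ℤ) (v l u L : ℝ), d ≠ 0 →
        |(d : ℝ)| ≤ A ^ (28 * ((D : ℝ) + 1) ^ 2 * s) →
        J.natDegree ≤ 2 * D + 1 → P.natDegree ≤ 2 * D + 1 → A ^ (5 * s) ≤ l → T ⊆ cut S v l →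
        A ^ (-(2 * s)) * l / 2 ≤ (T.card : ℝ) → (∀ a ∈ T, d * j a = J.eval a ∧ d * p a = P.eval a) →
        u ≤ v → v + l ≤ u + L → L ≤ A ^ (2 * s) * l →
        ∀ a ∈ cut S u L, d * j a = J.eval a ∧ d * p a = P.eval a

/-- **FIN2.** Leading coefficients.
PROOF (hypotheses `UHI.Stmt_SPR`, `Stmt_LAGE`). `n = 2D+2`, SPR in `S` with `m >= A^(1-2s)/(8(D+1))`, LAGE with `W = A`:
a polynomial of degree `<= n` with values `<= B` on `S` has `|coeff e| <= (n+1) B 2^n A^(n-e)/m^n <= B A^(-e + 5(D+1)s)`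
for large `A`. `J ≠ 0` (`J(a) = d j_a ≠ 0`), `e = natDegree J`, `c = J.coeff e ≠ 0`, `|c| <= |d| X A^(-e+5(D+1)s)`.
`H = P + d τ - J (θ x + ρ)` has values `<= |d| ε` on `S` and `H.coeff (e+1) = P.coeff (e+1) - θ c`
(`J.coeff (e+1) = 0`), so `|P.coeff (e+1) - θ c| <= |d| ε A^(-e-1+5(D+1)s)` (`e + 1 <= n`). `j' = |c|`,
`p' = ± P.coeff (e+1)`, and `28(D+1)^2 + 5(D+1) <= 50 (D+1)^2`. -/
def Stmt_FIN2 : Prop :=
  ∀ (D : ℕ) (C s : ℝ), 2 ≤ D → 1 ≤ C → 0 < s → s ≤ 1 / 10000 → ∃ A0 : ℝ, 1 ≤ A0 ∧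
    ∀ (A θ ρ τ X ε : ℝ) (S : Finset ℤ) (j p : ℤ → ℤ), A0 ≤ A → Dat2 D A s C θ ρ τ X ε S j p →
      A ^ (1 - 2 * s) ≤ (S.card : ℝ) →
      ∀ (d : ℤ) (J P : ℤ[X]), d ≠ 0 → |(d : ℝ)| ≤ A ^ (28 * ((D : ℝ) + 1) ^ 2 * s) →
        J.natDegree ≤ 2 * D + 1 → P.natDegree ≤ 2 * D + 1 →
        (∀ a ∈ S, d * j a = J.eval a ∧ d * p a = P.eval a) →
        ∃ j' p' : ℤ, 1 ≤ j' ∧ (j' : ℝ) ≤ X * A ^ (Kd D * s) ∧
          |(p' : ℝ) - j' * θ| ≤ ε * A ^ (-1 + Kd D * s)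

/-- **CORE.** The theorem for data without homogeneous pairs.
PROOF (hypotheses `UHI.Stmt_NEST`, `Stmt_INITA`, `Stmt_INITB`, `Stmt_STEP2`, `Stmt_FIN2`). `M = ⌈A^s⌉`, `A^s <= M <= A^s + 1 <= A^(2s)`,
`M >= 2`. NEST with `u = L = A/2`, `r = A^(-2s)` (`r A/2 <= A^(1-2s) <= |S|`): `v_k`, `l_k = (A/2)/M^k`,
`|cut S v_k l_k| >= A^(-2s) l_k`. Let `k₀` be the largest `k` with `A^(5s) <= l_k` (`l_0 = A/2 >= A^(5s)`, and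
`l_k → 0`): `l_(k₀) < A^(5s) M <= A^(7s)`. INITA and INITB on `[v_(k₀), v_(k₀) + l_(k₀)]` give `d, J, P, T`; STEP2 with
`u = v`, `L = l` gives the equalities on `cut S v_(k₀) l_(k₀)`. Downward induction with STEP2
(`T = cut S v_(k+1) l_(k+1)`, `L = l_k = M l_(k+1) <= A^(2s) l_(k+1)`): the equalities hold on
`cut S v_0 l_0 = S`. FIN2. -/
def Stmt_CORE : Prop :=
  ∀ (D : ℕ) (C s : ℝ), 2 ≤ D → 1 ≤ C → 0 < s → s ≤ 1 / 10000 → ∃ A0 : ℝ, 1 ≤ A0 ∧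
    ∀ (A θ ρ τ X ε : ℝ) (S : Finset ℤ) (j p : ℤ → ℤ), A0 ≤ A → Dat2 D A s C θ ρ τ X ε S j p →
      A ^ (1 - 2 * s) ≤ (S.card : ℝ) →
        ∃ j' p' : ℤ, 1 ≤ j' ∧ (j' : ℝ) ≤ X * A ^ (Kd D * s) ∧
          |(p' : ℝ) - j' * θ| ≤ ε * A ^ (-1 + Kd D * s)

/-- **MAIN2.** The theorem with the degree `D`.
PROOF (hypotheses `UHI.Stmt_INV`, `Stmt_CORE`). `H` = the set of the `a` in `S` for which there are integers `u, v` with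
`1 <= u <= X'`, `|v - u (θ a + ρ)| <= ε'`, `X' = X^(1+1/(D+1)) A^(Kd s)`, `ε' = X^(1/(D+1)) ε A^(Kd s)`.
If `|H| >= |S|/2`: `|H| >= A^(1-s)/2 >= A^(1-2s)`, and `UHI.Stmt_INV` with `2 s` (`<= 1/10000`), `C' = 2C + Kd s + 1`
(`X' <= A^(C')`), `c = 0`, `Δ = 0`; its hypothesis is `ε' X'^(4/3) A^(1/4) <= 1`, true because
`1/(D+1) + (4/3)(1 + 1/(D+1)) <= 4/3 + 3/(D+1)`, `(7/3) Kd s <= 3 Kd s`. It gives `d <= 2`, `j'`, `p'` with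
`j' <= X' A^(-d + 120 s) <= X' A^(120 s)`, `|p' - j' θ| <= ε' A^(-d-1+120 s) <= ε' A^(-1+120 s)`. Otherwise
`S' = S \ H` has `|S'| >= A^(1-s)/2 >= A^(1-2s)`, and CORE for `S'` (`hno` by definition of `H`) gives
more than the claim (`X >= 1`). -/
def Stmt_MAIN2 : Prop :=
  ∀ (D : ℕ) (C s : ℝ), 2 ≤ D → 1 ≤ C → 0 < s → s ≤ 1 / 20000 → ∃ A0 : ℝ, 1 ≤ A0 ∧
    ∀ (A θ ρ τ X ε : ℝ) (S : Finset ℤ) (j p : ℤ → ℤ), A0 ≤ A →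
      1 ≤ X → X ≤ A ^ C → A ^ (-C) ≤ ε →
      ε * X ^ (4 / 3 + 3 / ((D : ℝ) + 1)) * A ^ (1 / 4 + 3 * Kd D * s) ≤ 1 →
      0 ≤ θ → θ ≤ 1 → 0 ≤ ρ → ρ ≤ 1 → 0 ≤ τ → τ ≤ 1 →
      (∀ a ∈ S, A / 2 ≤ (a : ℝ) ∧ (a : ℝ) ≤ A) → A ^ (1 - s) ≤ (S.card : ℝ) →
      (∀ a ∈ S, 1 ≤ j a ∧ (j a : ℝ) ≤ X) →
      (∀ a ∈ S, |(p a : ℝ) + τ - j a * (θ * a + ρ)| ≤ ε) →
        ∃ j' p' : ℤ, 1 ≤ j' ∧
          (j' : ℝ) ≤ X ^ (1 + 1 / ((D : ℝ) + 1)) * A ^ ((Kd D + 120) * s) ∧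
          |(p' : ℝ) - j' * θ| ≤ X ^ (1 / ((D : ℝ) + 1)) * ε * A ^ (-1 + (Kd D + 120) * s)

/-- **INV2.** THE INHOMOGENEOUS INVERSE THEOREM.
PROOF (hypothesis `Stmt_MAIN2`). `D >= 2` with `D + 1 >= 6 C/η`, `s = min (1/20000) (η / (6 (Kd D + 120)))`. Then
`X^(3/(D+1)) <= A^(3C/(D+1)) <= A^(η/2)` and `3 Kd s <= η/2`, so the hypothesis of MAIN2 holds;
`X^(1/(D+1)) <= A^(η/6)`, `(Kd + 120) s <= η/6`. Reduction to `θ, ρ, τ` in `[0, 1]`: subtract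
`⌊θ⌋, ⌊ρ⌋, ⌊τ⌋`, replace `p_a` by `p_a + ⌊τ⌋ - j_a (⌊θ⌋ a + ⌊ρ⌋)`, at the end `p'` by `p' + j' ⌊θ⌋`. -/
def Stmt_INV2 : Prop :=
  ∀ C η : ℝ, 1 ≤ C → 0 < η → η ≤ 1 → ∃ s A0 : ℝ, 0 < s ∧ s ≤ 1 / 20000 ∧ 1 ≤ A0 ∧
    ∀ (A θ ρ τ X ε : ℝ) (S : Finset ℤ) (j p : ℤ → ℤ), A0 ≤ A →
      1 ≤ X → X ≤ A ^ C → A ^ (-C) ≤ ε → ε * X ^ (4 / 3 : ℝ) * A ^ (1 / 4 + η) ≤ 1 →
      (∀ a ∈ S, A / 2 ≤ (a : ℝ) ∧ (a : ℝ) ≤ A) → A ^ (1 - s) ≤ (S.card : ℝ) →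
      (∀ a ∈ S, 1 ≤ j a ∧ (j a : ℝ) ≤ X) →
      (∀ a ∈ S, |(p a : ℝ) + τ - j a * (θ * a + ρ)| ≤ ε) →
        ∃ j' p' : ℤ, 1 ≤ j' ∧ (j' : ℝ) ≤ X * A ^ η ∧
          |(p' : ℝ) - j' * θ| ≤ ε * A ^ (-1 + η)

end Pool.Agent.UHJ
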